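import Mathlib
set_option autoImplicit false
namespace Pool.Agent.M4074C4

theorem E0_nonneg (A B : ℝ) : 0 ≤ 10/9 - 8/3*(A+B) + (A+B)^2/3 + 2*(A^2+A*B+B^2) - (1-A)^2/4 := by
  nlinarith [sq_nonneg (A - B), sq_nonneg (A+B-2/3), sq_nonneg (A - 243/1000 + (B-433/1000)), sq_nonneg (A-243/1000), sq_nonneg (B-433/1000), sq_nonneg (5*(A-243/1000)+ 4*(B-433/1000))]

theorem E0J_nonneg (A B : ℝ) : 0 ≤ (10/9 - 8/3*(A+B) + (A+B)^2/3 + 2*(A^2+A*B+B^2) - (1-A)^2/4) +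
    9/8*(7/9 - 3*A - 5/6*B + 8/3*A^2 + 13/6*A*B) := by
  nlinarith [sq_nonneg (A - 348/1000 + (B-392/1000)), sq_nonneg (A-348/1000), sq_nonneg (B-392/1000), sq_nonneg (5*(A-348/1000)+ 4*(B-392/1000)), sq_nonneg (10*(A-348/1000)+ 4*(B-392/1000))]

theorem J_lower (A B : ℝ) (hB : 0 ≤ B) (hB1 : B ≤ 1) :
    -(1/8) ≤ 7/9 - 3*A - 5/6*B + 8/3*A^2 + 13/6*A*B := by
  nlinarith [mul_nonneg hB (sq_nonneg (A - 5/32)), mul_nonneg (sub_nonneg.2 hB1) (sq_nonneg (A - 9/16)),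
    mul_nonneg hB (sub_nonneg.2 hB1)]

/-- `q2 X² + J X + E0/3 ≥ 0` -/
theorem core (A B X : ℝ) (hB : 0 ≤ B) (hB1 : B ≤ 1) (hX : 0 ≤ X) :
    0 ≤ (1/3 - A + A^2)*X^2 + (7/9 - 3*A - 5/6*B + 8/3*A^2 + 13/6*A*B)*X +
      (10/9 - 8/3*(A+B) + (A+B)^2/3 + 2*(A^2+A*B+B^2) - (1-A)^2/4)/3 := by
  have h1 := E0_nonneg A B
  have h2 := E0J_nonneg A B
  have h3 := J_lower A B hB hB1
  set J := 7/9 - 3*A - 5/6*B + 8/3*A^2 + 13/6*A*B with hJ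
  set E := 10/9 - 8/3*(A+B) + (A+B)^2/3 + 2*(A^2+A*B+B^2) - (1-A)^2/4 with hE
  have hq : 1/12 ≤ 1/3 - A + A^2 := by nlinarith [sq_nonneg (A - 1/2)]
  have hq2 : 1/12*X^2 ≤ (1/3 - A + A^2)*X^2 := mul_le_mul_of_nonneg_right hq (sq_nonneg X)
  by_cases hJ0 : 0 ≤ J
  · nlinarith [mul_nonneg hJ0 hX, sq_nonneg X]
  · push Not at hJ0
    -- E ≥ 9 J²
    have h4 : 9*J^2 ≤ E := by nlinarith
    nlinarith [sq_nonneg (X + 6*J)]

/-- the polynomial inequality -/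
theorem poly (x y A B : ℝ) (hy : 1/3 ≤ y) (hxy : y ≤ x) (hA : 0 ≤ A) (hA1 : A ≤ 1) (hB : 0 ≤ B)
    (hB1 : B ≤ 1) :
    x*(x+y+2)*A + y*(x+y+2)*B - (x^2+2*x)*A^2 - (2*x*y+x+y)*A*B - (y^2+2*y)*B^2 +
      (x-y)/2*(1-A)*B + y/4*(1-A)^2 ≤ (x+y)*(x+y+1)/3 := by
  obtain ⟨X, rfl⟩ : ∃ X, x = y + X := ⟨x - y, by ring⟩
  obtain ⟨Y, rfl⟩ : ∃ Y, y = 1/3 + Y := ⟨y - 1/3, by ring⟩
  have hX : 0 ≤ X := by linarith
  have hY : 0 ≤ Y := by linarith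
  have h1 := core A B X hB hB1 hX
  have h2 := E0_nonneg A B
  have hH : 0 ≤ 4/3 - 3*A - B + 2*A^2 + 2*A*B := by
    nlinarith [mul_nonneg hB (sq_nonneg (A - 1/4)), mul_nonneg (sub_nonneg.2 hB1) (sq_nonneg (A - 3/4)),
      mul_nonneg hB (sub_nonneg.2 hB1)]
  have h3 : 0 ≤ X*Y*(4/3 - 3*A - B + 2*A^2 + 2*A*B) := mul_nonneg (mul_nonneg hX hY) hH
  have h4 : 0 ≤ Y*(10/9 - 8/3*(A+B) + (A+B)^2/3 + 2*(A^2+A*B+B^2) - (1-A)^2/4) := mul_nonneg hY h2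
  have h5 : 0 ≤ (1/3+Y)*Y*(1/3 + (1-(A+B))^2) := by positivity
  nlinarith [h1, h3, h4, h5]

/-- the scalar inequality of the second case -/
theorem poly2 (x y : ℝ) (hy : 1/3 ≤ y) (hxy : y ≤ x) :
    3*(x+y+2)^2*x ≤ (x^2+3*x+2)*(x+y)*(4*(x+y)+1) := by
  obtain ⟨X, rfl⟩ : ∃ X, x = y + X := ⟨x - y, by ring⟩
  obtain ⟨Y, rfl⟩ : ∃ Y, y = 1/3 + Y := ⟨y - 1/3, by ring⟩
  have hX : 0 ≤ X := by linarith
  have hY : 0 ≤ Y := by linarith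
  nlinarith [mul_nonneg hX hY, mul_nonneg hX (sq_nonneg Y), mul_nonneg hY (sq_nonneg X),
    mul_nonneg hX (pow_nonneg hX 2), mul_nonneg hY (pow_nonneg hY 2), mul_nonneg (mul_nonneg hX hY) (sq_nonneg X),
    mul_nonneg (mul_nonneg hX hY) (sq_nonneg Y), pow_nonneg hX 2, pow_nonneg hY 2, pow_nonneg hX 3,
    pow_nonneg hY 3, pow_nonneg hX 4, pow_nonneg hY 4, mul_nonneg (pow_nonneg hX 2) (pow_nonneg hY 2)]

theorem row_quarter (b g : ℝ) (hg : 0 ≤ g) : g * max (b - g) 0 ≤ b^2/4 := by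
  rcases le_total b g with h | h
  · rw [max_eq_right (by linarith)]; nlinarith [sq_nonneg b]
  · rw [max_eq_left (by linarith)]; nlinarith [sq_nonneg (b - 2*g)]

theorem case4 (x y a0 a1 a2 g0 g1 g2 : ℝ) (hy : 1/3 ≤ y) (hxy : y ≤ x)
    (ha0 : 0 ≤ a0) (ha1 : 0 ≤ a1) (ha2 : 0 ≤ a2) (hg0 : 0 ≤ g0) (hg1 : 0 ≤ g1) (hg2 : 0 ≤ g2)
    (ha : a0 + a1 + a2 = 1) (hg : g0 + g1 + g2 = 1) (hf : (1+x)*a0 + (1+y)*g0 ≤ a1) :
    (x*a1*max ((1+x)*a0 + (1+y)*g0 - a1) 0 + y*g1*max ((1+x)*a0 + (1+y)*g0 - g1) 0) +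
    (x*a2*max ((1+x)*a1 + (1+y)*g1 - a2) 0 + y*g2*max ((1+x)*a1 + (1+y)*g1 - g2) 0) +
    (x*a0*max ((1+x)*a2 + (1+y)*g2 - a0) 0 + y*g0*max ((1+x)*a2 + (1+y)*g2 - g0) 0)
      ≤ (x+y)*(x+y+1)/3 := by
  have hx0 : 0 ≤ x := by linarith
  have hy0 : 0 ≤ y := by linarith
  obtain ⟨b, hb⟩ : ∃ b, b = (1+x)*a0 + (1+y)*g0 := ⟨_, rfl⟩
  obtain ⟨b1, hb1⟩ : ∃ b1, b1 = (1+x)*a1 + (1+y)*g1 := ⟨_, rfl⟩
  obtain ⟨b2, hb2⟩ : ∃ b2, b2 = (1+x)*a2 + (1+y)*g2 := ⟨_, rfl⟩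
  rw [← hb, ← hb1, ← hb2]
  rw [← hb] at hf
  have hb0 : 0 ≤ b := by rw [hb]; positivity
  have hb10 : 0 ≤ b1 := by rw [hb1]; positivity
  have hb20 : 0 ≤ b2 := by rw [hb2]; positivity
  have hsum : b + b1 + b2 = x + y + 2 := by
    have h1 : b + b1 + b2 = (1+x)*(a0+a1+a2) + (1+y)*(g0+g1+g2) := by rw [hb, hb1, hb2]; ring
    rw [h1, ha, hg]; ring
  -- row 0
  have hR0 : x*a1*max (b - a1) 0 + y*g1*max (b - g1) 0 ≤ y*(b^2/4) := by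
    rw [max_eq_right (by linarith : b - a1 ≤ 0), mul_zero, zero_add, mul_assoc]
    exact mul_le_mul_of_nonneg_left (row_quarter b g1 hg1) hy0
  -- row 2
  have hm : ∀ t, 0 ≤ t → max (b2 - t) 0 ≤ b2 := fun t ht => max_le (by linarith) hb20
  have hR2 : x*a0*max (b2 - a0) 0 + y*g0*max (b2 - g0) 0 ≤ (x*a0 + y*g0)*b2 := by
    have h1 := mul_le_mul_of_nonneg_left (hm a0 ha0) (mul_nonneg hx0 ha0)
    have h2 := mul_le_mul_of_nonneg_left (hm g0 hg0) (mul_nonneg hy0 hg0)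
    linarith
  have ha1' : a1 = 1 - a2 - a0 := by linarith
  have hg1' : g1 = 1 - g2 - g0 := by linarith
  have ha2' : a2 ≤ 1 := by linarith
  have hg2' : g2 ≤ 1 := by linarith
  have hbA : b ≤ 1 - a2 := by linarith
  have hp : 2*a0 ≤ 1 - a2 := by
    have h1 := mul_nonneg (by linarith : (0:ℝ) ≤ 1 + y) hg0
    have h2 := mul_nonneg hx0 ha0
    have h3 : (1+x)*a0 ≤ b := by rw [hb]; linarith
    linarith
  by_cases hcase : a2 ≤ b1 ∧ g2 ≤ b1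
  · obtain ⟨hc1, hc2⟩ := hcase
    have hR1 : x*a2*max (b1 - a2) 0 + y*g2*max (b1 - g2) 0 = x*a2*(b1 - a2) + y*g2*(b1 - g2) := by
      rw [max_eq_left (by linarith), max_eq_left (by linarith)]
    rw [hR1]
    have hP := poly x y a2 g2 hy hxy ha2 ha2' hg2 hg2'
    have hq1 : y*(b^2/4) ≤ y/4*(1-a2)^2 := by
      have h1 : b^2 ≤ (1-a2)^2 := pow_le_pow_left₀ hb0 hbA 2
      have h2 := mul_le_mul_of_nonneg_left h1 hy0
      linarith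
    have hq2 : (x-y)*(a0*g2) ≤ (x-y)/2*(1-a2)*g2 := by
      have h1 : 0 ≤ (x-y)*g2 := mul_nonneg (by linarith) hg2
      have h2 := mul_le_mul_of_nonneg_left hp h1
      linarith
    have hq3 : 0 ≤ (x-y)*(g0*a2) := mul_nonneg (by linarith) (mul_nonneg hg0 ha2)
    -- identity
    have hid : y*(b^2/4) + (x*a2*(b1 - a2) + y*g2*(b1 - g2)) + (x*a0 + y*g0)*b2 =
        y*(b^2/4) + (x*(x+y+2)*a2 + y*(x+y+2)*g2 - (x^2+2*x)*a2^2 - (2*x*y+x+y)*a2*g2 -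
          (y^2+2*y)*g2^2) + (x-y)*(a0*g2) - (x-y)*(g0*a2) := by
      have e1 : b1 = x + y + 2 - b - b2 := by linarith
      rw [e1, hb2, hb]; ring
    linarith
  · -- some cell of row 1 fails
    have hb1le : b1 ≤ 1 := by
      rw [not_and_or] at hcase
      rcases hcase with h | h <;> linarith [not_le.1 h]
    have hR1 : x*a2*max (b1 - a2) 0 + y*g2*max (b1 - g2) 0 ≤ x*(b1^2/4) := by
      rw [not_and_or] at hcase
      rcases hcase with h | h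
      · rw [max_eq_right (by linarith [not_le.1 h] : b1 - a2 ≤ 0), mul_zero, zero_add, mul_assoc]
        have h1 := mul_le_mul_of_nonneg_left (row_quarter b1 g2 hg2) hy0
        have h2 : y*(b1^2/4) ≤ x*(b1^2/4) := mul_le_mul_of_nonneg_right hxy (by positivity)
        linarith
      · rw [max_eq_right (by linarith [not_le.1 h] : b1 - g2 ≤ 0), mul_zero, add_zero, mul_assoc]
        exact mul_le_mul_of_nonneg_left (row_quarter b1 a2 ha2) hx0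
    have hbb : (1+x)*b ≤ b1 := by
      have h1 : (1+x)*b ≤ (1+x)*a1 := mul_le_mul_of_nonneg_left hf (by linarith)
      have h2 : (1+x)*a1 ≤ b1 := by
        have h3 := mul_nonneg (by linarith : (0:ℝ) ≤ 1 + y) hg1
        rw [hb1]; linarith
      linarith
    have hc0 : (1+x)*(x*a0+y*g0) ≤ x*b := by
      have h1 := mul_nonneg (by linarith : (0:ℝ) ≤ x - y) hg0
      rw [hb]; linarith
    have hb2' : b2 ≤ x + y + 2 - (2+x)*b := by linarith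
    -- (1+x) S ≤ ...
    have hT : (1+x)*((x*a0+y*g0)*b2) ≤ x*b*(x+y+2-(2+x)*b) := by
      have h1 : (1+x)*(x*a0+y*g0)*b2 ≤ x*b*b2 := mul_le_mul_of_nonneg_right hc0 hb20
      have h2 : x*b*b2 ≤ x*b*(x+y+2-(2+x)*b) := mul_le_mul_of_nonneg_left hb2' (mul_nonneg hx0 hb0)
      linarith
    have hamgm : (2+x)*(x*b*(x+y+2-(2+x)*b)) ≤ x*((x+y+2)^2/4) := by
      have h1 := mul_nonneg hx0 (sq_nonneg (x+y+2-2*((2+x)*b)))
      linarith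
    have hP := poly2 x y hy hxy
    have hble : b ≤ 1 := by
      have := mul_nonneg hx0 hb0
      linarith
    have h5 : y*(b^2/4) ≤ y/4 := by
      have h1 : b^2 ≤ 1 := pow_le_one₀ hb0 hble
      have h2 := mul_le_mul_of_nonneg_left h1 hy0
      linarith
    have h6 : x*(b1^2/4) ≤ x/4 := by
      have h1 : b1^2 ≤ 1 := pow_le_one₀ hb10 hb1le
      have h2 := mul_le_mul_of_nonneg_left h1 hx0
      linarith
    have h7 : (x*a0+y*g0)*b2 ≤ (x+y)*(4*(x+y)+1)/12 := by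
      have h8 : (2+x)*((1+x)*((x*a0+y*g0)*b2)) ≤ x*((x+y+2)^2/4) :=
        (mul_le_mul_of_nonneg_left hT (by linarith)).trans hamgm
      have h9 : 0 < (x^2+3*x+2) := by positivity
      have h10 : (x^2+3*x+2)*((x*a0+y*g0)*b2) ≤ (x^2+3*x+2)*((x+y)*(4*(x+y)+1)/12) := by linarith
      exact le_of_mul_le_mul_left h10 h9
    linarith

end Pool.Agent.M4074C4
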