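import Mathlib

set_option autoImplicit false

namespace Pool.Agent.M4074R

/-- common evaluation for a choice of multipliers `T0 T1 T2` -/
lemma L1_eval (f0 f1 f2 g0 g1 g2 o0 o1 o2 w Y0 Y1 Y2 X0 X1 X2 T0 T1 T2 R : ℝ)
    (hw : 0 ≤ w)
    (hY0 : Y0 ≤ w * (f0 + g0)) (hY0' : Y0 ≤ w * f1)
    (hY1 : Y1 ≤ w * (f1 + g1)) (hY1' : Y1 ≤ w * f2)
    (hY2 : Y2 ≤ w * (f2 + g2)) (hY2' : Y2 ≤ w * f0)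
    (hX0 : X0 ≤ o0 / 2 * (g1 + w) - o0 ^ 2 / 4)
    (hX1 : X1 ≤ o1 / 2 * (g2 + w) - o1 ^ 2 / 4)
    (hX2 : X2 ≤ o2 / 2 * (g0 + w) - o2 ^ 2 / 4)
    (hT0 : 0 ≤ T0) (hT1 : 0 ≤ T1) (hT2 : 0 ≤ T2)
    (hT0' : T0 ≤ o0 + o1 + o2) (hT1' : T1 ≤ o0 + o1 + o2) (hT2' : T2 ≤ o0 + o1 + o2)
    (hR : w * (f0 * (o0 + o1 + o2 + T0 - T2 + 3/2 * o0) + f1 * (o0 + o1 + o2 + T1 - T0 + 3/2 * o1)
      + f2 * (o0 + o1 + o2 + T2 - T1 + 3/2 * o2) + g0 * (T0 + 3/2 * o0 + 3/2 * o2)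
      + g1 * (T1 + 3/2 * o1 + 3/2 * o0) + g2 * (T2 + 3/2 * o2 + 3/2 * o1)
      + 3/2 * w * (o0 + o1 + o2) - 3/4 * (o0^2 + o1^2 + o2^2)) ≤ R) :
    (o0 + o1 + o2) * (Y0 + Y1 + Y2) + 3/2 * w * (((f0+g0)*o0 + (f1+g1)*o1 + (f2+g2)*o2)
      + 2 * (X0 + X1 + X2)) ≤ R := by
  have a0 := mul_le_mul_of_nonneg_left hY0 hT0
  have a1 := mul_le_mul_of_nonneg_left hY1 hT1
  have a2 := mul_le_mul_of_nonneg_left hY2 hT2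
  have b0 := mul_le_mul_of_nonneg_left hY0' (sub_nonneg.mpr hT0')
  have b1 := mul_le_mul_of_nonneg_left hY1' (sub_nonneg.mpr hT1')
  have b2 := mul_le_mul_of_nonneg_left hY2' (sub_nonneg.mpr hT2')
  have c0 := mul_le_mul_of_nonneg_left hX0 hw
  have c1 := mul_le_mul_of_nonneg_left hX1 hw
  have c2 := mul_le_mul_of_nonneg_left hX2 hw
  refine le_trans ?_ hR
  linarith

/-- (L1) case where one odd class dominates -/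
lemma L1_big (f0 f1 f2 g0 g1 g2 o0 o1 o2 w Y0 Y1 Y2 X0 X1 X2 : ℝ)
    (hf0 : 0 ≤ f0) (hf1 : 0 ≤ f1) (hf2 : 0 ≤ f2) (hg0 : 0 ≤ g0) (hg1 : 0 ≤ g1) (hg2 : 0 ≤ g2)
    (ho0 : 0 ≤ o0) (ho1 : 0 ≤ o1) (ho2 : 0 ≤ o2) (hw : 0 ≤ w)
    (hbig : 2 * (o1 + o2) ≤ o0)
    (hreg : 3 * (o0 + o1 + o2) ≤ (f0+f1+f2+(g0+g1+g2)) + w)
    (hY0 : Y0 ≤ w * (f0 + g0)) (hY0' : Y0 ≤ w * f1)
    (hY1 : Y1 ≤ w * (f1 + g1)) (hY1' : Y1 ≤ w * f2)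
    (hY2 : Y2 ≤ w * (f2 + g2)) (hY2' : Y2 ≤ w * f0)
    (hX0 : X0 ≤ o0 / 2 * (g1 + w) - o0 ^ 2 / 4)
    (hX1 : X1 ≤ o1 / 2 * (g2 + w) - o1 ^ 2 / 4)
    (hX2 : X2 ≤ o2 / 2 * (g0 + w) - o2 ^ 2 / 4) :
    (o0 + o1 + o2) * (Y0 + Y1 + Y2) + 3/2 * w * (((f0+g0)*o0 + (f1+g1)*o1 + (f2+g2)*o2)
      + 2 * (X0 + X1 + X2)) ≤ (o0 + o1 + o2) * w * (5/3 * (f0+f1+f2+(g0+g1+g2)) + 5/3 * w
        - 3/4 * (o0 + o1 + o2)) := by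
  apply L1_eval f0 f1 f2 g0 g1 g2 o0 o1 o2 w Y0 Y1 Y2 X0 X1 X2 0
    (o0/2 - (o0+o1+o2)/3 + 3/2 * o2) (o0 - (o0+o1+o2)/6) _ hw hY0 hY0' hY1 hY1' hY2 hY2' hX0 hX1 hX2
    le_rfl (by linarith) (by linarith) (by linarith) (by linarith) (by linarith)
  have key : f0 * (o0 + o1 + o2 + 0 - (o0 - (o0+o1+o2)/6) + 3/2 * o0)
      + f1 * (o0 + o1 + o2 + (o0/2 - (o0+o1+o2)/3 + 3/2 * o2) - 0 + 3/2 * o1)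
      + f2 * (o0 + o1 + o2 + (o0 - (o0+o1+o2)/6) - (o0/2 - (o0+o1+o2)/3 + 3/2 * o2) + 3/2 * o2)
      + g0 * (0 + 3/2 * o0 + 3/2 * o2)
      + g1 * ((o0/2 - (o0+o1+o2)/3 + 3/2 * o2) + 3/2 * o1 + 3/2 * o0)
      + g2 * ((o0 - (o0+o1+o2)/6) + 3/2 * o2 + 3/2 * o1)
      + 3/2 * w * (o0 + o1 + o2) - 3/4 * (o0^2 + o1^2 + o2^2) ≤
      (o0 + o1 + o2) * (5/3 * (f0+f1+f2+(g0+g1+g2)) + 5/3 * w - 3/4 * (o0 + o1 + o2)) := by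
    have q1 : 0 ≤ f1 * (o0 - 2 * (o1 + o2)) := mul_nonneg hf1 (by linarith)
    have q2 : 0 ≤ g0 * (o0 - 2 * (o1 + o2)) := mul_nonneg hg0 (by linarith)
    have q3 : 0 ≤ g2 * o0 := mul_nonneg hg2 ho0
    have q4 : 0 ≤ (o1 + o2) * ((f0+f1+f2+(g0+g1+g2)) + w - 3 * (o0 + o1 + o2)) :=
      mul_nonneg (by linarith) (by linarith)
    have q5 : 0 ≤ w * (o0 - 2 * (o1 + o2)) := mul_nonneg hw (by linarith)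
    have q6 : 0 ≤ (o1 + o2) * (o0 - 2 * (o1 + o2)) := mul_nonneg (by linarith) (by linarith)
    have q7 : 0 ≤ g0 * o1 := mul_nonneg hg0 ho1
    have q8 : 0 ≤ g0 * o2 := mul_nonneg hg0 ho2
    have q9 : 0 ≤ g2 * o1 := mul_nonneg hg2 ho1
    have q10 : 0 ≤ g2 * o2 := mul_nonneg hg2 ho2
    have q11 : 0 ≤ g2 * (o0 - 2 * (o1 + o2)) := mul_nonneg hg2 (by linarith)
    nlinarith [sq_nonneg (o1 - o2), mul_nonneg ho1 ho2]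
  have := mul_le_mul_of_nonneg_left key hw
  linarith

/-- (L1) case where no odd class dominates -/
lemma L1_small (f0 f1 f2 g0 g1 g2 o0 o1 o2 w Y0 Y1 Y2 X0 X1 X2 : ℝ)
    (hf0 : 0 ≤ f0) (hf1 : 0 ≤ f1) (hf2 : 0 ≤ f2) (hg0 : 0 ≤ g0) (hg1 : 0 ≤ g1) (hg2 : 0 ≤ g2)
    (ho0 : 0 ≤ o0) (ho1 : 0 ≤ o1) (ho2 : 0 ≤ o2) (hw : 0 ≤ w)
    (hb0 : o0 ≤ 2 * (o1 + o2)) (hb1 : o1 ≤ 2 * (o0 + o2)) (hb2 : o2 ≤ 2 * (o0 + o1))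
    (hreg : 3 * (o0 + o1 + o2) ≤ (f0+f1+f2+(g0+g1+g2)) + w)
    (hY0 : Y0 ≤ w * (f0 + g0)) (hY0' : Y0 ≤ w * f1)
    (hY1 : Y1 ≤ w * (f1 + g1)) (hY1' : Y1 ≤ w * f2)
    (hY2 : Y2 ≤ w * (f2 + g2)) (hY2' : Y2 ≤ w * f0)
    (hX0 : X0 ≤ o0 / 2 * (g1 + w) - o0 ^ 2 / 4)
    (hX1 : X1 ≤ o1 / 2 * (g2 + w) - o1 ^ 2 / 4)
    (hX2 : X2 ≤ o2 / 2 * (g0 + w) - o2 ^ 2 / 4) :
    (o0 + o1 + o2) * (Y0 + Y1 + Y2) + 3/2 * w * (((f0+g0)*o0 + (f1+g1)*o1 + (f2+g2)*o2)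
      + 2 * (X0 + X1 + X2)) ≤ (o0 + o1 + o2) * w * (5/3 * (f0+f1+f2+(g0+g1+g2)) + 5/3 * w
        - 3/4 * (o0 + o1 + o2)) := by
  obtain ⟨τ, h1, h2, h3, h4, h5, h6⟩ : ∃ τ : ℝ, 0 ≤ τ ∧ 3/2 * o1 - (o0+o1+o2)/2 ≤ τ ∧
      (o0+o1+o2)/2 - 3/2 * o0 ≤ τ ∧ τ ≤ 3/2 * o1 ∧ τ ≤ (o0+o1+o2) - 3/2 * o0 ∧
      τ ≤ (o0+o1+o2)/2 := by
    refine ⟨max 0 (max (3/2 * o1 - (o0+o1+o2)/2) ((o0+o1+o2)/2 - 3/2 * o0)), le_max_left _ _,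
      le_trans (le_max_left _ _) (le_max_right _ _), le_trans (le_max_right _ _) (le_max_right _ _),
      ?_, ?_, ?_⟩ <;> refine max_le ?_ (max_le ?_ ?_) <;> linarith
  apply L1_eval f0 f1 f2 g0 g1 g2 o0 o1 o2 w Y0 Y1 Y2 X0 X1 X2 τ
    (τ + (o0+o1+o2)/2 - 3/2 * o1) (τ - (o0+o1+o2)/2 + 3/2 * o0) _ hw hY0 hY0' hY1 hY1' hY2 hY2'
    hX0 hX1 hX2 h1 (by linarith) (by linarith) (by linarith) (by linarith) (by linarith)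
  have key : f0 * (o0 + o1 + o2 + τ - (τ - (o0+o1+o2)/2 + 3/2 * o0) + 3/2 * o0)
      + f1 * (o0 + o1 + o2 + (τ + (o0+o1+o2)/2 - 3/2 * o1) - τ + 3/2 * o1)
      + f2 * (o0 + o1 + o2 + (τ - (o0+o1+o2)/2 + 3/2 * o0) - (τ + (o0+o1+o2)/2 - 3/2 * o1)
        + 3/2 * o2)
      + g0 * (τ + 3/2 * o0 + 3/2 * o2)
      + g1 * ((τ + (o0+o1+o2)/2 - 3/2 * o1) + 3/2 * o1 + 3/2 * o0)
      + g2 * ((τ - (o0+o1+o2)/2 + 3/2 * o0) + 3/2 * o2 + 3/2 * o1)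
      + 3/2 * w * (o0 + o1 + o2) - 3/4 * (o0^2 + o1^2 + o2^2) ≤
      (o0 + o1 + o2) * (5/3 * (f0+f1+f2+(g0+g1+g2)) + 5/3 * w - 3/4 * (o0 + o1 + o2)) := by
    have q0 : 0 ≤ g0 * (3/2 * o1 - τ) := mul_nonneg hg0 (by linarith)
    have q1 : 0 ≤ g1 * (o0 + o1 + o2 - 3/2 * o0 - τ) := mul_nonneg hg1 (by linarith)
    have q2 : 0 ≤ g2 * ((o0+o1+o2)/2 - τ) := mul_nonneg hg2 (by linarith)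
    have q4 : 0 ≤ (o0 + o1 + o2) * ((f0+f1+f2+(g0+g1+g2)) + w - 3 * (o0 + o1 + o2)) :=
      mul_nonneg (by linarith) (by linarith)
    nlinarith [sq_nonneg (o1 - o2), sq_nonneg (o0 - o1), sq_nonneg (o0 - o2)]
  have := mul_le_mul_of_nonneg_left key hw
  linarith

/-- (L1): single class modulo 4 -/
theorem L1 (f0 f1 f2 g0 g1 g2 o0 o1 o2 w Y0 Y1 Y2 X0 X1 X2 : ℝ)
    (hf0 : 0 ≤ f0) (hf1 : 0 ≤ f1) (hf2 : 0 ≤ f2) (hg0 : 0 ≤ g0) (hg1 : 0 ≤ g1) (hg2 : 0 ≤ g2)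
    (ho0 : 0 ≤ o0) (ho1 : 0 ≤ o1) (ho2 : 0 ≤ o2) (hw : 0 ≤ w)
    (hreg : 3 * (o0 + o1 + o2) ≤ (f0+f1+f2+(g0+g1+g2)) + w)
    (hY0 : Y0 ≤ w * (f0 + g0)) (hY0' : Y0 ≤ w * f1)
    (hY1 : Y1 ≤ w * (f1 + g1)) (hY1' : Y1 ≤ w * f2)
    (hY2 : Y2 ≤ w * (f2 + g2)) (hY2' : Y2 ≤ w * f0)
    (hX0 : X0 ≤ o0 / 2 * (g1 + w) - o0 ^ 2 / 4)
    (hX1 : X1 ≤ o1 / 2 * (g2 + w) - o1 ^ 2 / 4)
    (hX2 : X2 ≤ o2 / 2 * (g0 + w) - o2 ^ 2 / 4) :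
    (o0 + o1 + o2) * (Y0 + Y1 + Y2) + 3/2 * w * (((f0+g0)*o0 + (f1+g1)*o1 + (f2+g2)*o2)
      + 2 * (X0 + X1 + X2)) ≤ (o0 + o1 + o2) * w * (5/3 * (f0+f1+f2+(g0+g1+g2)) + 5/3 * w
        - 3/4 * (o0 + o1 + o2)) := by
  rcases le_total (2 * (o1 + o2)) o0 with h0 | h0
  · exact L1_big f0 f1 f2 g0 g1 g2 o0 o1 o2 w Y0 Y1 Y2 X0 X1 X2 hf0 hf1 hf2 hg0 hg1 hg2 ho0 ho1 ho2
      hw h0 hreg hY0 hY0' hY1 hY1' hY2 hY2' hX0 hX1 hX2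
  rcases le_total (2 * (o2 + o0)) o1 with h1 | h1
  · have := L1_big f1 f2 f0 g1 g2 g0 o1 o2 o0 w Y1 Y2 Y0 X1 X2 X0 hf1 hf2 hf0 hg1 hg2 hg0 ho1 ho2
      ho0 hw h1 (by linarith) hY1 hY1' hY2 hY2' hY0 hY0' hX1 hX2 hX0
    linarith
  rcases le_total (2 * (o0 + o1)) o2 with h2 | h2
  · have := L1_big f2 f0 f1 g2 g0 g1 o2 o0 o1 w Y2 Y0 Y1 X2 X0 X1 hf2 hf0 hf1 hg2 hg0 hg1 ho2 ho0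
      ho1 hw h2 (by linarith) hY2 hY2' hY0 hY0' hY1 hY1' hX2 hX0 hX1
    linarith
  · exact L1_small f0 f1 f2 g0 g1 g2 o0 o1 o2 w Y0 Y1 Y2 X0 X1 X2 hf0 hf1 hf2 hg0 hg1 hg2 ho0 ho1
      ho2 hw h0 (by linarith) h2 hreg hY0 hY0' hY1 hY1' hY2 hY2' hX0 hX1 hX2

end Pool.Agent.M4074R
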