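import Mathlib

set_option autoImplicit false

namespace Pool.Agent.M4074R

/-- bundle of bounds for one cell: `|X| = b`, `|Y| = e`, `|W| = w` -/
def Cell (n b e w : ℝ) : Prop :=
  n ≤ b * e ∧ n ≤ w * b ∧ n ≤ w * e ∧
  ∀ s : ℝ, 0 ≤ s → s ≤ w → (s ≤ e ∨ w - s ≤ b) → n ≤ (w - s) * (e - s) + s * b

/-- a degenerate cell makes everything small -/
lemma MA_deg (e0 e1 e2 o0 o1 o2 w N0 N1 N2 : ℝ)
    (he0 : 0 ≤ e0) (he1 : 0 ≤ e1) (he2 : 0 ≤ e2) (ho0 : 0 ≤ o0) (ho1 : 0 ≤ o1) (ho2 : 0 ≤ o2)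
    (hw : 0 ≤ w)
    (h0 : Cell N0 (e0 + o0) e1 w) (h1 : Cell N1 (e1 + o1) e2 w) (h2 : Cell N2 (e2 + o2) e0 w)
    (hreg : 19/12 * w + (o0 + o1 + o2) ≤ 2/3 * (e0 + e1 + e2 + (o0 + o1 + o2)))
    (hd : e0 + o0 + e1 ≤ w) :
    N0 + N1 + N2 ≤ (2 * (e0 + e1 + e2 + (o0 + o1 + o2)) * w - w ^ 2) / 3 := by
  have a0 := h0.1
  have a1 := h1.2.1
  have a2 := h2.2.2.1
  have q1 : 0 ≤ (w - (e0 + o0 + e1)) * (w + (e0 + o0 + e1)) := mul_nonneg (by linarith) (by linarith)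
  have q2 : 0 ≤ w * (2/3 * (e0 + e1 + e2 + (o0 + o1 + o2)) - (19/12 * w + (o0 + o1 + o2))) :=
    mul_nonneg hw (by linarith)
  have q3 : 0 ≤ w * (w - (e0 + o0 + e1)) := mul_nonneg hw (by linarith)
  have q4 : 0 ≤ w * o0 := mul_nonneg hw ho0
  have q5 : 0 ≤ w * o2 := mul_nonneg hw ho2
  nlinarith [sq_nonneg (e0 + o0 - e1)]

/-- method A, ordered case `o2 ≥ o/3 ≥ o0` -/
lemma MA_ord (e0 e1 e2 o0 o1 o2 w N0 N1 N2 : ℝ)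
    (he0 : 0 ≤ e0) (he1 : 0 ≤ e1) (he2 : 0 ≤ e2) (ho0 : 0 ≤ o0) (ho1 : 0 ≤ o1) (ho2 : 0 ≤ o2)
    (hw : 0 ≤ w)
    (h0 : Cell N0 (e0 + o0) e1 w) (h1 : Cell N1 (e1 + o1) e2 w) (h2 : Cell N2 (e2 + o2) e0 w)
    (hreg : 19/12 * w + (o0 + o1 + o2) ≤ 2/3 * (e0 + e1 + e2 + (o0 + o1 + o2)))
    (hwo : (o0 + o1 + o2) ≤ 3 * w)
    (hA : o0 + o1 + o2 ≤ 3 * o2) (hB : 3 * o0 ≤ o0 + o1 + o2)
    (hRA : (e0 + e1 + e2 + (o0 + o1 + o2)) * w / 3 - w * (o0 + o1 + o2) / 2 - 5/12 * w ^ 2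
      - (e0 + e1 + e2 + (o0 + o1 + o2)) * (o0 + o1 + o2) / 6 + (o0 + o1 + o2) ^ 2 / 3 ≤ 0) :
    N0 + N1 + N2 ≤ (2 * (e0 + e1 + e2 + (o0 + o1 + o2)) * w - w ^ 2) / 3 ∨
    2 * (N0 + N1 + N2) + ((e0 * o0 + e1 * o1 + e2 * o2) + (o0 + o1 + o2) ^ 2 / 2
      - 2/3 * (e0 + e1 + e2) * (o0 + o1 + o2)) ≤
      2 * ((2 * (e0 + e1 + e2 + (o0 + o1 + o2)) * w - w ^ 2) / 3) := by
  by_cases d0 : e0 + o0 + e1 ≤ w
  · left
    exact MA_deg e0 e1 e2 o0 o1 o2 w N0 N1 N2 he0 he1 he2 ho0 ho1 ho2 hw h0 h1 h2 hreg d0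
  by_cases d1 : e1 + o1 + e2 ≤ w
  · left
    have := MA_deg e1 e2 e0 o1 o2 o0 w N1 N2 N0 he1 he2 he0 ho1 ho2 ho0 hw h1 h2 h0 (by linarith) d1
    linarith
  by_cases d2 : e2 + o2 + e0 ≤ w
  · left
    have := MA_deg e2 e0 e1 o2 o0 o1 w N2 N0 N1 he2 he0 he1 ho2 ho0 ho1 hw h2 h0 h1 (by linarith) d2
    linarith
  right
  push Not at d0 d1 d2
  obtain ⟨o, ho⟩ : ∃ o, o = o0 + o1 + o2 := ⟨_, rfl⟩
  have v : ∀ s b e : ℝ, w < b + e → (s ≤ e ∨ w - s ≤ b) := by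
    intro s b e h
    by_contra hc
    push Not at hc
    linarith [hc.1, hc.2]
  have c0 := h0.2.2.2 ((w - o / 3 - (o0 - o / 3)) / 2) (by linarith) (by linarith)
    (v _ _ _ (by linarith))
  have c1 := h1.2.2.2 ((w - o / 3 + (o2 - o / 3)) / 2) (by linarith) (by linarith)
    (v _ _ _ (by linarith))
  have c2 := h2.2.2.2 ((w - o / 3) / 2) (by linarith) (by linarith) (v _ _ _ (by linarith))
  subst ho
  nlinarith [sq_nonneg (o1 - (o0 + o1 + o2) / 3)]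

/-- method A -/
theorem MA (e0 e1 e2 o0 o1 o2 w N0 N1 N2 : ℝ)
    (he0 : 0 ≤ e0) (he1 : 0 ≤ e1) (he2 : 0 ≤ e2) (ho0 : 0 ≤ o0) (ho1 : 0 ≤ o1) (ho2 : 0 ≤ o2)
    (hw : 0 ≤ w)
    (h0 : Cell N0 (e0 + o0) e1 w) (h1 : Cell N1 (e1 + o1) e2 w) (h2 : Cell N2 (e2 + o2) e0 w)
    (hreg : 19/12 * w + (o0 + o1 + o2) ≤ 2/3 * (e0 + e1 + e2 + (o0 + o1 + o2)))
    (hwo : (o0 + o1 + o2) ≤ 3 * w)
    (hRA : (e0 + e1 + e2 + (o0 + o1 + o2)) * w / 3 - w * (o0 + o1 + o2) / 2 - 5/12 * w ^ 2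
      - (e0 + e1 + e2 + (o0 + o1 + o2)) * (o0 + o1 + o2) / 6 + (o0 + o1 + o2) ^ 2 / 3 ≤ 0) :
    N0 + N1 + N2 ≤ (2 * (e0 + e1 + e2 + (o0 + o1 + o2)) * w - w ^ 2) / 3 ∨
    2 * (N0 + N1 + N2) + ((e0 * o0 + e1 * o1 + e2 * o2) + (o0 + o1 + o2) ^ 2 / 2
      - 2/3 * (e0 + e1 + e2) * (o0 + o1 + o2)) ≤
      2 * ((2 * (e0 + e1 + e2 + (o0 + o1 + o2)) * w - w ^ 2) / 3) := by
  have key : (o0 + o1 + o2 ≤ 3 * o2 ∧ 3 * o0 ≤ o0 + o1 + o2) ∨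
      (o0 + o1 + o2 ≤ 3 * o0 ∧ 3 * o1 ≤ o0 + o1 + o2) ∨
      (o0 + o1 + o2 ≤ 3 * o1 ∧ 3 * o2 ≤ o0 + o1 + o2) := by
    by_contra hc
    push Not at hc
    obtain ⟨k1, k2, k3⟩ := hc
    rcases le_total (o0 + o1 + o2) (3 * o2) with a | a
    · have := k1 a
      have := k2 (by linarith)
      have := k3 (by linarith)
      linarith
    · rcases le_total (o0 + o1 + o2) (3 * o1) with b | b
      · have := k3 b
        linarith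
      · have := k2 (by linarith)
        linarith
  rcases key with ⟨a, b⟩ | ⟨a, b⟩ | ⟨a, b⟩
  · exact MA_ord e0 e1 e2 o0 o1 o2 w N0 N1 N2 he0 he1 he2 ho0 ho1 ho2 hw h0 h1 h2 hreg hwo a b hRA
  · rcases MA_ord e1 e2 e0 o1 o2 o0 w N1 N2 N0 he1 he2 he0 ho1 ho2 ho0 hw h1 h2 h0 (by linarith)
      (by linarith) (by linarith) (by linarith) (by linarith) with h | h
    · left; linarith
    · right; linarith
  · rcases MA_ord e2 e0 e1 o2 o0 o1 w N2 N0 N1 he2 he0 he1 ho2 ho0 ho1 hw h2 h0 h1 (by linarith)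
      (by linarith) (by linarith) (by linarith) (by linarith) with h | h
    · left; linarith
    · right; linarith

/-- small `w`, ordered case; `p_k` are the proportions of the odd classes -/
lemma MZ_ord (e0 e1 e2 o p0 p1 p2 w N0 N1 N2 : ℝ)
    (he0 : 0 ≤ e0) (he1 : 0 ≤ e1) (he2 : 0 ≤ e2) (ho : 0 ≤ o)
    (hp0 : 0 ≤ p0) (hp1 : 0 ≤ p1) (hp2 : 0 ≤ p2) (hp : p0 + p1 + p2 = 1) (hw : 0 ≤ w)
    (h0 : Cell N0 (e0 + p0 * o) e1 w) (h1 : Cell N1 (e1 + p1 * o) e2 w)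
    (h2 : Cell N2 (e2 + p2 * o) e0 w)
    (hwo : 3 * w ≤ o) (hoe : 3 * o ≤ 2 * (e0 + e1 + e2))
    (hA : 1 ≤ 3 * p2) (hB : 3 * p0 ≤ 1) :
    N0 + N1 + N2 ≤ (2 * (e0 + e1 + e2 + o) * w - w ^ 2) / 3 ∨
    o * (N0 + N1 + N2) + 3/2 * w * ((e0 * (p0 * o) + e1 * (p1 * o) + e2 * (p2 * o)) + o ^ 2 / 2
      - 2/3 * (e0 + e1 + e2) * o) ≤
      o * ((2 * (e0 + e1 + e2 + o) * w - w ^ 2) / 3) := by
  have hs : p0 * o + p1 * o + p2 * o = o := by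
    rw [← add_mul, ← add_mul, hp, one_mul]
  have g0 : 0 ≤ p0 * o := mul_nonneg hp0 ho
  have g1 : 0 ≤ p1 * o := mul_nonneg hp1 ho
  have g2 : 0 ≤ p2 * o := mul_nonneg hp2 ho
  by_cases d0 : e0 + p0 * o + e1 ≤ w
  · left
    have := MA_deg e0 e1 e2 (p0 * o) (p1 * o) (p2 * o) w N0 N1 N2 he0 he1 he2 g0 g1 g2 hw h0 h1 h2
      (by linarith) d0
    rw [hs] at this; exact this
  by_cases d1 : e1 + p1 * o + e2 ≤ w
  · left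
    have := MA_deg e1 e2 e0 (p1 * o) (p2 * o) (p0 * o) w N1 N2 N0 he1 he2 he0 g1 g2 g0 hw h1 h2 h0
      (by linarith) d1
    have e : p1 * o + p2 * o + p0 * o = o := by linarith
    rw [e] at this; linarith
  by_cases d2 : e2 + p2 * o + e0 ≤ w
  · left
    have := MA_deg e2 e0 e1 (p2 * o) (p0 * o) (p1 * o) w N2 N0 N1 he2 he0 he1 g2 g0 g1 hw h2 h0 h1
      (by linarith) d2
    have e : p2 * o + p0 * o + p1 * o = o := by linarith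
    rw [e] at this; linarith
  right
  push Not at d0 d1 d2
  have v : ∀ s b e : ℝ, w < b + e → (s ≤ e ∨ w - s ≤ b) := by
    intro s b e h
    by_contra hc
    push Not at hc
    linarith [hc.1, hc.2]
  have c0 := h0.2.2.2 ((1/2 - 3/2 * p0) * w) (mul_nonneg (by linarith) hw)
    (by nlinarith) (v _ _ _ (by linarith))
  have c1 := h1.2.2.2 ((3/2 * p2 - 1/2) * w) (mul_nonneg (by linarith) hw)
    (by nlinarith) (v _ _ _ (by linarith))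
  have c2 := h2.2.2.1
  have k0 := mul_le_mul_of_nonneg_left c0 ho
  have k1 := mul_le_mul_of_nonneg_left c1 ho
  have k2 := mul_le_mul_of_nonneg_left c2 ho
  -- final polynomial inequality
  have hp1' : p1 = 1 - p0 - p2 := by linarith
  subst hp1'
  -- t = p0 + p2
  have r1 : 0 ≤ (o * w) * (w * (1 - 3/2 * (2 * p0 + 2 * p2 - 4/3 + 1/3)) ^ 2) := by positivity
  have r2 : 0 ≤ (o * w) * ((o - 3 * w) * p0 ^ 2) := by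
    apply mul_nonneg (mul_nonneg ho hw) (mul_nonneg (by linarith) (sq_nonneg _))
  have r3 : 0 ≤ (o * w) * ((o - 3 * w) * (p2 - (2/3 - p0 / 2)) ^ 2) := by
    apply mul_nonneg (mul_nonneg ho hw) (mul_nonneg (by linarith) (sq_nonneg _))
  have r4 : 0 ≤ (o * w) * (2 * (e0 + e1 + e2) - 3 * o) := by
    apply mul_nonneg (mul_nonneg ho hw) (by linarith)
  have r5 : 0 ≤ (o * w) * (w * (p0 + (p2 - 1/3) - 1/3) ^ 2) := by positivity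
  have r6 : 0 ≤ (o * w) * (o - 3 * w) := by
    apply mul_nonneg (mul_nonneg ho hw) (by linarith)
  have r7 : 0 ≤ (o * w) * w := by positivity
  nlinarith

/-- small `w` -/
theorem MZ (e0 e1 e2 o0 o1 o2 w N0 N1 N2 : ℝ)
    (he0 : 0 ≤ e0) (he1 : 0 ≤ e1) (he2 : 0 ≤ e2) (ho0 : 0 ≤ o0) (ho1 : 0 ≤ o1) (ho2 : 0 ≤ o2)
    (hw : 0 ≤ w) (ho : 0 < o0 + o1 + o2)
    (h0 : Cell N0 (e0 + o0) e1 w) (h1 : Cell N1 (e1 + o1) e2 w) (h2 : Cell N2 (e2 + o2) e0 w)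
    (hwo : 3 * w ≤ o0 + o1 + o2) (hoe : 3 * (o0 + o1 + o2) ≤ 2 * (e0 + e1 + e2)) :
    N0 + N1 + N2 ≤ (2 * (e0 + e1 + e2 + (o0 + o1 + o2)) * w - w ^ 2) / 3 ∨
    (o0 + o1 + o2) * (N0 + N1 + N2) + 3/2 * w * ((e0 * o0 + e1 * o1 + e2 * o2)
      + (o0 + o1 + o2) ^ 2 / 2 - 2/3 * (e0 + e1 + e2) * (o0 + o1 + o2)) ≤
      (o0 + o1 + o2) * ((2 * (e0 + e1 + e2 + (o0 + o1 + o2)) * w - w ^ 2) / 3) := by
  obtain ⟨o, hod⟩ : ∃ o, o = o0 + o1 + o2 := ⟨_, rfl⟩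
  rw [← hod] at ho hwo hoe ⊢
  obtain ⟨p0, hp0⟩ : ∃ p, o0 = p * o := ⟨o0 / o, (div_mul_cancel₀ _ (ne_of_gt ho)).symm⟩
  obtain ⟨p1, hp1⟩ : ∃ p, o1 = p * o := ⟨o1 / o, (div_mul_cancel₀ _ (ne_of_gt ho)).symm⟩
  obtain ⟨p2, hp2⟩ : ∃ p, o2 = p * o := ⟨o2 / o, (div_mul_cancel₀ _ (ne_of_gt ho)).symm⟩
  have hp : p0 + p1 + p2 = 1 := by
    have : (p0 + p1 + p2) * o = 1 * o := by linarith
    exact mul_right_cancel₀ (ne_of_gt ho) this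
  have g0 : 0 ≤ p0 := by
    by_contra hc; push Not at hc; nlinarith
  have g1 : 0 ≤ p1 := by
    by_contra hc; push Not at hc; nlinarith
  have g2 : 0 ≤ p2 := by
    by_contra hc; push Not at hc; nlinarith
  subst hp0 hp1 hp2
  have key : (1 ≤ 3 * p2 ∧ 3 * p0 ≤ 1) ∨ (1 ≤ 3 * p0 ∧ 3 * p1 ≤ 1) ∨ (1 ≤ 3 * p1 ∧ 3 * p2 ≤ 1) := by
    by_contra hc
    push Not at hc
    obtain ⟨k1, k2, k3⟩ := hc
    rcases le_total 1 (3 * p2) with a | a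
    · have := k1 a
      have := k2 (by linarith)
      have := k3 (by linarith)
      linarith
    · rcases le_total 1 (3 * p1) with b | b
      · have := k3 b
        linarith
      · have := k2 (by linarith)
        linarith
  rcases key with ⟨a, b⟩ | ⟨a, b⟩ | ⟨a, b⟩
  · exact MZ_ord e0 e1 e2 o p0 p1 p2 w N0 N1 N2 he0 he1 he2 ho.le g0 g1 g2 hp hw h0 h1 h2 hwo hoe a b
  · rcases MZ_ord e1 e2 e0 o p1 p2 p0 w N1 N2 N0 he1 he2 he0 ho.le g1 g2 g0 (by linarith) hw h1 h2 h0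
      hwo (by linarith) a b with h | h
    · left; linarith
    · right; linarith
  · rcases MZ_ord e2 e0 e1 o p2 p0 p1 w N2 N0 N1 he2 he0 he1 ho.le g2 g0 g1 (by linarith) hw h2 h0 h1
      hwo (by linarith) a b with h | h
    · left; linarith
    · right; linarith

/-- (P0) -/
theorem P0 (e0 e1 e2 o0 o1 o2 w N0 N1 N2 : ℝ)
    (ho0 : 0 ≤ o0) (ho1 : 0 ≤ o1) (ho2 : 0 ≤ o2) (ho : 0 < o0 + o1 + o2)
    (h0 : N0 ≤ (e0 + o0) * e1) (h1 : N1 ≤ (e1 + o1) * e2) (h2 : N2 ≤ (e2 + o2) * e0)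
    (hreg : 2 * (e0 + e1 + e2 + (o0 + o1 + o2) - w) ^ 2 ≤ (o0 + o1 + o2) *
      (3 * (e0 + e1 + e2) - (o0 + o1 + o2))) :
    2 * (N0 + N1 + N2) + ((e0 * o0 + e1 * o1 + e2 * o2) + (o0 + o1 + o2) ^ 2 / 2
      - 2/3 * (e0 + e1 + e2) * (o0 + o1 + o2)) ≤
      2 * ((2 * (e0 + e1 + e2 + (o0 + o1 + o2)) * w - w ^ 2) / 3) := by
  have q : (o0 + o1 + o2) * (2 * (o0 * (e1 - e2) + o1 * (e2 - e0) + o2 * (e0 - e1))) ≤
      (o0 + o1 + o2) * (((e0-e1)^2 + (e1-e2)^2 + (e0-e2)^2) * (2/3) + (o0 + o1 + o2) ^ 2) := by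
    have a0 : 0 ≤ o0 * (((e2 - e0) - (e0 - e1)) ^ 2 / 3 + ((e1 - e2) - (o0+o1+o2)) ^ 2) := by positivity
    have a1 : 0 ≤ o1 * (((e0 - e1) - (e1 - e2)) ^ 2 / 3 + ((e2 - e0) - (o0+o1+o2)) ^ 2) := by positivity
    have a2 : 0 ≤ o2 * (((e1 - e2) - (e2 - e0)) ^ 2 / 3 + ((e0 - e1) - (o0+o1+o2)) ^ 2) := by positivity
    linarith
  have q' := le_of_mul_le_mul_left q ho
  nlinarith

end Pool.Agent.M4074R
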