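import Mathlib
import Pool.Agent.M4074.MA
import Pool.Agent.M4074.L1

set_option autoImplicit false

namespace Pool.Agent.M4074R

/-- remaining region, normalised `b = 1` -/
lemma region1 (x y : ℝ) (hx : 0 < x) (hx1 : x < 1) (_hy : 0 ≤ y) (hy1 : y < 1) (hT : 3 * x < 1 + y)
    (hP : x * (3 - 4 * x) < 2 * (1 - y) ^ 2) (hZ : x < 3 * y)
    (hA : ¬ (19/12 * y + x ≤ 2/3 ∧ y / 3 - y * x / 2 - 5/12 * y ^ 2 - x / 6 + x ^ 2 / 3 ≤ 0)) :
    (x ≤ 303/1000 ∧ x ≤ 2 * y ∧ 4 * x ≤ 1 + y) ∨ (3/10 ≤ x ∧ x < 1/2 ∧ 2/3 ≤ 19/12 * y + x) := by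
  have hhalf : x < 1/2 := by
    by_contra hc
    push Not at hc
    have h1 : 0 ≤ (2 - 3 * x) + (1 - y) := by linarith
    have h2 : (1 - y) ^ 2 ≤ (2 - 3 * x) ^ 2 := by
      apply pow_le_pow_left₀ (by linarith) (by linarith)
    nlinarith
  by_cases h : 19/12 * y + x ≤ 2/3
  · have hR : 0 < y / 3 - y * x / 2 - 5/12 * y ^ 2 - x / 6 + x ^ 2 / 3 := by
      by_contra hc
      push Not at hc
      exact hA ⟨h, hc⟩
    have hx3 : x < 303/1000 := by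
      by_contra hc
      push Not at hc
      have hx4 : x < 45/100 := by linarith
      -- discriminant
      have : 4 - 22 * x + 29 * x ^ 2 ≤ 0 := by nlinarith
      nlinarith [sq_nonneg (5 * y - (2 - 3 * x))]
    left
    refine ⟨hx3.le, ?_, ?_⟩
    · by_contra hc
      push Not at hc
      nlinarith [mul_nonneg (show (0:ℝ) ≤ x / 2 - y by linarith) (show (0:ℝ) ≤ 1/3 - 11/12 * x by linarith),
        sq_nonneg (x/2 - y), sq_nonneg x]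
    · by_contra hc
      push Not at hc
      nlinarith [mul_nonneg (show (0:ℝ) ≤ 4 * x - 1 - y by linarith) (show (0:ℝ) ≤ 7/6 - 23/6 * x by linarith),
        sq_nonneg (4 * x - 1 - y), sq_nonneg (x - 3/10)]
  · push Not at h
    by_cases h3 : 3/10 ≤ x
    · right
      exact ⟨h3, hhalf, h.le⟩
    · push Not at h3
      left
      refine ⟨by linarith, by linarith, by linarith⟩

/-- remaining region -/
lemma region (e o w : ℝ) (he : 0 < e) (ho : 0 < o) (hw : 0 ≤ w) (hy1 : w < e + o)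
    (hT : 3 * o < e + o + w)
    (hP : o * (3 * e - o) < 2 * (e + o - w) ^ 2) (hZ : o < 3 * w)
    (hA : ¬ (19/12 * w + o ≤ 2/3 * (e + o) ∧
      (e + o) * w / 3 - w * o / 2 - 5/12 * w ^ 2 - (e + o) * o / 6 + o ^ 2 / 3 ≤ 0)) :
    (1000 * o ≤ 303 * (e + o) ∧ o ≤ 2 * w ∧ 3 * o ≤ e + w) ∨
      (3 * (e + o) ≤ 10 * o ∧ o < e ∧ 2/3 * (e + o) ≤ 19/12 * w + o) := by
  have hb : 0 < e + o := by linarith
  obtain ⟨b, hbd⟩ : ∃ b, b = e + o := ⟨_, rfl⟩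
  have hed : e = b - o := by linarith
  subst hed
  have hbo : b - o + o = b := by ring
  simp only [hbo] at hb hy1 hT hP hA ⊢
  obtain ⟨x, hx⟩ : ∃ x, o = x * b := ⟨o / b, (div_mul_cancel₀ _ (ne_of_gt hb)).symm⟩
  obtain ⟨y, hy⟩ : ∃ y, w = y * b := ⟨w / b, (div_mul_cancel₀ _ (ne_of_gt hb)).symm⟩
  subst hx hy
  have hb2 : 0 < b ^ 2 := by positivity
  have e1 : 0 < x := by
    by_contra hc; push Not at hc; nlinarith
  have e2 : x < 1 := by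
    by_contra hc; push Not at hc; nlinarith
  have e3 : 0 ≤ y := by
    by_contra hc; push Not at hc; nlinarith
  have e4 : y < 1 := by
    by_contra hc; push Not at hc; nlinarith
  have e5 : 3 * x < 1 + y := by
    by_contra hc; push Not at hc; nlinarith
  have e6 : x * (3 - 4 * x) < 2 * (1 - y) ^ 2 := by
    by_contra hc
    push Not at hc
    have := mul_le_mul_of_nonneg_left hc hb2.le
    nlinarith
  have e7 : x < 3 * y := by
    by_contra hc; push Not at hc; nlinarith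
  have e8 : ¬ (19/12 * y + x ≤ 2/3 ∧ y / 3 - y * x / 2 - 5/12 * y ^ 2 - x / 6 + x ^ 2 / 3 ≤ 0) := by
    rintro ⟨k1, k2⟩
    apply hA
    constructor
    · nlinarith
    · have := mul_le_mul_of_nonneg_left k2 hb2.le
      nlinarith
  rcases region1 x y e1 e2 e3 e4 e5 e6 e7 e8 with ⟨a1, a2, a3⟩ | ⟨a1, a2, a3⟩
  · left
    refine ⟨by nlinarith, by nlinarith, by nlinarith⟩
  · right
    refine ⟨by nlinarith, by nlinarith, by nlinarith⟩

/-- all cases except the remaining region -/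
theorem glue (e0 e1 e2 o0 o1 o2 w N0 N1 N2 : ℝ)
    (he0 : 0 ≤ e0) (he1 : 0 ≤ e1) (he2 : 0 ≤ e2) (ho0 : 0 ≤ o0) (ho1 : 0 ≤ o1) (ho2 : 0 ≤ o2)
    (hw : 0 ≤ w) (ho : 0 < o0 + o1 + o2) (he : 0 < e0 + e1 + e2)
    (hwb : w < e0 + e1 + e2 + (o0 + o1 + o2))
    (h0 : Cell N0 (e0 + o0) e1 w) (h1 : Cell N1 (e1 + o1) e2 w) (h2 : Cell N2 (e2 + o2) e0 w) :
    N0 + N1 + N2 ≤ (2 * (e0 + e1 + e2 + (o0 + o1 + o2)) * w - w ^ 2) / 3 ∨
    2 * (N0 + N1 + N2) + ((e0 * o0 + e1 * o1 + e2 * o2) + (o0 + o1 + o2) ^ 2 / 2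
      - 2/3 * (e0 + e1 + e2) * (o0 + o1 + o2)) ≤
      2 * ((2 * (e0 + e1 + e2 + (o0 + o1 + o2)) * w - w ^ 2) / 3) ∨
    ((o0 + o1 + o2) < 3 * w ∧ w ≤ e0 + e1 + e2 ∧ 3 * (o0 + o1 + o2) < e0 + e1 + e2 + (o0 + o1 + o2) + w ∧
      (o0 + o1 + o2) * (3 * (e0 + e1 + e2) - (o0 + o1 + o2)) <
        2 * (e0 + e1 + e2 + (o0 + o1 + o2) - w) ^ 2 ∧
      ((1000 * (o0 + o1 + o2) ≤ 303 * (e0 + e1 + e2 + (o0 + o1 + o2)) ∧
        (o0 + o1 + o2) ≤ 2 * w ∧ 3 * (o0 + o1 + o2) ≤ e0 + e1 + e2 + w) ∨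
      (3 * (e0 + e1 + e2 + (o0 + o1 + o2)) ≤ 10 * (o0 + o1 + o2) ∧ (o0 + o1 + o2) < e0 + e1 + e2 ∧
        2/3 * (e0 + e1 + e2 + (o0 + o1 + o2)) ≤ 19/12 * w + (o0 + o1 + o2)))) := by
  by_cases hT : 3 * (o0 + o1 + o2) < e0 + e1 + e2 + (o0 + o1 + o2) + w
  swap
  · left
    push Not at hT
    have a0 := h0.2.2.1
    have a1 := h1.2.2.1
    have a2 := h2.2.2.1
    have q := mul_nonneg hw (sub_nonneg.mpr hT)
    linarith
  by_cases hP : 2 * (e0 + e1 + e2 + (o0 + o1 + o2) - w) ^ 2 ≤ (o0 + o1 + o2) *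
      (3 * (e0 + e1 + e2) - (o0 + o1 + o2))
  · right; left
    exact P0 e0 e1 e2 o0 o1 o2 w N0 N1 N2 ho0 ho1 ho2 ho h0.1 h1.1 h2.1 hP
  push Not at hP
  by_cases hZ : 3 * w ≤ o0 + o1 + o2
  · -- small w
    have hoe : 3 * (o0 + o1 + o2) ≤ 2 * (e0 + e1 + e2) := by linarith
    rcases MZ e0 e1 e2 o0 o1 o2 w N0 N1 N2 he0 he1 he2 ho0 ho1 ho2 hw ho h0 h1 h2 hZ hoe with h | h
    · left; exact h
    · obtain ⟨c, hc⟩ : ∃ c, c = ((e0 * o0 + e1 * o1 + e2 * o2)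
        + (o0 + o1 + o2) ^ 2 / 2 - 2/3 * (e0 + e1 + e2) * (o0 + o1 + o2)) := ⟨_, rfl⟩
      rw [← hc] at h ⊢
      rcases le_total 0 c with hc0 | hc0
      · left
        have : 0 ≤ 3/2 * w * c := by positivity
        have h' : (o0 + o1 + o2) * (N0 + N1 + N2) ≤ (o0 + o1 + o2) *
          ((2 * (e0 + e1 + e2 + (o0 + o1 + o2)) * w - w ^ 2) / 3) := by linarith
        exact le_of_mul_le_mul_left h' ho
      · right; left
        have k : 0 ≤ ((o0 + o1 + o2) - 3 * w) * (-c) := mul_nonneg (by linarith) (by linarith)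
        have h' : (o0 + o1 + o2) * (2 * (N0 + N1 + N2) + c) ≤ (o0 + o1 + o2) *
          (2 * ((2 * (e0 + e1 + e2 + (o0 + o1 + o2)) * w - w ^ 2) / 3)) := by linarith
        exact le_of_mul_le_mul_left h' ho
  push Not at hZ
  by_cases hA : (19/12 * w + (o0 + o1 + o2) ≤ 2/3 * (e0 + e1 + e2 + (o0 + o1 + o2)) ∧
      (e0 + e1 + e2 + (o0 + o1 + o2)) * w / 3 - w * (o0 + o1 + o2) / 2 - 5/12 * w ^ 2
        - (e0 + e1 + e2 + (o0 + o1 + o2)) * (o0 + o1 + o2) / 6 + (o0 + o1 + o2) ^ 2 / 3 ≤ 0)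
  · rcases MA e0 e1 e2 o0 o1 o2 w N0 N1 N2 he0 he1 he2 ho0 ho1 ho2 hw h0 h1 h2 hA.1 hZ.le hA.2 with h | h
    · left; exact h
    · right; left; exact h
  right; right
  have hr := region (e0 + e1 + e2) (o0 + o1 + o2) w he ho hw hwb hT hP hZ hA
  have hoe : o0 + o1 + o2 < e0 + e1 + e2 := by
    rcases hr with ⟨a1, a2, a3⟩ | ⟨a1, a2, a3⟩
    · linarith
    · exact a2
  refine ⟨hZ, ?_, hT, hP, hr⟩
  · by_contra hc
    push Not at hc
    have k1 : (e0 + e1 + e2 + (o0 + o1 + o2) - w) ^ 2 ≤ (o0 + o1 + o2) ^ 2 := by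
      apply pow_le_pow_left₀ (by linarith) (by linarith)
    have k2 : 0 ≤ (o0 + o1 + o2) * ((e0 + e1 + e2) - (o0 + o1 + o2)) :=
      mul_nonneg ho.le (by linarith)
    nlinarith

/-- from the Lagrangian inequality to the options -/
lemma lag (o w e Y X S : ℝ) (ho : 0 < o) (hw3 : o ≤ 3 * w)
    (h : o * Y + 3/2 * w * (S + 2 * X) ≤ o * w * (5/3 * e + 5/3 * w - 3/4 * o)) :
    2 * (Y + X) + (S + o ^ 2 / 2 - 2/3 * e * o) ≤ 2 * ((2 * (e + o) * w - w ^ 2) / 3) ∨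
    2 * X + (S + o ^ 2 / 2 - 2/3 * e * o) ≤ 2 * (2/3 * o * w) := by
  by_contra hc
  push Not at hc
  obtain ⟨h1, h2⟩ := hc
  have k1 : 0 < o * (2 * (Y + X) + (S + o ^ 2 / 2 - 2/3 * e * o) - 2 * ((2 * (e + o) * w - w ^ 2) / 3)) :=
    mul_pos ho (by linarith)
  have k2 : 0 ≤ (3 * w - o) * (2 * X + (S + o ^ 2 / 2 - 2/3 * e * o) - 2 * (2/3 * o * w)) :=
    mul_nonneg (by linarith) (by linarith)
  nlinarith

end Pool.Agent.M4074R
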