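import Mathlib
import Pool.Prelude.Def_F_d9c4f0db

set_option autoImplicit false

open Ne16c1d3e Ne16c1d3e.Ne9f539be Filter

namespace Pool.Agent.M4074H

/-- number of pairs `(x, y) ∈ X × Y` with `2 x + y ∈ W` -/
def NN (X Y W : Finset ℤ) : ℕ := ((X ×ˢ Y).filter (fun p => 2 * p.1 + p.2 ∈ W)).card

/-- `3 • B` -/
def tr (B : Finset ℤ) : Finset ℤ := B.image (fun x => 3 * x)

lemma NN_le_of_inj (X Y W X' Y' W' : Finset ℤ) (f g : ℤ → ℤ)
    (hf : ∀ x ∈ X, ∀ x' ∈ X, f x = f x' → x = x') (hg : ∀ y ∈ Y, ∀ y' ∈ Y, g y = g y' → y = y')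
    (h : ∀ x ∈ X, ∀ y ∈ Y, 2 * x + y ∈ W → f x ∈ X' ∧ g y ∈ Y' ∧ 2 * f x + g y ∈ W') :
    NN X Y W ≤ NN X' Y' W' := by
  unfold NN
  apply Finset.card_le_card_of_injOn (fun p : ℤ × ℤ => (f p.1, g p.2))
  · rintro ⟨x, y⟩ hh
    simp only [Finset.coe_filter, Finset.mem_product, Set.mem_ofPred_eq] at hh ⊢
    obtain ⟨h1, h2, h3⟩ := h x hh.1.1 y hh.1.2 hh.2
    exact ⟨⟨h1, h2⟩, h3⟩
  · rintro ⟨x, y⟩ hh ⟨x', y'⟩ hh' heq
    simp only [Finset.coe_filter, Finset.mem_product, Set.mem_ofPred_eq] at hh hh'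
    simp only [Prod.mk.injEq] at heq ⊢
    exact ⟨hf x hh.1.1 x' hh'.1.1 heq.1, hg y hh.1.2 y' hh'.1.2 heq.2⟩

lemma NN_mono (X Y W X' Y' W' : Finset ℤ)
    (h : ∀ x ∈ X, ∀ y ∈ Y, 2 * x + y ∈ W → x ∈ X' ∧ y ∈ Y' ∧ 2 * x + y ∈ W') :
    NN X Y W ≤ NN X' Y' W' :=
  NN_le_of_inj X Y W X' Y' W' id id (fun _ _ _ _ h => h) (fun _ _ _ _ h => h) h

lemma NN_le_add (X Y W X1 Y1 W1 X2 Y2 W2 : Finset ℤ)
    (h : ∀ x ∈ X, ∀ y ∈ Y, 2 * x + y ∈ W → (x ∈ X1 ∧ y ∈ Y1 ∧ 2 * x + y ∈ W1) ∨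
      (x ∈ X2 ∧ y ∈ Y2 ∧ 2 * x + y ∈ W2)) :
    NN X Y W ≤ NN X1 Y1 W1 + NN X2 Y2 W2 := by
  unfold NN
  refine le_trans (Finset.card_le_card (t := ((X1 ×ˢ Y1).filter (fun p => 2 * p.1 + p.2 ∈ W1)) ∪
    ((X2 ×ˢ Y2).filter (fun p => 2 * p.1 + p.2 ∈ W2))) ?_) (Finset.card_union_le _ _)
  rintro ⟨x, y⟩ hh
  simp only [Finset.mem_filter, Finset.mem_product, Finset.mem_union] at hh ⊢
  rcases h x hh.1.1 y hh.1.2 hh.2 with h1 | h1
  · left; exact ⟨⟨h1.1, h1.2.1⟩, h1.2.2⟩
  · right; exact ⟨⟨h1.1, h1.2.1⟩, h1.2.2⟩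

lemma NN_xy (X Y W : Finset ℤ) : NN X Y W ≤ X.card * Y.card := by
  unfold NN
  refine le_trans (Finset.card_filter_le _ _) ?_
  rw [Finset.card_product]

lemma NN_xw (X Y W : Finset ℤ) : NN X Y W ≤ X.card * W.card := by
  rw [← Finset.card_product]
  unfold NN
  apply Finset.card_le_card_of_injOn (fun p : ℤ × ℤ => (p.1, 2 * p.1 + p.2))
  · rintro ⟨x, y⟩ hh
    simp only [Finset.coe_filter, Finset.mem_product, Set.mem_ofPred_eq, Finset.coe_product,
      Set.mem_prod, Finset.mem_coe] at hh ⊢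
    exact ⟨hh.1.1, hh.2⟩
  · rintro ⟨x, y⟩ _ ⟨x', y'⟩ _ heq
    simp only [Prod.mk.injEq] at heq ⊢
    omega

lemma NN_yw (X Y W : Finset ℤ) : NN X Y W ≤ Y.card * W.card := by
  rw [← Finset.card_product]
  unfold NN
  apply Finset.card_le_card_of_injOn (fun p : ℤ × ℤ => (p.2, 2 * p.1 + p.2))
  · rintro ⟨x, y⟩ hh
    simp only [Finset.coe_filter, Finset.mem_product, Set.mem_ofPred_eq, Finset.coe_product,
      Set.mem_prod, Finset.mem_coe] at hh ⊢
    exact ⟨hh.1.2, hh.2⟩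
  · rintro ⟨x, y⟩ _ ⟨x', y'⟩ _ heq
    simp only [Prod.mk.injEq] at heq ⊢
    omega

/-- the target function -/
noncomputable def eta (b w : ℝ) : ℝ := (b ^ 2 - (max (b - w) 0) ^ 2) / 3

/-- the error term -/
noncomputable def err (C D : ℝ) (b : ℕ) : ℝ := if b = 0 then 0 else C * b - D

/-- the hypothesis `H` -/
def HH (C D : ℝ) (B W : Finset ℤ) : Prop :=
  (NN B B (tr B) : ℝ) + 2 * (NN B B W : ℝ) ≤
    (B.card : ℝ) ^ 2 / 3 + 2 * eta B.card W.card + err C D B.card

def cls (W : Finset ℤ) : Prop := (∀ w ∈ W, w % 3 = 1) ∨ (∀ w ∈ W, w % 3 = 2)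

/-- induction predicate -/
def PP (C D : ℝ) (d : ℕ) : Prop := ∀ (a : ℤ) (B W : Finset ℤ), (∀ x ∈ B, a ≤ x ∧ x ≤ a + d) →
  cls W → HH C D B W

/-- class `i` modulo `m` -/
def cm (m i : ℤ) (B : Finset ℤ) : Finset ℤ := B.filter (fun x => x % m = i)

/-- rescaled class -/
def rs (m i : ℤ) (B : Finset ℤ) : Finset ℤ := (cm m i B).image (fun x => (x - i) / m)

lemma mem_cm (m i : ℤ) (B : Finset ℤ) (x : ℤ) : x ∈ cm m i B ↔ x ∈ B ∧ x % m = i := by
  simp [cm]

lemma card_rs (m i : ℤ) (hm : 0 < m) (B : Finset ℤ) : (rs m i B).card = (cm m i B).card := by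
  unfold rs
  apply Finset.card_image_of_injOn
  intro x hx y hy h
  simp only [Finset.mem_coe, mem_cm] at hx hy
  simp only at h
  have h1 := Int.emod_add_mul_ediv x m
  have h2 := Int.emod_add_mul_ediv y m
  rw [hx.2] at h1
  rw [hy.2] at h2
  have e1 : (x - i) / m = x / m := by
    rw [← h1]
    have : i + m * (x / m) - i = m * (x / m) := by ring
    rw [this, Int.mul_ediv_cancel_left _ (ne_of_gt hm)]
    rw [h1]
  have e2 : (y - i) / m = y / m := by
    rw [← h2]
    have : i + m * (y / m) - i = m * (y / m) := by ring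
    rw [this, Int.mul_ediv_cancel_left _ (ne_of_gt hm)]
    rw [h2]
  rw [e1, e2] at h
  rw [← h1, ← h2, h]

lemma eta_nonneg (b w : ℝ) (hb : 0 ≤ b) (hw : 0 ≤ w) : 0 ≤ eta b w := by
  unfold eta
  rcases le_total (b - w) 0 with h | h
  · rw [max_eq_right h]; nlinarith [sq_nonneg b]
  · rw [max_eq_left h]; nlinarith

lemma eta_mono (b w w' : ℝ) (h : w ≤ w') : eta b w ≤ eta b w' := by
  unfold eta
  have h1 : max (b - w') 0 ≤ max (b - w) 0 := max_le_max (by linarith) le_rfl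
  have h2 : 0 ≤ max (b - w') 0 := le_max_right _ _
  nlinarith

lemma eta_zero (b : ℝ) (hb : 0 ≤ b) : eta b 0 = 0 := by
  unfold eta
  rw [sub_zero, max_eq_left hb]; ring

/-- the exact identity behind the summation -/
lemma eta_symm (a b : ℝ) : eta a b + eta b a = 2 * a * b / 3 := by
  unfold eta
  rcases le_total a b with h | h
  · rw [max_eq_right (by linarith : a - b ≤ 0), max_eq_left (by linarith : 0 ≤ b - a)]; ring
  · rw [max_eq_left (by linarith : 0 ≤ a - b), max_eq_right (by linarith : b - a ≤ 0)]; ring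

lemma H_T (C D : ℝ) (B : Finset ℤ) (h : HH C D B ∅) :
    (NN B B (tr B) : ℝ) ≤ (B.card : ℝ) ^ 2 / 3 + err C D B.card := by
  unfold HH at h
  rw [Finset.card_empty, Nat.cast_zero, eta_zero _ (by positivity)] at h
  have : (0:ℝ) ≤ (NN B B ∅ : ℝ) := by positivity
  linarith

lemma cls_empty : cls ∅ := Or.inl (by simp)

lemma card_cm3 (A : Finset ℤ) : A.card = (cm 3 0 A).card + (cm 3 1 A).card + (cm 3 2 A).card := by
  rw [Finset.card_eq_sum_ones]
  simp only [cm, Finset.card_filter, ← Finset.sum_add_distrib]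
  refine Finset.sum_congr rfl fun x _ => ?_
  split_ifs <;> omega

lemma card_cm2 (A : Finset ℤ) : A.card = (cm 2 0 A).card + (cm 2 1 A).card := by
  rw [Finset.card_eq_sum_ones]
  simp only [cm, Finset.card_filter, ← Finset.sum_add_distrib]
  refine Finset.sum_congr rfl fun x _ => ?_
  split_ifs <;> omega

/-- one class of the 3-split -/
lemma T3_class (A : Finset ℤ) (i j k : ℤ)
    (h : (i = 0 ∧ j = 1 ∧ k = 2) ∨ (i = 1 ∧ j = 2 ∧ k = 0) ∨ (i = 2 ∧ j = 0 ∧ k = 1)) :
    NN (cm 3 i A) (cm 3 i A) (tr A) ≤ NN (rs 3 i A) (rs 3 i A) (tr (rs 3 i A)) +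
      (NN (rs 3 i A) (rs 3 i A) ((cm 3 j A).image (fun x => x - i)) +
       NN (rs 3 i A) (rs 3 i A) ((cm 3 k A).image (fun x => x - i))) := by
  have h0 : NN (cm 3 i A) (cm 3 i A) (tr A) ≤
      NN (rs 3 i A) (rs 3 i A) (A.image (fun x => x - i)) := by
    apply NN_le_of_inj _ _ _ _ _ _ (fun x => (x - i) / 3) (fun x => (x - i) / 3)
    · intro x hx x' hx' he
      rw [mem_cm] at hx hx'
      omega
    · intro x hx x' hx' he
      rw [mem_cm] at hx hx'
      omega
    · intro x hx y hy hz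
      refine ⟨Finset.mem_image_of_mem _ hx, Finset.mem_image_of_mem _ hy, ?_⟩
      rw [mem_cm] at hx hy
      simp only [tr, Finset.mem_image] at hz ⊢
      obtain ⟨z, hz, hz'⟩ := hz
      exact ⟨z, hz, by omega⟩
  refine le_trans h0 ?_
  refine le_trans (NN_le_add _ _ _ (rs 3 i A) (rs 3 i A) (tr (rs 3 i A)) (rs 3 i A) (rs 3 i A)
    ((cm 3 j A).image (fun x => x - i) ∪ (cm 3 k A).image (fun x => x - i)) ?_) ?_
  · intro x hx y hy hz
    rw [Finset.mem_image] at hz
    obtain ⟨z, hz, hz'⟩ := hz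
    by_cases hzi : z % 3 = i
    · left
      refine ⟨hx, hy, ?_⟩
      simp only [tr, rs, Finset.mem_image, mem_cm]
      exact ⟨(z - i) / 3, ⟨z, ⟨hz, hzi⟩, rfl⟩, by omega⟩
    · right
      refine ⟨hx, hy, ?_⟩
      simp only [Finset.mem_union, Finset.mem_image, mem_cm]
      by_cases hzj : z % 3 = j
      · left; exact ⟨z, ⟨hz, hzj⟩, hz'⟩
      · right; exact ⟨z, ⟨hz, by omega⟩, hz'⟩
  · refine Nat.add_le_add_left ?_ _
    apply NN_le_add
    intro x hx y hy hz
    rw [Finset.mem_union] at hz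
    rcases hz with hz | hz
    · left; exact ⟨hx, hy, hz⟩
    · right; exact ⟨hx, hy, hz⟩

lemma T3_split (A : Finset ℤ) : NN A A (tr A) ≤ NN (cm 3 0 A) (cm 3 0 A) (tr A) +
    (NN (cm 3 1 A) (cm 3 1 A) (tr A) + NN (cm 3 2 A) (cm 3 2 A) (tr A)) := by
  have h1 : NN A A (tr A) ≤ NN (cm 3 0 A) (cm 3 0 A) (tr A) +
      NN (A.filter (fun x => x % 3 ≠ 0)) (A.filter (fun x => x % 3 ≠ 0)) (tr A) := by
    apply NN_le_add
    intro x hx y hy hz
    have hz2 := hz
    simp only [tr, Finset.mem_image] at hz2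
    obtain ⟨z, hzA, hz'⟩ := hz2
    simp only [mem_cm, Finset.mem_filter, hx, hy, hz, true_and, and_true]
    omega
  have h2 : NN (A.filter (fun x => x % 3 ≠ 0)) (A.filter (fun x => x % 3 ≠ 0)) (tr A) ≤
      NN (cm 3 1 A) (cm 3 1 A) (tr A) + NN (cm 3 2 A) (cm 3 2 A) (tr A) := by
    apply NN_le_add
    intro x hx y hy hz
    have hz2 := hz
    simp only [tr, Finset.mem_image] at hz2
    obtain ⟨z, hzA, hz'⟩ := hz2
    simp only [Finset.mem_filter] at hx hy
    simp only [mem_cm, hx.1, hy.1, hz, true_and, and_true]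
    omega
  omega

/-- the `T` bound from the classes modulo 3 -/
lemma T_from_classes (C D : ℝ) (A : Finset ℤ)
    (h : ∀ i : ℤ, (i = 0 ∨ i = 1 ∨ i = 2) → ∀ W, cls W → HH C D (rs 3 i A) W) :
    (NN A A (tr A) : ℝ) ≤ (A.card : ℝ) ^ 2 / 3 + (err C D (cm 3 0 A).card +
      err C D (cm 3 1 A).card + err C D (cm 3 2 A).card) := by
  have s := T3_split A
  have c0 := T3_class A 0 1 2 (by omega)
  have c1 := T3_class A 1 2 0 (by omega)
  have c2 := T3_class A 2 0 1 (by omega)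
  have hcard := card_cm3 A
  have cimg : ∀ (i k : ℤ), ((cm 3 k A).image (fun x => x - i)).card = (cm 3 k A).card := by
    intro i k
    exact Finset.card_image_of_injective _ (fun x y h => by simpa using h)
  have hcls : ∀ (i k : ℤ), (i = 0 ∨ i = 1 ∨ i = 2) → (k = 0 ∨ k = 1 ∨ k = 2) → i ≠ k →
      cls ((cm 3 k A).image (fun x => x - i)) := by
    intro i k hi hk hik
    have : (k - i) % 3 = 1 ∨ (k - i) % 3 = 2 := by omega
    rcases this with h' | h'
    · left
      intro w hw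
      rw [Finset.mem_image] at hw
      obtain ⟨x, hx, rfl⟩ := hw
      rw [mem_cm] at hx
      omega
    · right
      intro w hw
      rw [Finset.mem_image] at hw
      obtain ⟨x, hx, rfl⟩ := hw
      rw [mem_cm] at hx
      omega
  have H01 := h 0 (by omega) _ (hcls 0 1 (by omega) (by omega) (by omega))
  have H02 := h 0 (by omega) _ (hcls 0 2 (by omega) (by omega) (by omega))
  have H12 := h 1 (by omega) _ (hcls 1 2 (by omega) (by omega) (by omega))
  have H10 := h 1 (by omega) _ (hcls 1 0 (by omega) (by omega) (by omega))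
  have H20 := h 2 (by omega) _ (hcls 2 0 (by omega) (by omega) (by omega))
  have H21 := h 2 (by omega) _ (hcls 2 1 (by omega) (by omega) (by omega))
  unfold HH at H01 H02 H12 H10 H20 H21
  rw [cimg, card_rs 3 _ (by norm_num)] at H01 H02 H12 H10 H20 H21
  have e01 := eta_symm ((cm 3 0 A).card : ℝ) ((cm 3 1 A).card : ℝ)
  have e12 := eta_symm ((cm 3 1 A).card : ℝ) ((cm 3 2 A).card : ℝ)
  have e20 := eta_symm ((cm 3 2 A).card : ℝ) ((cm 3 0 A).card : ℝ)
  have s' : (NN A A (tr A) : ℝ) ≤ NN (cm 3 0 A) (cm 3 0 A) (tr A) +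
    (NN (cm 3 1 A) (cm 3 1 A) (tr A) + NN (cm 3 2 A) (cm 3 2 A) (tr A)) := by exact_mod_cast s
  have c0' : (NN (cm 3 0 A) (cm 3 0 A) (tr A) : ℝ) ≤ NN (rs 3 0 A) (rs 3 0 A) (tr (rs 3 0 A)) +
      (NN (rs 3 0 A) (rs 3 0 A) (Finset.image (fun x => x - 0) (cm 3 1 A)) +
        NN (rs 3 0 A) (rs 3 0 A) (Finset.image (fun x => x - 0) (cm 3 2 A))) := by exact_mod_cast c0
  have c1' : (NN (cm 3 1 A) (cm 3 1 A) (tr A) : ℝ) ≤ NN (rs 3 1 A) (rs 3 1 A) (tr (rs 3 1 A)) +
      (NN (rs 3 1 A) (rs 3 1 A) (Finset.image (fun x => x - 1) (cm 3 2 A)) +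
        NN (rs 3 1 A) (rs 3 1 A) (Finset.image (fun x => x - 1) (cm 3 0 A))) := by exact_mod_cast c1
  have c2' : (NN (cm 3 2 A) (cm 3 2 A) (tr A) : ℝ) ≤ NN (rs 3 2 A) (rs 3 2 A) (tr (rs 3 2 A)) +
      (NN (rs 3 2 A) (rs 3 2 A) (Finset.image (fun x => x - 2) (cm 3 0 A)) +
        NN (rs 3 2 A) (rs 3 2 A) (Finset.image (fun x => x - 2) (cm 3 1 A))) := by exact_mod_cast c2
  have hc : (A.card : ℝ) = (cm 3 0 A).card + (cm 3 1 A).card + (cm 3 2 A).card := by
    exact_mod_cast hcard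
  rw [hc]
  linarith



/-- cross count for the parity split of `T` -/
def C2 (B : Finset ℤ) : ℕ := NN (cm 2 1 B) (cm 2 0 B) (tr B) + NN (cm 2 0 B) (cm 2 1 B) (tr B)

/-- cross count for the parity split of `N` -/
def XX (B W : Finset ℤ) : ℕ := NN (cm 2 1 B) (cm 2 0 B) W + NN (cm 2 0 B) (cm 2 1 B) W

/-- rescaled parity classes of `W` -/
def W0 (W : Finset ℤ) : Finset ℤ := (cm 2 0 W).image (fun w => w / 2)
def W1 (W : Finset ℤ) : Finset ℤ := (cm 2 1 W).image (fun w => (w - 3) / 2)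

lemma card_W0 (W : Finset ℤ) : (W0 W).card = (cm 2 0 W).card := by
  unfold W0
  apply Finset.card_image_of_injOn
  intro x hx y hy h
  simp only [Finset.mem_coe, mem_cm] at hx hy
  simp only at h
  omega

lemma card_W1 (W : Finset ℤ) : (W1 W).card = (cm 2 1 W).card := by
  unfold W1
  apply Finset.card_image_of_injOn
  intro x hx y hy h
  simp only [Finset.mem_coe, mem_cm] at hx hy
  simp only at h
  omega

lemma cls_W0 (W : Finset ℤ) (hW : ∀ w ∈ W, w % 3 = 1) : cls (W0 W) := by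
  right
  intro w hw
  rw [W0, Finset.mem_image] at hw
  obtain ⟨x, hx, rfl⟩ := hw
  rw [mem_cm] at hx
  have := hW x hx.1
  omega

lemma cls_W1 (W : Finset ℤ) (hW : ∀ w ∈ W, w % 3 = 1) : cls (W1 W) := by
  right
  intro w hw
  rw [W1, Finset.mem_image] at hw
  obtain ⟨x, hx, rfl⟩ := hw
  rw [mem_cm] at hx
  have := hW x hx.1
  omega

lemma NN_four (B W : Finset ℤ) : NN B B W ≤ NN (cm 2 0 B) (cm 2 0 B) W +
    (NN (cm 2 1 B) (cm 2 1 B) W + XX B W) := by
  have h1 : NN B B W ≤ NN (cm 2 0 B) B W + NN (cm 2 1 B) B W := by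
    apply NN_le_add
    intro x hx y hy hz
    simp only [mem_cm, hx, hy, hz, true_and, and_true]
    omega
  have h2 : NN (cm 2 0 B) B W ≤ NN (cm 2 0 B) (cm 2 0 B) W + NN (cm 2 0 B) (cm 2 1 B) W := by
    apply NN_le_add
    intro x hx y hy hz
    simp only [mem_cm] at hx ⊢
    simp only [hx.1, hx.2, hy, hz, true_and, and_true]
    omega
  have h3 : NN (cm 2 1 B) B W ≤ NN (cm 2 1 B) (cm 2 0 B) W + NN (cm 2 1 B) (cm 2 1 B) W := by
    apply NN_le_add
    intro x hx y hy hz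
    simp only [mem_cm] at hx ⊢
    simp only [hx.1, hx.2, hy, hz, true_and, and_true]
    omega
  unfold XX
  omega

lemma NN_half_T (B : Finset ℤ) (i : ℤ) :
    NN (cm 2 i B) (cm 2 i B) (tr B) ≤ NN (rs 2 i B) (rs 2 i B) (tr (rs 2 i B)) := by
  apply NN_le_of_inj _ _ _ _ _ _ (fun x => (x - i) / 2) (fun x => (x - i) / 2)
  · intro x hx x' hx' he
    rw [mem_cm] at hx hx'
    omega
  · intro x hx x' hx' he
    rw [mem_cm] at hx hx'
    omega
  · intro x hx y hy hz
    refine ⟨Finset.mem_image_of_mem _ hx, Finset.mem_image_of_mem _ hy, ?_⟩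
    rw [mem_cm] at hx hy
    simp only [tr, Finset.mem_image, rs, mem_cm] at hz ⊢
    obtain ⟨z, hz, hz'⟩ := hz
    exact ⟨(z - i) / 2, ⟨z, ⟨hz, by omega⟩, rfl⟩, by omega⟩

lemma NN_half_W0 (B W : Finset ℤ) :
    NN (cm 2 0 B) (cm 2 0 B) W ≤ NN (rs 2 0 B) (rs 2 0 B) (W0 W) := by
  apply NN_le_of_inj _ _ _ _ _ _ (fun x => (x - 0) / 2) (fun x => (x - 0) / 2)
  · intro x hx x' hx' he
    rw [mem_cm] at hx hx'
    omega
  · intro x hx x' hx' he
    rw [mem_cm] at hx hx'
    omega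
  · intro x hx y hy hz
    refine ⟨Finset.mem_image_of_mem _ hx, Finset.mem_image_of_mem _ hy, ?_⟩
    rw [mem_cm] at hx hy
    simp only [W0, Finset.mem_image, mem_cm]
    exact ⟨2 * x + y, ⟨hz, by omega⟩, by omega⟩

lemma NN_half_W1 (B W : Finset ℤ) :
    NN (cm 2 1 B) (cm 2 1 B) W ≤ NN (rs 2 1 B) (rs 2 1 B) (W1 W) := by
  apply NN_le_of_inj _ _ _ _ _ _ (fun x => (x - 1) / 2) (fun x => (x - 1) / 2)
  · intro x hx x' hx' he
    rw [mem_cm] at hx hx'
    omega
  · intro x hx x' hx' he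
    rw [mem_cm] at hx hx'
    omega
  · intro x hx y hy hz
    refine ⟨Finset.mem_image_of_mem _ hx, Finset.mem_image_of_mem _ hy, ?_⟩
    rw [mem_cm] at hx hy
    simp only [W1, Finset.mem_image, mem_cm]
    exact ⟨2 * x + y, ⟨hz, by omega⟩, by omega⟩

lemma rs3_range (B : Finset ℤ) (a : ℤ) (d : ℕ) (i : ℤ)
    (h : ∀ x ∈ B, a ≤ x ∧ x ≤ a + d) :
    ∀ x ∈ rs 3 i B, (a - i + 2) / 3 ≤ x ∧ x ≤ (a - i + 2) / 3 + ((d / 3 : ℕ) : ℤ) := by
  intro x hx
  rw [rs, Finset.mem_image] at hx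
  obtain ⟨y, hy, rfl⟩ := hx
  rw [mem_cm] at hy
  have := h y hy.1
  omega

lemma rs2_range (B : Finset ℤ) (a : ℤ) (d : ℕ) (i : ℤ)
    (h : ∀ x ∈ B, a ≤ x ∧ x ≤ a + d) :
    ∀ x ∈ rs 2 i B, (a - i + 1) / 2 ≤ x ∧ x ≤ (a - i + 1) / 2 + ((d / 2 : ℕ) : ℤ) := by
  intro x hx
  rw [rs, Finset.mem_image] at hx
  obtain ⟨y, hy, rfl⟩ := hx
  rw [mem_cm] at hy
  have := h y hy.1
  omega

/-- the three options -/
def Opts (D : ℝ) (B W : Finset ℤ) : Prop :=
  ((NN B B W : ℝ) ≤ eta B.card W.card + D / 2) ∨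
  ((C2 B : ℝ) + 2 * NN B B W ≤ 2 / 3 * (cm 2 0 B).card * (cm 2 1 B).card + 2 * eta B.card W.card + D) ∨
  ((C2 B : ℝ) + 2 * XX B W ≤ 2 / 3 * (cm 2 0 B).card * (cm 2 1 B).card +
    2 * (eta B.card W.card - eta (cm 2 0 B).card (cm 2 0 W).card
      - eta (cm 2 1 B).card (cm 2 1 W).card) + D)

lemma NN_zero_one_class (B W : Finset ℤ) (hW : ∀ w ∈ W, w % 3 = 1)
    (h : (cm 3 0 B).card + (cm 3 1 B).card = 0 ∨ (cm 3 1 B).card + (cm 3 2 B).card = 0 ∨
      (cm 3 0 B).card + (cm 3 2 B).card = 0) : NN B B W = 0 := by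
  unfold NN
  rw [Finset.card_eq_zero, Finset.filter_eq_empty_iff]
  rintro ⟨x, y⟩ hxy hc
  rw [Finset.mem_product] at hxy
  have hw := hW _ hc
  simp only at hw hxy
  have key : ∀ i : ℤ, (cm 3 i B).card = 0 → ∀ z ∈ B, z % 3 ≠ i := by
    intro i hi z hz hzi
    rw [Finset.card_eq_zero] at hi
    have : z ∈ cm 3 i B := (mem_cm _ _ _ _).mpr ⟨hz, hzi⟩
    rw [hi] at this
    simp at this
  rcases h with h | h | h
  · have h1 := key 0 (by omega) x hxy.1
    have h2 := key 1 (by omega) x hxy.1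
    have h3 := key 0 (by omega) y hxy.2
    have h4 := key 1 (by omega) y hxy.2
    omega
  · have h1 := key 1 (by omega) x hxy.1
    have h2 := key 2 (by omega) x hxy.1
    have h3 := key 1 (by omega) y hxy.2
    have h4 := key 2 (by omega) y hxy.2
    omega
  · have h1 := key 0 (by omega) x hxy.1
    have h2 := key 2 (by omega) x hxy.1
    have h3 := key 0 (by omega) y hxy.2
    have h4 := key 2 (by omega) y hxy.2
    omega

lemma err_le (C D : ℝ) (hD : 0 ≤ D) (b : ℕ) : err C D b ≤ C * b := by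
  unfold err
  split_ifs with h
  · rw [h]; simp
  · linarith

lemma err_pos (C D : ℝ) (b : ℕ) (hb : 0 < b) : err C D b = C * b - D := by
  unfold err
  rw [if_neg (by omega)]

/-- data valid for sets `B` in a window of length `d`, `W` of class `1` -/
lemma step1 (C D : ℝ) (hD : 0 ≤ D)
    (d : ℕ) (hd : 0 < d) (IH : ∀ d' < d, PP C D d') (a : ℤ) (B W : Finset ℤ)
    (hB : ∀ x ∈ B, a ≤ x ∧ x ≤ a + d) (hW : ∀ w ∈ W, w % 3 = 1)
    (crux : 0 < (cm 2 1 B).card → 0 < (cm 2 0 B).card ∧ Opts D B W) : HH C D B W := by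
  have hb2 := card_cm2 B
  have hw2 := card_cm2 W
  have hb3 := card_cm3 B
  have t4 := NN_four B (tr B)
  have n4 := NN_four B W
  have hT0 := NN_half_T B 0
  have hT1 := NN_half_T B 1
  have hw0 := NN_half_W0 B W
  have hw1 := NN_half_W1 B W
  have P2 := IH (d / 2) (by omega)
  have P3 := IH (d / 3) (by omega)
  have r20 := rs2_range B a d 0 hB
  have r21 := rs2_range B a d 1 hB
  have H0 := P2 _ _ _ r20 (cls_W0 W hW)
  have H1 := P2 _ _ _ r21 (cls_W1 W hW)
  have T0 := H_T C D _ (P2 _ _ _ r20 cls_empty)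
  have T1 := H_T C D _ (P2 _ _ _ r21 cls_empty)
  have TT := T_from_classes C D B (fun i _ W' hW' => P3 _ _ _ (rs3_range B a d i hB) hW')
  unfold HH at H0 H1 ⊢
  rw [card_rs 2 _ (by norm_num), card_W0] at H0
  rw [card_rs 2 _ (by norm_num), card_W1] at H1
  rw [card_rs 2 _ (by norm_num)] at T0 T1
  have t4' : (NN B B (tr B) : ℝ) ≤ NN (cm 2 0 B) (cm 2 0 B) (tr B) +
    (NN (cm 2 1 B) (cm 2 1 B) (tr B) + C2 B) := by
    have : XX B (tr B) = C2 B := rfl
    rw [← this]
    exact_mod_cast t4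
  have n4' : (NN B B W : ℝ) ≤ NN (cm 2 0 B) (cm 2 0 B) W +
    (NN (cm 2 1 B) (cm 2 1 B) W + XX B W) := by exact_mod_cast n4
  have hT0' : (NN (cm 2 0 B) (cm 2 0 B) (tr B) : ℝ) ≤ NN (rs 2 0 B) (rs 2 0 B) (tr (rs 2 0 B)) := by
    exact_mod_cast hT0
  have hT1' : (NN (cm 2 1 B) (cm 2 1 B) (tr B) : ℝ) ≤ NN (rs 2 1 B) (rs 2 1 B) (tr (rs 2 1 B)) := by
    exact_mod_cast hT1
  have hw0' : (NN (cm 2 0 B) (cm 2 0 B) W : ℝ) ≤ NN (rs 2 0 B) (rs 2 0 B) (W0 W) := by
    exact_mod_cast hw0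
  have hw1' : (NN (cm 2 1 B) (cm 2 1 B) W : ℝ) ≤ NN (rs 2 1 B) (rs 2 1 B) (W1 W) := by
    exact_mod_cast hw1
  have hb2' : (B.card : ℝ) = (cm 2 0 B).card + (cm 2 1 B).card := by exact_mod_cast hb2
  have hw2' : (W.card : ℝ) = (cm 2 0 W).card + (cm 2 1 W).card := by exact_mod_cast hw2
  have hb3' : (B.card : ℝ) = (cm 3 0 B).card + (cm 3 1 B).card + (cm 3 2 B).card := by
    exact_mod_cast hb3
  rcases Nat.eq_zero_or_pos (cm 2 1 B).card with ho | ho
  · -- only one parity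
    have hO : cm 2 1 B = ∅ := Finset.card_eq_zero.mp ho
    have hC2 : C2 B = 0 := by
      unfold C2 NN
      rw [hO]; simp
    have hXX : XX B W = 0 := by
      unfold XX NN
      rw [hO]; simp
    have e0 : NN (cm 2 1 B) (cm 2 1 B) (tr B) = 0 := by
      unfold NN; rw [hO]; simp
    have e1 : NN (cm 2 1 B) (cm 2 1 B) W = 0 := by
      unfold NN; rw [hO]; simp
    rw [hC2, e0] at t4'
    rw [hXX, e1] at n4'
    have hbe : (B.card : ℝ) = (cm 2 0 B).card := by
      rw [hb2', ho, Nat.cast_zero, add_zero]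
    have hbe' : B.card = (cm 2 0 B).card := by omega
    have hm : eta (B.card : ℝ) ((cm 2 0 W).card : ℝ) ≤ eta (B.card : ℝ) (W.card : ℝ) := by
      apply eta_mono
      rw [hw2']
      have : (0:ℝ) ≤ (cm 2 1 W).card := Nat.cast_nonneg _
      linarith
    rw [← hbe'] at H0
    push_cast at t4' n4'
    linarith
  · have hopt := (crux ho).2
    have hbpos : 0 < B.card := by omega
    have he : 0 < (cm 2 0 B).card := (crux ho).1
    rw [err_pos C D _ hbpos]
    rw [err_pos C D _ he] at H0 T0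
    rw [err_pos C D _ ho] at H1 T1
    by_cases hone : ((cm 3 0 B).card + (cm 3 1 B).card = 0 ∨ (cm 3 1 B).card + (cm 3 2 B).card = 0 ∨
      (cm 3 0 B).card + (cm 3 2 B).card = 0)
    · have hz := NN_zero_one_class B W hW hone
      have hne : (0:ℝ) ≤ eta (B.card : ℝ) (W.card : ℝ) :=
        eta_nonneg _ _ (by positivity) (by positivity)
      rw [hz]
      push_cast
      have herr : err C D (cm 3 0 B).card + err C D (cm 3 1 B).card + err C D (cm 3 2 B).card
          = C * B.card - D := by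
        unfold err
        rcases hone with h | h | h
        · have a1 : (cm 3 0 B).card = 0 := by omega
          have a2 : (cm 3 1 B).card = 0 := by omega
          have a3 : (cm 3 2 B).card = B.card := by omega
          rw [a1, a2, a3, if_pos rfl, if_neg (by omega)]
          ring
        · have a1 : (cm 3 1 B).card = 0 := by omega
          have a2 : (cm 3 2 B).card = 0 := by omega
          have a3 : (cm 3 0 B).card = B.card := by omega
          rw [a1, a2, a3, if_pos rfl, if_neg (by omega)]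
          ring
        · have a1 : (cm 3 0 B).card = 0 := by omega
          have a2 : (cm 3 2 B).card = 0 := by omega
          have a3 : (cm 3 1 B).card = B.card := by omega
          rw [a1, a2, a3, if_pos rfl, if_neg (by omega)]
          ring
      linarith
    · have herr : err C D (cm 3 0 B).card + err C D (cm 3 1 B).card + err C D (cm 3 2 B).card
          ≤ C * B.card - 2 * D := by
        rw [hb3']
        by_cases h0 : (cm 3 0 B).card = 0
        · have h0' : ((cm 3 0 B).card : ℝ) = 0 := by exact_mod_cast h0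
          rw [h0', err_pos C D _ (by omega : 0 < (cm 3 1 B).card),
            err_pos C D _ (by omega : 0 < (cm 3 2 B).card), h0, err, if_pos rfl]
          linarith
        · rw [err_pos C D _ (by omega : 0 < (cm 3 0 B).card)]
          by_cases h1 : (cm 3 1 B).card = 0
          · have h1' : ((cm 3 1 B).card : ℝ) = 0 := by exact_mod_cast h1
            rw [h1', err_pos C D _ (by omega : 0 < (cm 3 2 B).card), h1, err, if_pos rfl]
            linarith
          · rw [err_pos C D _ (by omega : 0 < (cm 3 1 B).card)]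
            by_cases h2 : (cm 3 2 B).card = 0
            · have h2' : ((cm 3 2 B).card : ℝ) = 0 := by exact_mod_cast h2
              rw [h2', h2, err, if_pos rfl]
              linarith
            · rw [err_pos C D _ (by omega : 0 < (cm 3 2 B).card)]
              linarith
      unfold Opts at hopt
      rcases hopt with h | h | h
      · linarith
      · have e1 : (B.card : ℝ) ^ 2 / 3 = ((cm 2 0 B).card : ℝ) ^ 2 / 3 + ((cm 2 1 B).card : ℝ) ^ 2 / 3
            + 2 / 3 * (cm 2 0 B).card * (cm 2 1 B).card := by rw [hb2']; ring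
        have e2 : C * (B.card : ℝ) = C * (cm 2 0 B).card + C * (cm 2 1 B).card := by rw [hb2']; ring
        linarith
      · have e1 : (B.card : ℝ) ^ 2 / 3 = ((cm 2 0 B).card : ℝ) ^ 2 / 3 + ((cm 2 1 B).card : ℝ) ^ 2 / 3
            + 2 / 3 * (cm 2 0 B).card * (cm 2 1 B).card := by rw [hb2']; ring
        have e2 : C * (B.card : ℝ) = C * (cm 2 0 B).card + C * (cm 2 1 B).card := by rw [hb2']; ring
        linarith



/-! ### symmetries -/

lemma HH_transfer (C D : ℝ) (B W B' W' : Finset ℤ) (h : HH C D B' W')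
    (h1 : NN B B (tr B) ≤ NN B' B' (tr B')) (h2 : NN B B W ≤ NN B' B' W')
    (hb : B'.card = B.card) (hw : W'.card = W.card) : HH C D B W := by
  unfold HH at h ⊢
  rw [hb, hw] at h
  have h1' : (NN B B (tr B) : ℝ) ≤ NN B' B' (tr B') := by exact_mod_cast h1
  have h2' : (NN B B W : ℝ) ≤ NN B' B' W' := by exact_mod_cast h2
  linarith

lemma HH_neg (C D : ℝ) (B W : Finset ℤ)
    (h : HH C D (B.image (fun x => -x)) (W.image (fun x => -x))) : HH C D B W := by
  have hinj : Function.Injective (fun x : ℤ => -x) := neg_injective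
  refine HH_transfer C D B W _ _ h ?_ ?_ (Finset.card_image_of_injective _ hinj)
    (Finset.card_image_of_injective _ hinj)
  · apply NN_le_of_inj _ _ _ _ _ _ (fun x => -x) (fun x => -x)
    · intro x _ x' _ he; exact hinj he
    · intro x _ x' _ he; exact hinj he
    · intro x hx y hy hz
      refine ⟨Finset.mem_image_of_mem _ hx, Finset.mem_image_of_mem _ hy, ?_⟩
      simp only [tr, Finset.mem_image] at hz ⊢
      obtain ⟨z, hz, hz'⟩ := hz
      exact ⟨-z, ⟨z, hz, rfl⟩, by omega⟩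
  · apply NN_le_of_inj _ _ _ _ _ _ (fun x => -x) (fun x => -x)
    · intro x _ x' _ he; exact hinj he
    · intro x _ x' _ he; exact hinj he
    · intro x hx y hy hz
      refine ⟨Finset.mem_image_of_mem _ hx, Finset.mem_image_of_mem _ hy, ?_⟩
      simp only [Finset.mem_image] at hz ⊢
      exact ⟨2 * x + y, hz, by omega⟩

lemma HH_shift (C D : ℝ) (B W : Finset ℤ)
    (h : HH C D (B.image (fun x => x + 1)) (W.image (fun x => x + 3))) : HH C D B W := by
  have hinj : Function.Injective (fun x : ℤ => x + 1) := add_left_injective 1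
  have hinj3 : Function.Injective (fun x : ℤ => x + 3) := add_left_injective 3
  refine HH_transfer C D B W _ _ h ?_ ?_ (Finset.card_image_of_injective _ hinj)
    (Finset.card_image_of_injective _ hinj3)
  · apply NN_le_of_inj _ _ _ _ _ _ (fun x => x + 1) (fun x => x + 1)
    · intro x _ x' _ he; exact hinj he
    · intro x _ x' _ he; exact hinj he
    · intro x hx y hy hz
      refine ⟨Finset.mem_image_of_mem _ hx, Finset.mem_image_of_mem _ hy, ?_⟩
      simp only [tr, Finset.mem_image] at hz ⊢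
      obtain ⟨z, hz, hz'⟩ := hz
      exact ⟨z + 1, ⟨z, hz, rfl⟩, by omega⟩
  · apply NN_le_of_inj _ _ _ _ _ _ (fun x => x + 1) (fun x => x + 1)
    · intro x _ x' _ he; exact hinj he
    · intro x _ x' _ he; exact hinj he
    · intro x hx y hy hz
      refine ⟨Finset.mem_image_of_mem _ hx, Finset.mem_image_of_mem _ hy, ?_⟩
      simp only [Finset.mem_image] at hz ⊢
      exact ⟨2 * x + y, hz, by omega⟩

lemma card_shift_par (B : Finset ℤ) (i j : ℤ) (h : ∀ x : ℤ, (x + 1) % 2 = i ↔ x % 2 = j) :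
    (cm 2 i (B.image (fun x => x + 1))).card = (cm 2 j B).card := by
  have hinj : Function.Injective (fun x : ℤ => x + 1) := add_left_injective 1
  rw [cm, Finset.filter_image, Finset.card_image_of_injective _ hinj, cm]
  congr 1
  ext x
  simp only [Finset.mem_filter]
  rw [h x]


/-! ### reduction to the three crux statements -/

lemma HH_remove (C D : ℝ) (B W W' W'' : Finset ℤ) (hcov : ∀ w ∈ W, w ∈ W' ∨ w ∈ W'')
    (h : (NN B B W'' : ℝ) ≤ eta B.card W.card - eta B.card W'.card) (h' : HH C D B W') :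
    HH C D B W := by
  unfold HH at h' ⊢
  have h1 : NN B B W ≤ NN B B W' + NN B B W'' := by
    apply NN_le_add
    intro x hx y hy hz
    rcases hcov _ hz with hc | hc
    · left; exact ⟨hx, hy, hc⟩
    · right; exact ⟨hx, hy, hc⟩
  have h1' : (NN B B W : ℝ) ≤ NN B B W' + NN B B W'' := by exact_mod_cast h1
  linarith

/-- single class modulo 4 -/
def CruxSingle (D : ℝ) : Prop := ∀ B W : Finset ℤ, (∀ w ∈ W, w % 3 = 1) →
  ((∀ w ∈ W, w % 4 = 0) ∨ (∀ w ∈ W, w % 4 = 2)) → 0 < (cm 2 1 B).card → 0 < (cm 2 0 B).card →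
  Opts D B W

/-- two classes modulo 4, none of them removable -/
def CruxDouble (D : ℝ) : Prop := ∀ B W : Finset ℤ, (∀ w ∈ W, w % 3 = 1) →
  (∀ w ∈ W, w % 2 = 0) → 0 < (cm 2 1 B).card → 0 < (cm 2 0 B).card →
  eta B.card W.card - eta B.card (cm 4 2 W).card < NN B B (cm 4 0 W) →
  eta B.card W.card - eta B.card (cm 4 0 W).card < NN B B (cm 4 2 W) → Opts D B W

/-- both parities, none of them removable -/
def CruxMixed (D : ℝ) : Prop := ∀ B W : Finset ℤ, (∀ w ∈ W, w % 3 = 1) →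
  0 < (cm 2 1 B).card → 0 < (cm 2 0 B).card →
  eta B.card W.card - eta B.card (cm 2 0 W).card < NN B B (cm 2 1 W) →
  eta B.card W.card - eta B.card (cm 2 1 W).card < NN B B (cm 2 0 W) → Opts D B W

lemma HH_even (C D : ℝ) (hD : 0 ≤ D) (hS : CruxSingle D) (hDb : CruxDouble D)
    (d : ℕ) (hd : 0 < d) (IH : ∀ d' < d, PP C D d') (a : ℤ) (B W : Finset ℤ)
    (hB : ∀ x ∈ B, a ≤ x ∧ x ≤ a + d) (hW : ∀ w ∈ W, w % 3 = 1) (hev : ∀ w ∈ W, w % 2 = 0) :
    HH C D B W := by
  by_cases hzero : (cm 2 1 B).card = 0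
  · exact step1 C D hD d hd IH a B W hB hW (fun h => absurd hzero (by omega))
  by_cases hzero' : (cm 2 0 B).card = 0
  · -- shift
    apply HH_shift
    apply step1 C D hD d hd IH (a + 1)
    · intro x hx
      rw [Finset.mem_image] at hx
      obtain ⟨y, hy, rfl⟩ := hx
      have := hB y hy
      omega
    · intro x hx
      rw [Finset.mem_image] at hx
      obtain ⟨y, hy, rfl⟩ := hx
      have := hW y hy
      omega
    · intro h
      rw [card_shift_par B 1 0 (fun x => by omega)] at h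
      omega
  have ho : 0 < (cm 2 1 B).card := Nat.pos_of_ne_zero hzero
  have he : 0 < (cm 2 0 B).card := Nat.pos_of_ne_zero hzero'
  have single : ∀ W' : Finset ℤ, W' ⊆ W → ((∀ w ∈ W', w % 4 = 0) ∨ (∀ w ∈ W', w % 4 = 2)) →
      HH C D B W' := by
    intro W' hsub hcl
    exact step1 C D hD d hd IH a B W' hB (fun w hw => hW w (hsub hw))
      (fun _ => ⟨he, hS B W' (fun w hw => hW w (hsub hw)) hcl ho he⟩)
  have h0 : HH C D B (cm 4 0 W) := single _ (Finset.filter_subset _ _)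
    (Or.inl (fun w hw => ((mem_cm _ _ _ _).mp hw).2))
  have h2 : HH C D B (cm 4 2 W) := single _ (Finset.filter_subset _ _)
    (Or.inr (fun w hw => ((mem_cm _ _ _ _).mp hw).2))
  by_cases hr0 : (NN B B (cm 4 0 W) : ℝ) ≤ eta B.card W.card - eta B.card (cm 4 2 W).card
  · apply HH_remove C D B W (cm 4 2 W) (cm 4 0 W) _ hr0 h2
    intro w hw
    have := hev w hw
    simp only [mem_cm, hw, true_and]
    omega
  by_cases hr2 : (NN B B (cm 4 2 W) : ℝ) ≤ eta B.card W.card - eta B.card (cm 4 0 W).card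
  · apply HH_remove C D B W (cm 4 0 W) (cm 4 2 W) _ hr2 h0
    intro w hw
    have := hev w hw
    simp only [mem_cm, hw, true_and]
    omega
  push Not at hr0 hr2
  exact step1 C D hD d hd IH a B W hB hW (fun _ => ⟨he, hDb B W hW hev ho he hr0 hr2⟩)

lemma HH_odd (C D : ℝ) (hD : 0 ≤ D) (hS : CruxSingle D) (hDb : CruxDouble D)
    (d : ℕ) (hd : 0 < d) (IH : ∀ d' < d, PP C D d') (a : ℤ) (B W : Finset ℤ)
    (hB : ∀ x ∈ B, a ≤ x ∧ x ≤ a + d) (hW : ∀ w ∈ W, w % 3 = 1) (hodd : ∀ w ∈ W, w % 2 = 1) :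
    HH C D B W := by
  apply HH_shift
  apply HH_even C D hD hS hDb d hd IH (a + 1)
  · intro x hx
    rw [Finset.mem_image] at hx
    obtain ⟨y, hy, rfl⟩ := hx
    have := hB y hy
    omega
  · intro x hx
    rw [Finset.mem_image] at hx
    obtain ⟨y, hy, rfl⟩ := hx
    have := hW y hy
    omega
  · intro x hx
    rw [Finset.mem_image] at hx
    obtain ⟨y, hy, rfl⟩ := hx
    have := hodd y hy
    omega

lemma step2 (C D : ℝ) (hD : 0 ≤ D) (hS : CruxSingle D) (hDb : CruxDouble D) (hM : CruxMixed D)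
    (d : ℕ) (hd : 0 < d) (IH : ∀ d' < d, PP C D d') (a : ℤ) (B W : Finset ℤ)
    (hB : ∀ x ∈ B, a ≤ x ∧ x ≤ a + d) (hW : ∀ w ∈ W, w % 3 = 1) : HH C D B W := by
  by_cases hzero : (cm 2 1 B).card = 0
  · exact step1 C D hD d hd IH a B W hB hW (fun h => absurd hzero (by omega))
  by_cases hzero' : (cm 2 0 B).card = 0
  · -- shift
    apply HH_shift
    apply step1 C D hD d hd IH (a + 1)
    · intro x hx
      rw [Finset.mem_image] at hx
      obtain ⟨y, hy, rfl⟩ := hx
      have := hB y hy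
      omega
    · intro x hx
      rw [Finset.mem_image] at hx
      obtain ⟨y, hy, rfl⟩ := hx
      have := hW y hy
      omega
    · intro h
      rw [card_shift_par B 1 0 (fun x => by omega)] at h
      omega
  have ho : 0 < (cm 2 1 B).card := Nat.pos_of_ne_zero hzero
  have he : 0 < (cm 2 0 B).card := Nat.pos_of_ne_zero hzero'
  have h0 : HH C D B (cm 2 0 W) := HH_even C D hD hS hDb d hd IH a B _ hB
    (fun w hw => hW w ((mem_cm _ _ _ _).mp hw).1) (fun w hw => ((mem_cm _ _ _ _).mp hw).2)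
  have h1 : HH C D B (cm 2 1 W) := HH_odd C D hD hS hDb d hd IH a B _ hB
    (fun w hw => hW w ((mem_cm _ _ _ _).mp hw).1) (fun w hw => ((mem_cm _ _ _ _).mp hw).2)
  by_cases hr1 : (NN B B (cm 2 1 W) : ℝ) ≤ eta B.card W.card - eta B.card (cm 2 0 W).card
  · apply HH_remove C D B W (cm 2 0 W) (cm 2 1 W) _ hr1 h0
    intro w hw
    simp only [mem_cm, hw, true_and]
    omega
  by_cases hr0 : (NN B B (cm 2 0 W) : ℝ) ≤ eta B.card W.card - eta B.card (cm 2 1 W).card
  · apply HH_remove C D B W (cm 2 1 W) (cm 2 0 W) _ hr0 h1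
    intro w hw
    simp only [mem_cm, hw, true_and]
    omega
  push Not at hr0 hr1
  exact step1 C D hD d hd IH a B W hB hW (fun _ => ⟨he, hM B W hW ho he hr1 hr0⟩)

lemma base0 (C D : ℝ) (hC : D + 3 ≤ C) : PP C D 0 := by
  intro a B W hB _
  have hc : B.card ≤ 1 := by
    rw [Finset.card_le_one]
    intro x hx y hy
    have h1 := hB x hx
    have h2 := hB y hy
    push_cast at h1 h2
    omega
  have n1 := NN_xy B B (tr B)
  have n2 := NN_xy B B W
  have hne : (0:ℝ) ≤ eta (B.card : ℝ) (W.card : ℝ) :=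
    eta_nonneg _ _ (Nat.cast_nonneg _) (Nat.cast_nonneg _)
  unfold HH
  rcases Nat.eq_zero_or_pos B.card with h0 | h0
  · rw [h0] at n1 n2 hne ⊢
    have z1 : NN B B (tr B) = 0 := by omega
    have z2 : NN B B W = 0 := by omega
    rw [z1, z2, err, if_pos rfl]
    push_cast at hne ⊢
    linarith
  · have h1 : B.card = 1 := by omega
    rw [err_pos C D _ h0]
    rw [h1] at n1 n2 hne ⊢
    have z1 : (NN B B (tr B) : ℝ) ≤ 1 := by exact_mod_cast n1
    have z2 : (NN B B W : ℝ) ≤ 1 := by exact_mod_cast n2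
    push_cast at hne ⊢
    linarith


theorem PP_all (C D : ℝ) (hD : 0 ≤ D) (hC : D + 3 ≤ C)
    (hS : CruxSingle D) (hDb : CruxDouble D) (hM : CruxMixed D) : ∀ d, PP C D d := by
  intro d
  induction d using Nat.strong_induction_on with
  | _ d IH =>
    rcases Nat.eq_zero_or_pos d with rfl | hd
    · exact base0 C D hC
    · intro a B W hB hW
      rcases hW with hW | hW
      · exact step2 C D hD hS hDb hM d hd IH a B W hB hW
      · apply HH_neg
        apply step2 C D hD hS hDb hM d hd IH (-a - d)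
        · intro x hx
          rw [Finset.mem_image] at hx
          obtain ⟨y, hy, rfl⟩ := hx
          have := hB y hy
          omega
        · intro x hx
          rw [Finset.mem_image] at hx
          obtain ⟨y, hy, rfl⟩ := hx
          have := hW y hy
          omega

/-- the bound for `T`, given the crux -/
theorem T_bound (C D : ℝ) (hD : 0 ≤ D) (hC : D + 3 ≤ C)
    (hS : CruxSingle D) (hDb : CruxDouble D) (hM : CruxMixed D) (A : Finset ℤ) :
    (((A ×ˢ A).filter (fun (x, y) ↦ x ≠ y ∧ x + 3 * (y - x) ∈ A)).card : ℝ) ≤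
      (A.card : ℝ) ^ 2 / 3 + C * A.card := by
  have h1 : ((A ×ˢ A).filter (fun (x, y) ↦ x ≠ y ∧ x + 3 * (y - x) ∈ A)).card ≤
      NN A A (tr A) := by
    unfold NN
    apply Finset.card_le_card_of_injOn (fun p : ℤ × ℤ => (p.1, p.1 + 3 * (p.2 - p.1)))
    · rintro ⟨x, y⟩ hh
      simp only [Finset.coe_filter, Finset.mem_product, Set.mem_ofPred_eq, tr,
        Finset.mem_image] at hh ⊢
      exact ⟨⟨hh.1.1, hh.2.2⟩, y, hh.1.2, by ring⟩
    · rintro ⟨x, y⟩ _ ⟨x', y'⟩ _ heq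
      simp only [Prod.mk.injEq] at heq ⊢
      omega
  have h2 : (NN A A (tr A) : ℝ) ≤ (A.card : ℝ) ^ 2 / 3 + err C D A.card := by
    apply H_T
    rcases A.eq_empty_or_nonempty with rfl | hne
    · apply PP_all C D hD hC hS hDb hM 0 0 ∅ ∅ (by simp) cls_empty
    · apply PP_all C D hD hC hS hDb hM (A.max' hne - A.min' hne).toNat (A.min' hne) A ∅ _ cls_empty
      intro x hx
      have h1 := A.min'_le x hx
      have h2 := A.le_max' x hx
      omega
  have h3 := err_le C D hD A.card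
  have h1' : (((A ×ˢ A).filter (fun (x, y) ↦ x ≠ y ∧ x + 3 * (y - x) ∈ A)).card : ℝ) ≤
      NN A A (tr A) := by exact_mod_cast h1
  linarith

/-! ### the discrete rearrangement bounds -/

lemma NN_step_x (X Y W : Finset ℤ) (hY : Y.Nonempty) (hW : W.Nonempty) :
    NN X Y W ≤ X.card + NN X (Y.erase (Y.max' hY)) (W.erase (W.max' hW)) := by
  unfold NN
  have hsub : (X ×ˢ Y).filter (fun p => 2 * p.1 + p.2 ∈ W) ⊆
      ((X ×ˢ Y).filter (fun p => 2 * p.1 + p.2 ∈ W ∧ (p.2 = Y.max' hY ∨ 2 * p.1 + p.2 = W.max' hW))) ∪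
      ((X ×ˢ (Y.erase (Y.max' hY))).filter (fun p => 2 * p.1 + p.2 ∈ W.erase (W.max' hW))) := by
    rintro ⟨x, y⟩ h
    simp only [Finset.mem_filter, Finset.mem_product, Finset.mem_union, Finset.mem_erase] at h ⊢
    tauto
  refine le_trans (Finset.card_le_card hsub) (le_trans (Finset.card_union_le _ _) ?_)
  refine Nat.add_le_add_right ?_ _
  apply Finset.card_le_card_of_injOn (fun p : ℤ × ℤ => p.1)
  · rintro ⟨x, y⟩ h
    simp only [Finset.coe_filter, Finset.mem_product, Set.mem_ofPred_eq, Finset.mem_coe] at h ⊢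
    exact h.1.1
  · rintro ⟨x, y⟩ h ⟨x', y'⟩ h' heq
    simp only [Finset.coe_filter, Finset.mem_product, Set.mem_ofPred_eq] at h h'
    simp only at heq
    subst heq
    have a1 := Y.le_max' y h.1.2
    have a2 := Y.le_max' y' h'.1.2
    have a3 := W.le_max' _ h.2.1
    have a4 := W.le_max' _ h'.2.1
    have hyy : y = y' := by
      rcases h.2.2 with b1 | b1 <;> rcases h'.2.2 with b2 | b2 <;> omega
    rw [hyy]

lemma NN_step_y (X Y W : Finset ℤ) (hX : X.Nonempty) (hW : W.Nonempty) :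
    NN X Y W ≤ Y.card + NN (X.erase (X.max' hX)) Y (W.erase (W.max' hW)) := by
  unfold NN
  have hsub : (X ×ˢ Y).filter (fun p => 2 * p.1 + p.2 ∈ W) ⊆
      ((X ×ˢ Y).filter (fun p => 2 * p.1 + p.2 ∈ W ∧ (p.1 = X.max' hX ∨ 2 * p.1 + p.2 = W.max' hW))) ∪
      (((X.erase (X.max' hX)) ×ˢ Y).filter (fun p => 2 * p.1 + p.2 ∈ W.erase (W.max' hW))) := by
    rintro ⟨x, y⟩ h
    simp only [Finset.mem_filter, Finset.mem_product, Finset.mem_union, Finset.mem_erase] at h ⊢
    tauto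
  refine le_trans (Finset.card_le_card hsub) (le_trans (Finset.card_union_le _ _) ?_)
  refine Nat.add_le_add_right ?_ _
  apply Finset.card_le_card_of_injOn (fun p : ℤ × ℤ => p.2)
  · rintro ⟨x, y⟩ h
    simp only [Finset.coe_filter, Finset.mem_product, Set.mem_ofPred_eq, Finset.mem_coe] at h ⊢
    exact h.1.2
  · rintro ⟨x, y⟩ h ⟨x', y'⟩ h' heq
    simp only [Finset.coe_filter, Finset.mem_product, Set.mem_ofPred_eq] at h h'
    simp only at heq
    subst heq
    have a1 := X.le_max' x h.1.1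
    have a2 := X.le_max' x' h'.1.1
    have a3 := W.le_max' _ h.2.1
    have a4 := W.le_max' _ h'.2.1
    have hyy : x = x' := by
      rcases h.2.2 with b1 | b1 <;> rcases h'.2.2 with b2 | b2 <;> omega
    rw [hyy]

lemma NN_step_w (X Y W : Finset ℤ) (hX : X.Nonempty) (hY : Y.Nonempty) :
    NN X Y W ≤ W.card + NN (X.erase (X.max' hX)) (Y.erase (Y.min' hY)) W := by
  unfold NN
  have hsub : (X ×ˢ Y).filter (fun p => 2 * p.1 + p.2 ∈ W) ⊆
      ((X ×ˢ Y).filter (fun p => 2 * p.1 + p.2 ∈ W ∧ (p.1 = X.max' hX ∨ p.2 = Y.min' hY))) ∪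
      (((X.erase (X.max' hX)) ×ˢ (Y.erase (Y.min' hY))).filter (fun p => 2 * p.1 + p.2 ∈ W)) := by
    rintro ⟨x, y⟩ h
    simp only [Finset.mem_filter, Finset.mem_product, Finset.mem_union, Finset.mem_erase] at h ⊢
    tauto
  refine le_trans (Finset.card_le_card hsub) (le_trans (Finset.card_union_le _ _) ?_)
  refine Nat.add_le_add_right ?_ _
  apply Finset.card_le_card_of_injOn (fun p : ℤ × ℤ => 2 * p.1 + p.2)
  · rintro ⟨x, y⟩ h
    simp only [Finset.coe_filter, Finset.mem_product, Set.mem_ofPred_eq, Finset.mem_coe] at h ⊢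
    exact h.2.1
  · rintro ⟨x, y⟩ h ⟨x', y'⟩ h' heq
    simp only [Finset.coe_filter, Finset.mem_product, Set.mem_ofPred_eq] at h h'
    simp only at heq
    have a1 := X.le_max' x h.1.1
    have a2 := X.le_max' x' h'.1.1
    have a3 := Y.min'_le _ h.1.2
    have a4 := Y.min'_le _ h'.1.2
    simp only [Prod.mk.injEq]
    rcases h.2.2 with b1 | b1 <;> rcases h'.2.2 with b2 | b2 <;> omega

lemma NN_riesz_x (X : Finset ℤ) : ∀ (s : ℕ) (Y W : Finset ℤ), s ≤ Y.card → s ≤ W.card →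
    NN X Y W ≤ s * X.card + (Y.card - s) * (W.card - s) := by
  intro s
  induction s with
  | zero => intro Y W _ _; simpa using NN_yw X Y W
  | succ s IH =>
    intro Y W hY hW
    have hYn : Y.Nonempty := Finset.card_pos.mp (by omega)
    have hWn : W.Nonempty := Finset.card_pos.mp (by omega)
    have h1 := NN_step_x X Y W hYn hWn
    have cY := Finset.card_erase_of_mem (Y.max'_mem hYn)
    have cW := Finset.card_erase_of_mem (W.max'_mem hWn)
    have h2 := IH (Y.erase (Y.max' hYn)) (W.erase (W.max' hWn)) (by omega) (by omega)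
    rw [cY, cW] at h2
    have e1 : Y.card - 1 - s = Y.card - (s + 1) := by omega
    have e2 : W.card - 1 - s = W.card - (s + 1) := by omega
    rw [e1, e2] at h2
    calc NN X Y W ≤ X.card + (s * X.card + (Y.card - (s + 1)) * (W.card - (s + 1))) := by omega
      _ = _ := by ring

lemma NN_riesz_y (Y : Finset ℤ) : ∀ (s : ℕ) (X W : Finset ℤ), s ≤ X.card → s ≤ W.card →
    NN X Y W ≤ s * Y.card + (X.card - s) * (W.card - s) := by
  intro s
  induction s with
  | zero => intro X W _ _; simpa using NN_xw X Y W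
  | succ s IH =>
    intro X W hX hW
    have hXn : X.Nonempty := Finset.card_pos.mp (by omega)
    have hWn : W.Nonempty := Finset.card_pos.mp (by omega)
    have h1 := NN_step_y X Y W hXn hWn
    have cX := Finset.card_erase_of_mem (X.max'_mem hXn)
    have cW := Finset.card_erase_of_mem (W.max'_mem hWn)
    have h2 := IH (X.erase (X.max' hXn)) (W.erase (W.max' hWn)) (by omega) (by omega)
    rw [cX, cW] at h2
    have e1 : X.card - 1 - s = X.card - (s + 1) := by omega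
    have e2 : W.card - 1 - s = W.card - (s + 1) := by omega
    rw [e1, e2] at h2
    calc NN X Y W ≤ Y.card + (s * Y.card + (X.card - (s + 1)) * (W.card - (s + 1))) := by omega
      _ = _ := by ring

lemma NN_riesz_w (W : Finset ℤ) : ∀ (s : ℕ) (X Y : Finset ℤ), s ≤ X.card → s ≤ Y.card →
    NN X Y W ≤ s * W.card + (X.card - s) * (Y.card - s) := by
  intro s
  induction s with
  | zero => intro X Y _ _; simpa using NN_xy X Y W
  | succ s IH =>
    intro X Y hX hY
    have hXn : X.Nonempty := Finset.card_pos.mp (by omega)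
    have hYn : Y.Nonempty := Finset.card_pos.mp (by omega)
    have h1 := NN_step_w X Y W hXn hYn
    have cX := Finset.card_erase_of_mem (X.max'_mem hXn)
    have cY := Finset.card_erase_of_mem (Y.min'_mem hYn)
    have h2 := IH (X.erase (X.max' hXn)) (Y.erase (Y.min' hYn)) (by omega) (by omega)
    rw [cX, cY] at h2
    have e1 : X.card - 1 - s = X.card - (s + 1) := by omega
    have e2 : Y.card - 1 - s = Y.card - (s + 1) := by omega
    rw [e1, e2] at h2
    calc NN X Y W ≤ W.card + (s * W.card + (X.card - (s + 1)) * (Y.card - (s + 1))) := by omega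
      _ = _ := by ring

/-- from integer `s` to real `s` -/
lemma real_s (n a b c : ℕ) (h : ∀ s : ℕ, s ≤ b → s ≤ c → n ≤ s * a + (b - s) * (c - s))
    (s : ℝ) (hs0 : 0 ≤ s) (hsb : s ≤ b) (hsc : s ≤ c) :
    (n : ℝ) ≤ s * a + (b - s) * (c - s) + 1 / 4 := by
  have hf : ((⌊s⌋₊ : ℕ) : ℝ) ≤ s := Nat.floor_le hs0
  have hf' : s < (⌊s⌋₊ : ℕ) + 1 := Nat.lt_floor_add_one s
  obtain ⟨m, hm⟩ : ∃ m, m = ⌊s⌋₊ := ⟨_, rfl⟩
  rw [← hm] at hf hf'
  have hmb : m ≤ b := by
    have : (m:ℝ) ≤ b := by linarith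
    exact_mod_cast this
  have hmc : m ≤ c := by
    have : (m:ℝ) ≤ c := by linarith
    exact_mod_cast this
  have cast : ∀ k : ℕ, k ≤ b → k ≤ c → (n:ℝ) ≤ k * a + (b - k) * (c - k) := by
    intro k hkb hkc
    have := h k hkb hkc
    have h2 : (n : ℝ) ≤ ((k * a + (b - k) * (c - k) : ℕ) : ℝ) := by exact_mod_cast this
    rw [Nat.cast_add, Nat.cast_mul, Nat.cast_mul, Nat.cast_sub hkb, Nat.cast_sub hkc] at h2
    exact h2
  have h1 := cast m hmb hmc
  obtain ⟨θ, hθ⟩ : ∃ θ, θ = s - m := ⟨_, rfl⟩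
  have hs : s = m + θ := by rw [hθ]; ring
  rcases eq_or_lt_of_le hf with heq | hlt
  · rw [← heq]; linarith
  · have hm1b : m + 1 ≤ b := by
      have : (m:ℝ) < b := by linarith
      exact_mod_cast this
    have hm1c : m + 1 ≤ c := by
      have : (m:ℝ) < c := by linarith
      exact_mod_cast this
    have h2 := cast (m + 1) hm1b hm1c
    push_cast at h2
    have ht0 : 0 ≤ θ := by rw [hθ]; linarith
    have ht1 : 0 ≤ 1 - θ := by rw [hθ]; linarith
    have k1 := mul_le_mul_of_nonneg_left h1 ht1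
    have k2 := mul_le_mul_of_nonneg_left h2 ht0
    rw [hs]
    nlinarith [sq_nonneg (θ - 1/2)]

lemma RX (X Y W : Finset ℤ) (s : ℝ) (h0 : 0 ≤ s) (h1 : s ≤ Y.card) (h2 : s ≤ W.card) :
    (NN X Y W : ℝ) ≤ s * X.card + (Y.card - s) * (W.card - s) + 1 / 4 :=
  real_s _ _ _ _ (fun t ht1 ht2 => NN_riesz_x X t Y W ht1 ht2) s h0 h1 h2

lemma RY (X Y W : Finset ℤ) (s : ℝ) (h0 : 0 ≤ s) (h1 : s ≤ X.card) (h2 : s ≤ W.card) :
    (NN X Y W : ℝ) ≤ s * Y.card + (X.card - s) * (W.card - s) + 1 / 4 :=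
  real_s _ _ _ _ (fun t ht1 ht2 => NN_riesz_y Y t X W ht1 ht2) s h0 h1 h2

lemma RW (X Y W : Finset ℤ) (s : ℝ) (h0 : 0 ≤ s) (h1 : s ≤ X.card) (h2 : s ≤ Y.card) :
    (NN X Y W : ℝ) ≤ s * W.card + (X.card - s) * (Y.card - s) + 1 / 4 :=
  real_s _ _ _ _ (fun t ht1 ht2 => NN_riesz_w W t X Y ht1 ht2) s h0 h1 h2

/-- the real Riesz function -/
noncomputable def Ri (a b c : ℝ) : ℝ :=
  if a + b ≤ c then a * b else if b + c ≤ a then b * c else if a + c ≤ b then a * c
  else a * b - ((a + b - c) / 2) ^ 2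

lemma NN_Ri (X Y W : Finset ℤ) : (NN X Y W : ℝ) ≤ Ri X.card Y.card W.card + 1 / 4 := by
  have hxy : (NN X Y W : ℝ) ≤ X.card * Y.card := by exact_mod_cast NN_xy X Y W
  have hxw : (NN X Y W : ℝ) ≤ X.card * W.card := by exact_mod_cast NN_xw X Y W
  have hyw : (NN X Y W : ℝ) ≤ Y.card * W.card := by exact_mod_cast NN_yw X Y W
  unfold Ri
  split_ifs with h1 h2 h3
  · linarith
  · linarith
  · linarith
  · push Not at h1 h2 h3
    have := RW X Y W (((X.card:ℝ) + Y.card - W.card) / 2) (by linarith) (by linarith) (by linarith)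
    nlinarith

end Pool.Agent.M4074H
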