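import Mathlib
import Pool.Agent.M4074.Skel
import Pool.Agent.M4074.MA

set_option autoImplicit false

namespace Pool.Agent.M4074H

open Pool.Agent.M4074R (Cell)

lemma NN_le_list (X Y W : Finset ℤ) (L : List (Finset ℤ × Finset ℤ × Finset ℤ))
    (h : ∀ x ∈ X, ∀ y ∈ Y, 2 * x + y ∈ W → ∃ t ∈ L, x ∈ t.1 ∧ y ∈ t.2.1 ∧ 2 * x + y ∈ t.2.2) :
    NN X Y W ≤ (L.map (fun t => NN t.1 t.2.1 t.2.2)).sum := by
  induction L generalizing X Y W with
  | nil =>
    simp only [List.not_mem_nil, false_and, exists_false, imp_false] at h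
    simp only [List.map_nil, List.sum_nil, Nat.le_zero]
    unfold NN
    rw [Finset.card_eq_zero, Finset.filter_eq_empty_iff]
    rintro ⟨x, y⟩ hxy hc
    rw [Finset.mem_product] at hxy
    exact h x hxy.1 y hxy.2 hc
  | cons t L ih =>
    simp only [List.map_cons, List.sum_cons]
    have key : NN X Y W ≤ NN t.1 t.2.1 t.2.2 +
      (((X ×ˢ Y).filter (fun p => 2 * p.1 + p.2 ∈ W ∧
        ∃ t ∈ L, p.1 ∈ t.1 ∧ p.2 ∈ t.2.1 ∧ 2 * p.1 + p.2 ∈ t.2.2))).card := by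
      unfold NN
      refine le_trans (Finset.card_le_card ?_) (Finset.card_union_le _ _)
      rintro ⟨x, y⟩ hh
      simp only [Finset.mem_filter, Finset.mem_product, Finset.mem_union] at hh ⊢
      obtain ⟨t', ht', h1⟩ := h x hh.1.1 y hh.1.2 hh.2
      rw [List.mem_cons] at ht'
      rcases ht' with rfl | ht'
      · left; exact ⟨⟨h1.1, h1.2.1⟩, h1.2.2⟩
      · right; exact ⟨hh.1, hh.2, t', ht', h1⟩
    refine le_trans key (Nat.add_le_add_left ?_ _)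
    clear key ih h
    induction L with
    | nil => simp
    | cons t L ih =>
      simp only [List.map_cons, List.sum_cons]
      have k2 : ((X ×ˢ Y).filter (fun p => 2 * p.1 + p.2 ∈ W ∧
        ∃ t' ∈ t :: L, p.1 ∈ t'.1 ∧ p.2 ∈ t'.2.1 ∧ 2 * p.1 + p.2 ∈ t'.2.2)).card ≤
        NN t.1 t.2.1 t.2.2 + ((X ×ˢ Y).filter (fun p => 2 * p.1 + p.2 ∈ W ∧
        ∃ t ∈ L, p.1 ∈ t.1 ∧ p.2 ∈ t.2.1 ∧ 2 * p.1 + p.2 ∈ t.2.2)).card := by
        unfold NN
        refine le_trans (Finset.card_le_card ?_) (Finset.card_union_le _ _)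
        rintro ⟨x, y⟩ hh
        simp only [Finset.mem_filter, Finset.mem_product, Finset.mem_union] at hh ⊢
        obtain ⟨hxy, hW, t', ht', h1⟩ := hh
        rw [List.mem_cons] at ht'
        rcases ht' with rfl | ht'
        · left; exact ⟨⟨h1.1, h1.2.1⟩, h1.2.2⟩
        · right; exact ⟨hxy, hW, t', ht', h1⟩
      omega

def Fk (k : ℤ) (B : Finset ℤ) : Finset ℤ := B.filter (fun x => x % 3 = k ∧ x % 4 = 0)
def Gk (k : ℤ) (B : Finset ℤ) : Finset ℤ := B.filter (fun x => x % 3 = k ∧ x % 4 = 2)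
def Ek (k : ℤ) (B : Finset ℤ) : Finset ℤ := B.filter (fun x => x % 3 = k ∧ x % 2 = 0)
def Ok (k : ℤ) (B : Finset ℤ) : Finset ℤ := B.filter (fun x => x % 3 = k ∧ x % 2 = 1)

lemma card_part {B : Finset ℤ} (p q r : ℤ → Prop) [DecidablePred p] [DecidablePred q] [DecidablePred r]
    (h : ∀ x, p x ↔ (q x ∨ r x)) (h' : ∀ x, ¬ (q x ∧ r x)) :
    (B.filter p).card = (B.filter q).card + (B.filter r).card := by
  rw [← Finset.card_union_of_disjoint]
  · congr 1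
    ext x
    simp only [Finset.mem_filter, Finset.mem_union]
    have := h x
    tauto
  · rw [Finset.disjoint_filter]
    intro x _ h1 h2
    exact h' x ⟨h1, h2⟩

lemma card_Ek (k : ℤ) (B : Finset ℤ) : (Ek k B).card = (Fk k B).card + (Gk k B).card := by
  unfold Ek Fk Gk
  apply card_part
  · intro x; omega
  · intro x; omega

lemma card_Bk (k : ℤ) (B : Finset ℤ) : (cm 3 k B).card = (Ek k B).card + (Ok k B).card := by
  unfold Ek Ok cm
  apply card_part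
  · intro x; omega
  · intro x; omega

lemma card_E (B : Finset ℤ) : (cm 2 0 B).card = (Ek 0 B).card + (Ek 1 B).card + (Ek 2 B).card := by
  have h1 : (cm 2 0 B).card = (Ek 0 B).card +
      (B.filter (fun x => x % 3 ≠ 0 ∧ x % 2 = 0)).card := by
    unfold Ek cm
    apply card_part
    · intro x; omega
    · intro x; omega
  have h2 : (B.filter (fun x => x % 3 ≠ 0 ∧ x % 2 = 0)).card = (Ek 1 B).card + (Ek 2 B).card := by
    unfold Ek
    apply card_part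
    · intro x; omega
    · intro x; omega
  omega

lemma card_O (B : Finset ℤ) : (cm 2 1 B).card = (Ok 0 B).card + (Ok 1 B).card + (Ok 2 B).card := by
  have h1 : (cm 2 1 B).card = (Ok 0 B).card +
      (B.filter (fun x => x % 3 ≠ 0 ∧ x % 2 = 1)).card := by
    unfold Ok cm
    apply card_part
    · intro x; omega
    · intro x; omega
  have h2 : (B.filter (fun x => x % 3 ≠ 0 ∧ x % 2 = 1)).card = (Ok 1 B).card + (Ok 2 B).card := by
    unfold Ok
    apply card_part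
    · intro x; omega
    · intro x; omega
  omega

lemma card_B (B : Finset ℤ) : B.card = (Ek 0 B).card + (Ek 1 B).card + (Ek 2 B).card +
    ((Ok 0 B).card + (Ok 1 B).card + (Ok 2 B).card) := by
  rw [card_cm2 B, card_E, card_O]

lemma cell (X Y W : Finset ℤ) : Cell ((NN X Y W : ℝ) - 1/4) X.card Y.card W.card := by
  have hxy : (NN X Y W : ℝ) ≤ X.card * Y.card := by exact_mod_cast NN_xy X Y W
  have hxw : (NN X Y W : ℝ) ≤ X.card * W.card := by exact_mod_cast NN_xw X Y W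
  have hyw : (NN X Y W : ℝ) ≤ Y.card * W.card := by exact_mod_cast NN_yw X Y W
  refine ⟨by linarith, by linarith, by linarith, ?_⟩
  intro s hs0 hsw h
  by_cases hse : s ≤ Y.card
  · have := RX X Y W s hs0 hse hsw
    linarith
  · push Not at hse
    rcases h with h | h
    · linarith
    · nlinarith [mul_nonneg (sub_nonneg.mpr h) (sub_nonneg.mpr hse.le)]

/-- decomposition modulo 3 (`W` even) -/
lemma dec3 (B W : Finset ℤ) (hW : ∀ w ∈ W, w % 3 = 1) (he : ∀ w ∈ W, w % 2 = 0) :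
    NN B B W ≤ NN (cm 3 0 B) (Ek 1 B) W + NN (cm 3 1 B) (Ek 2 B) W + NN (cm 3 2 B) (Ek 0 B) W := by
  have := NN_le_list B B W [(cm 3 0 B, Ek 1 B, W), (cm 3 1 B, Ek 2 B, W), (cm 3 2 B, Ek 0 B, W)] (by
    intro x hx y hy hz
    have h1 := hW _ hz
    have h2 := he _ hz
    simp only [List.mem_cons, List.not_mem_nil, or_false, exists_eq_or_imp, exists_eq_left, cm, Ek,
      Finset.mem_filter, hx, hy, hz, true_and, and_true]
    omega)
  simp only [List.map_cons, List.map_nil, List.sum_cons, List.sum_nil] at this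
  omega

/-- decomposition modulo 3 with parities of `W` -/
lemma dec3m (B W : Finset ℤ) (hW : ∀ w ∈ W, w % 3 = 1) :
    NN B B W ≤ (NN (cm 3 0 B) (Ek 1 B) (cm 2 0 W) + NN (cm 3 1 B) (Ek 2 B) (cm 2 0 W) +
      NN (cm 3 2 B) (Ek 0 B) (cm 2 0 W)) + (NN (cm 3 0 B) (Ok 1 B) (cm 2 1 W) +
      NN (cm 3 1 B) (Ok 2 B) (cm 2 1 W) + NN (cm 3 2 B) (Ok 0 B) (cm 2 1 W)) := by
  have := NN_le_list B B W [(cm 3 0 B, Ek 1 B, cm 2 0 W), (cm 3 1 B, Ek 2 B, cm 2 0 W),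
    (cm 3 2 B, Ek 0 B, cm 2 0 W), (cm 3 0 B, Ok 1 B, cm 2 1 W), (cm 3 1 B, Ok 2 B, cm 2 1 W),
    (cm 3 2 B, Ok 0 B, cm 2 1 W)] (by
    intro x hx y hy hz
    have h1 := hW _ hz
    have x3 : x % 3 = 0 ∨ x % 3 = 1 ∨ x % 3 = 2 := by omega
    have y3 : y % 3 = 0 ∨ y % 3 = 1 ∨ y % 3 = 2 := by omega
    have y2 : y % 2 = 0 ∨ y % 2 = 1 := by omega
    have z2 : (2 * x + y) % 2 = 0 ∨ (2 * x + y) % 2 = 1 := by omega
    simp only [List.mem_cons, List.not_mem_nil, or_false, exists_eq_or_imp, exists_eq_left, cm, Ek,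
      Ok, Finset.mem_filter, hx, hy, hz, true_and]
    rcases x3 with x3 | x3 | x3 <;> rcases y3 with y3 | y3 | y3 <;> rcases y2 with y2 | y2 <;>
      rcases z2 with z2 | z2 <;>
      first
      | (exfalso; omega)
      | (simp only [x3, y3, y2, z2]; decide))
  simp only [List.map_cons, List.map_nil, List.sum_cons, List.sum_nil] at this
  omega

/-- decomposition modulo 12 (`W` even) -/
lemma dec12 (B W : Finset ℤ) (hW : ∀ w ∈ W, w % 3 = 1) (he : ∀ w ∈ W, w % 2 = 0) :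
    NN B B W ≤
      (NN (Ek 0 B) (Fk 1 B) (cm 4 0 W) + NN (Ek 1 B) (Fk 2 B) (cm 4 0 W) +
        NN (Ek 2 B) (Fk 0 B) (cm 4 0 W)) +
      (NN (Ek 0 B) (Gk 1 B) (cm 4 2 W) + NN (Ek 1 B) (Gk 2 B) (cm 4 2 W) +
        NN (Ek 2 B) (Gk 0 B) (cm 4 2 W)) +
      ((NN (Ok 0 B) (Gk 1 B) (cm 4 0 W) + NN (Ok 1 B) (Gk 2 B) (cm 4 0 W) +
        NN (Ok 2 B) (Gk 0 B) (cm 4 0 W)) +
      (NN (Ok 0 B) (Fk 1 B) (cm 4 2 W) + NN (Ok 1 B) (Fk 2 B) (cm 4 2 W) +
        NN (Ok 2 B) (Fk 0 B) (cm 4 2 W))) := by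
  have := NN_le_list B B W [(Ek 0 B, Fk 1 B, cm 4 0 W), (Ek 1 B, Fk 2 B, cm 4 0 W),
    (Ek 2 B, Fk 0 B, cm 4 0 W), (Ek 0 B, Gk 1 B, cm 4 2 W), (Ek 1 B, Gk 2 B, cm 4 2 W),
    (Ek 2 B, Gk 0 B, cm 4 2 W), (Ok 0 B, Gk 1 B, cm 4 0 W), (Ok 1 B, Gk 2 B, cm 4 0 W),
    (Ok 2 B, Gk 0 B, cm 4 0 W), (Ok 0 B, Fk 1 B, cm 4 2 W), (Ok 1 B, Fk 2 B, cm 4 2 W),
    (Ok 2 B, Fk 0 B, cm 4 2 W)] (by
    intro x hx y hy hz
    have h1 := hW _ hz
    have h2 := he _ hz
    have x3 : x % 3 = 0 ∨ x % 3 = 1 ∨ x % 3 = 2 := by omega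
    have y3 : y % 3 = 0 ∨ y % 3 = 1 ∨ y % 3 = 2 := by omega
    have x2 : x % 2 = 0 ∨ x % 2 = 1 := by omega
    have y4 : y % 4 = 0 ∨ y % 4 = 2 := by omega
    have z4 : (2 * x + y) % 4 = 0 ∨ (2 * x + y) % 4 = 2 := by omega
    simp only [List.mem_cons, List.not_mem_nil, or_false, exists_eq_or_imp, exists_eq_left, cm, Ek,
      Ok, Fk, Gk, Finset.mem_filter, hx, hy, hz, true_and]
    rcases x3 with x3 | x3 | x3 <;> rcases y3 with y3 | y3 | y3 <;> rcases x2 with x2 | x2 <;>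
      rcases y4 with y4 | y4 <;> rcases z4 with z4 | z4 <;>
      first
      | (exfalso; omega)
      | (simp only [x3, x2, y3, y4, z4]; decide))
  simp only [List.map_cons, List.map_nil, List.sum_cons, List.sum_nil] at this
  omega

/-- decomposition of the cross part (`W` even) -/
lemma decX (B W : Finset ℤ) (hW : ∀ w ∈ W, w % 3 = 1) (he : ∀ w ∈ W, w % 2 = 0) :
    XX B W ≤ (NN (Ok 0 B) (Gk 1 B) (cm 4 0 W) + NN (Ok 1 B) (Gk 2 B) (cm 4 0 W) +
        NN (Ok 2 B) (Gk 0 B) (cm 4 0 W)) +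
      (NN (Ok 0 B) (Fk 1 B) (cm 4 2 W) + NN (Ok 1 B) (Fk 2 B) (cm 4 2 W) +
        NN (Ok 2 B) (Fk 0 B) (cm 4 2 W)) := by
  have a1 := NN_le_list (cm 2 1 B) (cm 2 0 B) W [(Ok 0 B, Gk 1 B, cm 4 0 W), (Ok 1 B, Gk 2 B, cm 4 0 W),
    (Ok 2 B, Gk 0 B, cm 4 0 W), (Ok 0 B, Fk 1 B, cm 4 2 W), (Ok 1 B, Fk 2 B, cm 4 2 W),
    (Ok 2 B, Fk 0 B, cm 4 2 W)] (by
    intro x hx y hy hz
    have h1 := hW _ hz
    have h2 := he _ hz
    rw [mem_cm] at hx hy
    have x3 : x % 3 = 0 ∨ x % 3 = 1 ∨ x % 3 = 2 := by omega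
    have y3 : y % 3 = 0 ∨ y % 3 = 1 ∨ y % 3 = 2 := by omega
    have x2 : x % 2 = 1 := by omega
    have y4 : y % 4 = 0 ∨ y % 4 = 2 := by omega
    have z4 : (2 * x + y) % 4 = 0 ∨ (2 * x + y) % 4 = 2 := by omega
    simp only [List.mem_cons, List.not_mem_nil, or_false, exists_eq_or_imp, exists_eq_left, cm,
      Ok, Fk, Gk, Finset.mem_filter, hx.1, hy.1, hz, true_and]
    rcases x3 with x3 | x3 | x3 <;> rcases y3 with y3 | y3 | y3 <;>
      rcases y4 with y4 | y4 <;> rcases z4 with z4 | z4 <;>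
      first
      | (exfalso; omega)
      | (simp only [x3, x2, y3, y4, z4]; decide))
  have a2 := NN_le_list (cm 2 0 B) (cm 2 1 B) W [] (by
    intro x hx y hy hz
    have h2 := he _ hz
    rw [mem_cm] at hx hy
    omega)
  simp only [List.map_cons, List.map_nil, List.sum_cons, List.sum_nil] at a1 a2
  unfold XX
  omega

/-- bound for `C2` by products -/
lemma C2_S (B : Finset ℤ) : NN (cm 2 1 B) (cm 2 0 B) (tr B) ≤
    (Ek 0 B).card * (Ok 0 B).card + (Ek 1 B).card * (Ok 1 B).card + (Ek 2 B).card * (Ok 2 B).card := by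
  have a1 := NN_le_list (cm 2 1 B) (cm 2 0 B) (tr B) [(Ok 0 B, Ek 0 B, tr B), (Ok 1 B, Ek 1 B, tr B),
    (Ok 2 B, Ek 2 B, tr B)] (by
    intro x hx y hy hz
    rw [mem_cm] at hx hy
    have h1 : (2 * x + y) % 3 = 0 := by
      rw [tr, Finset.mem_image] at hz
      obtain ⟨u, _, hu⟩ := hz
      omega
    simp only [List.mem_cons, List.not_mem_nil, or_false, exists_eq_or_imp, exists_eq_left,
      Ok, Ek, Finset.mem_filter, hx.1, hy.1, hz, true_and, and_true]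
    omega)
  simp only [List.map_cons, List.map_nil, List.sum_cons, List.sum_nil] at a1
  have b0 := NN_xy (Ok 0 B) (Ek 0 B) (tr B)
  have b1 := NN_xy (Ok 1 B) (Ek 1 B) (tr B)
  have b2 := NN_xy (Ok 2 B) (Ek 2 B) (tr B)
  nlinarith

lemma C2_S' (B : Finset ℤ) : NN (cm 2 0 B) (cm 2 1 B) (tr B) ≤
    (Ek 0 B).card * (Ok 0 B).card + (Ek 1 B).card * (Ok 1 B).card + (Ek 2 B).card * (Ok 2 B).card := by
  have a1 := NN_le_list (cm 2 0 B) (cm 2 1 B) (tr B) [(Ek 0 B, Ok 0 B, tr B), (Ek 1 B, Ok 1 B, tr B),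
    (Ek 2 B, Ok 2 B, tr B)] (by
    intro x hx y hy hz
    rw [mem_cm] at hx hy
    have h1 : (2 * x + y) % 3 = 0 := by
      rw [tr, Finset.mem_image] at hz
      obtain ⟨u, _, hu⟩ := hz
      omega
    simp only [List.mem_cons, List.not_mem_nil, or_false, exists_eq_or_imp, exists_eq_left,
      Ok, Ek, Finset.mem_filter, hx.1, hy.1, hz, true_and, and_true]
    omega)
  simp only [List.map_cons, List.map_nil, List.sum_cons, List.sum_nil] at a1
  have b0 := NN_xy (Ek 0 B) (Ok 0 B) (tr B)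
  have b1 := NN_xy (Ek 1 B) (Ok 1 B) (tr B)
  have b2 := NN_xy (Ek 2 B) (Ok 2 B) (tr B)
  linarith

lemma C2_o (B : Finset ℤ) : (NN (cm 2 0 B) (cm 2 1 B) (tr B) : ℝ) ≤ ((cm 2 1 B).card : ℝ) ^ 2 / 2 := by
  have h1 : NN (cm 2 0 B) (cm 2 1 B) (tr B) ≤
      ((cm 4 1 B ×ˢ cm 4 3 B) ∪ (cm 4 3 B ×ˢ cm 4 1 B)).card := by
    unfold NN
    apply Finset.card_le_card_of_injOn (fun p : ℤ × ℤ => (p.2, (2 * p.1 + p.2) / 3))
    · rintro ⟨x, y⟩ hh
      simp only [Finset.coe_filter, Finset.mem_product, Set.mem_ofPred_eq, tr,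
        Finset.mem_image, Finset.coe_union, Finset.coe_product, Set.mem_union, Set.mem_prod,
        Finset.mem_coe, mem_cm] at hh ⊢
      obtain ⟨⟨⟨hx, hx2⟩, ⟨hy, hy2⟩⟩, z, hz, hz2⟩ := hh
      have h3 : (2 * x + y) / 3 = z := by omega
      rw [h3]
      simp only [hy, hz, true_and]
      omega
    · rintro ⟨x, y⟩ hh ⟨x', y'⟩ hh' heq
      simp only [Finset.coe_filter, Finset.mem_product, Set.mem_ofPred_eq, tr,
        Finset.mem_image] at hh hh'
      obtain ⟨_, z, _, hz⟩ := hh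
      obtain ⟨_, z', _, hz'⟩ := hh'
      simp only [Prod.mk.injEq] at heq ⊢
      omega
  have h2 := le_trans h1 (Finset.card_union_le _ _)
  rw [Finset.card_product, Finset.card_product] at h2
  have h3 : (cm 2 1 B).card = (cm 4 1 B).card + (cm 4 3 B).card := by
    unfold cm
    apply card_part
    · intro x; omega
    · intro x; omega
  have h2' : (NN (cm 2 0 B) (cm 2 1 B) (tr B) : ℝ) ≤ (cm 4 1 B).card * (cm 4 3 B).card +
    (cm 4 3 B).card * (cm 4 1 B).card := by exact_mod_cast h2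
  have h3' : ((cm 2 1 B).card : ℝ) = (cm 4 1 B).card + (cm 4 3 B).card := by exact_mod_cast h3
  rw [h3']
  nlinarith [sq_nonneg (((cm 4 1 B).card : ℝ) - (cm 4 3 B).card)]

end Pool.Agent.M4074H
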