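import Mathlib
import Pool.Agent.M4074.Wire
import Pool.Agent.M4074.Glue

set_option autoImplicit false

namespace Pool.Agent.M4074R

/-- data of the two-class problem in the remaining region -/
structure Dat (f0 f1 f2 g0 g1 g2 o0 o1 o2 w0 w2 Y0 Y1 Y2 Z0 Z1 Z2 U0 U1 U2 V0 V1 V2 : ℝ) : Prop where
  hf0 : 0 ≤ f0
  hf1 : 0 ≤ f1
  hf2 : 0 ≤ f2
  hg0 : 0 ≤ g0
  hg1 : 0 ≤ g1
  hg2 : 0 ≤ g2
  ho0 : 0 ≤ o0
  ho1 : 0 ≤ o1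
  ho2 : 0 ≤ o2
  hw0 : 0 ≤ w0
  hw2 : 0 ≤ w2
  ho : 0 < o0 + o1 + o2
  hY0 : Y0 ≤ w0 * (f0 + g0)
  hY0' : Y0 ≤ w0 * f1
  hY0'' : Y0 ≤ (f0 + g0) * f1
  hY1 : Y1 ≤ w0 * (f1 + g1)
  hY1' : Y1 ≤ w0 * f2
  hY1'' : Y1 ≤ (f1 + g1) * f2
  hY2 : Y2 ≤ w0 * (f2 + g2)
  hY2' : Y2 ≤ w0 * f0
  hY2'' : Y2 ≤ (f2 + g2) * f0
  hZ0 : Z0 ≤ w2 * (f0 + g0)
  hZ0' : Z0 ≤ w2 * g1
  hZ0'' : Z0 ≤ (f0 + g0) * g1
  hZ1 : Z1 ≤ w2 * (f1 + g1)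
  hZ1' : Z1 ≤ w2 * g2
  hZ1'' : Z1 ≤ (f1 + g1) * g2
  hZ2 : Z2 ≤ w2 * (f2 + g2)
  hZ2' : Z2 ≤ w2 * g0
  hZ2'' : Z2 ≤ (f2 + g2) * g0
  hU0 : Cell U0 g1 o0 w0
  hU1 : Cell U1 g2 o1 w0
  hU2 : Cell U2 g0 o2 w0
  hV0 : Cell V0 f1 o0 w2
  hV1 : Cell V1 f2 o1 w2
  hV2 : Cell V2 f0 o2 w2
  hw3 : o0 + o1 + o2 < 3 * (w0 + w2)
  hwe : w0 + w2 ≤ f0 + f1 + f2 + (g0 + g1 + g2)
  hT : 3 * (o0 + o1 + o2) < f0 + f1 + f2 + (g0 + g1 + g2) + (o0 + o1 + o2) + (w0 + w2)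
  hP : (o0 + o1 + o2) * (3 * (f0 + f1 + f2 + (g0 + g1 + g2)) - (o0 + o1 + o2)) <
        2 * (f0 + f1 + f2 + (g0 + g1 + g2) + (o0 + o1 + o2) - (w0 + w2)) ^ 2
  hreg : (1000 * (o0 + o1 + o2) ≤ 303 * (f0 + f1 + f2 + (g0 + g1 + g2) + (o0 + o1 + o2)) ∧
        (o0 + o1 + o2) ≤ 2 * (w0 + w2) ∧
        3 * (o0 + o1 + o2) ≤ f0 + f1 + f2 + (g0 + g1 + g2) + (w0 + w2)) ∨
      (3 * (f0 + f1 + f2 + (g0 + g1 + g2) + (o0 + o1 + o2)) ≤ 10 * (o0 + o1 + o2) ∧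
        (o0 + o1 + o2) < f0 + f1 + f2 + (g0 + g1 + g2) ∧
        2/3 * (f0 + f1 + f2 + (g0 + g1 + g2) + (o0 + o1 + o2)) ≤ 19/12 * (w0 + w2) + (o0 + o1 + o2))
  hrem : w0 = 0 ∨ w2 = 0 ∨
    f0 + f1 + f2 + (g0 + g1 + g2) + (o0 + o1 + o2) ≤ 3 * (w0 + w2) + 3 * (o0 + o1 + o2)

/-- the conclusion: one of the two options -/
def Lag (f0 f1 f2 g0 g1 g2 o0 o1 o2 w0 w2 Y0 Y1 Y2 Z0 Z1 Z2 U0 U1 U2 V0 V1 V2 : ℝ) : Prop :=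
  2 * ((Y0 + Y1 + Y2 + (Z0 + Z1 + Z2)) + (U0 + U1 + U2 + (V0 + V1 + V2))) +
    (((f0 + g0) * o0 + (f1 + g1) * o1 + (f2 + g2) * o2) + (o0 + o1 + o2) ^ 2 / 2 -
      2/3 * (f0 + f1 + f2 + (g0 + g1 + g2)) * (o0 + o1 + o2)) ≤
    2 * ((2 * (f0 + f1 + f2 + (g0 + g1 + g2) + (o0 + o1 + o2)) * (w0 + w2) - (w0 + w2) ^ 2) / 3) ∨
  2 * (U0 + U1 + U2 + (V0 + V1 + V2)) +
    (((f0 + g0) * o0 + (f1 + g1) * o1 + (f2 + g2) * o2) + (o0 + o1 + o2) ^ 2 / 2 -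
      2/3 * (f0 + f1 + f2 + (g0 + g1 + g2)) * (o0 + o1 + o2)) ≤
    2 * (2/3 * (o0 + o1 + o2) * (w0 + w2))

/-- what is needed for the two-class problem -/
def DProp : Prop := ∀ f0 f1 f2 g0 g1 g2 o0 o1 o2 w0 w2 Y0 Y1 Y2 Z0 Z1 Z2 U0 U1 U2 V0 V1 V2 : ℝ,
  Dat f0 f1 f2 g0 g1 g2 o0 o1 o2 w0 w2 Y0 Y1 Y2 Z0 Z1 Z2 U0 U1 U2 V0 V1 V2 →
  Lag f0 f1 f2 g0 g1 g2 o0 o1 o2 w0 w2 Y0 Y1 Y2 Z0 Z1 Z2 U0 U1 U2 V0 V1 V2

end Pool.Agent.M4074R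

namespace Pool.Agent.M4074H

open Pool.Agent.M4074R

lemma eta_lt (b w : ℝ) (h : w ≤ b) : eta b w = (2 * b * w - w ^ 2) / 3 := by
  unfold eta
  rw [max_eq_left (by linarith)]
  ring

lemma eta_ge (b w : ℝ) (h : b ≤ w) : eta b w = b ^ 2 / 3 := by
  unfold eta
  rw [max_eq_right (by linarith)]
  ring

lemma card_cm4 (W : Finset ℤ) (he : ∀ w ∈ W, w % 2 = 0) :
    W.card = (cm 4 0 W).card + (cm 4 2 W).card := by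
  have h : W.filter (fun w => w % 2 = 0) = W := by
    rw [Finset.filter_eq_self]
    exact he
  conv_lhs => rw [← h]
  unfold cm
  apply card_part
  · intro x; omega
  · intro x; omega

lemma yb (X Y W : Finset ℤ) : (NN X Y W : ℝ) ≤ W.card * X.card ∧ (NN X Y W : ℝ) ≤ W.card * Y.card ∧
    (NN X Y W : ℝ) ≤ X.card * Y.card := by
  refine ⟨?_, ?_, ?_⟩
  · have := NN_xw X Y W; rw [mul_comm]; exact_mod_cast this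
  · have := NN_yw X Y W; rw [mul_comm]; exact_mod_cast this
  · have := NN_xy X Y W; exact_mod_cast this

lemma cellY (X Y W : Finset ℤ) : Cell ((NN X Y W : ℝ) - 1/4) Y.card X.card W.card := by
  have hxy : (NN X Y W : ℝ) ≤ X.card * Y.card := by exact_mod_cast NN_xy X Y W
  have hxw : (NN X Y W : ℝ) ≤ X.card * W.card := by exact_mod_cast NN_xw X Y W
  have hyw : (NN X Y W : ℝ) ≤ Y.card * W.card := by exact_mod_cast NN_yw X Y W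
  refine ⟨by linarith, by linarith, by linarith, ?_⟩
  intro s hs0 hsw h
  by_cases hse : s ≤ X.card
  · have := RY X Y W s hs0 hse hsw
    linarith
  · push Not at hse
    rcases h with h | h
    · linarith
    · nlinarith [mul_nonneg (sub_nonneg.mpr h) (sub_nonneg.mpr hse.le)]

/-- the even case -/
theorem even_opts (hDP : DProp) (D : ℝ) (hD : 5 ≤ D) (B W : Finset ℤ) (hW : ∀ w ∈ W, w % 3 = 1)
    (hev : ∀ w ∈ W, w % 2 = 0) (hopos : 0 < (cm 2 1 B).card) (hepos : 0 < (cm 2 0 B).card)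
    (hrem : (cm 4 0 W).card = 0 ∨ (cm 4 2 W).card = 0 ∨
      (W.card < B.card → (B.card : ℝ) ≤ 3 * W.card + 3 * (cm 2 1 B).card)) : Opts D B W := by
  have d3 := dec3 B W hW hev
  have d12 := dec12 B W hW hev
  have dX := decX B W hW hev
  have c1 := C2_S B
  have c2 := C2_o B
  have cE := card_E B
  have cO := card_O B
  have cB := card_B B
  have cW := card_cm4 W hev
  have cE0 := card_Ek 0 B
  have cE1 := card_Ek 1 B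
  have cE2 := card_Ek 2 B
  have cB0 := card_Bk 0 B
  have cB1 := card_Bk 1 B
  have cB2 := card_Bk 2 B
  have n0 := cell (cm 3 0 B) (Ek 1 B) W
  have n1 := cell (cm 3 1 B) (Ek 2 B) W
  have n2 := cell (cm 3 2 B) (Ek 0 B) W
  have y0 := yb (Ek 0 B) (Fk 1 B) (cm 4 0 W)
  have y1 := yb (Ek 1 B) (Fk 2 B) (cm 4 0 W)
  have y2 := yb (Ek 2 B) (Fk 0 B) (cm 4 0 W)
  have z0 := yb (Ek 0 B) (Gk 1 B) (cm 4 2 W)
  have z1 := yb (Ek 1 B) (Gk 2 B) (cm 4 2 W)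
  have z2 := yb (Ek 2 B) (Gk 0 B) (cm 4 2 W)
  have u0 := cellY (Ok 0 B) (Gk 1 B) (cm 4 0 W)
  have u1 := cellY (Ok 1 B) (Gk 2 B) (cm 4 0 W)
  have u2 := cellY (Ok 2 B) (Gk 0 B) (cm 4 0 W)
  have v0 := cellY (Ok 0 B) (Fk 1 B) (cm 4 2 W)
  have v1 := cellY (Ok 1 B) (Fk 2 B) (cm 4 2 W)
  have v2 := cellY (Ok 2 B) (Fk 0 B) (cm 4 2 W)
  have d3' : (NN B B W : ℝ) ≤ NN (cm 3 0 B) (Ek 1 B) W + NN (cm 3 1 B) (Ek 2 B) W +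
    NN (cm 3 2 B) (Ek 0 B) W := by exact_mod_cast d3
  have d12' : (NN B B W : ℝ) ≤
      ((NN (Ek 0 B) (Fk 1 B) (cm 4 0 W) : ℝ) + NN (Ek 1 B) (Fk 2 B) (cm 4 0 W) +
        NN (Ek 2 B) (Fk 0 B) (cm 4 0 W)) +
      ((NN (Ek 0 B) (Gk 1 B) (cm 4 2 W) : ℝ) + NN (Ek 1 B) (Gk 2 B) (cm 4 2 W) +
        NN (Ek 2 B) (Gk 0 B) (cm 4 2 W)) +
      (((NN (Ok 0 B) (Gk 1 B) (cm 4 0 W) : ℝ) + NN (Ok 1 B) (Gk 2 B) (cm 4 0 W) +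
        NN (Ok 2 B) (Gk 0 B) (cm 4 0 W)) +
      ((NN (Ok 0 B) (Fk 1 B) (cm 4 2 W) : ℝ) + NN (Ok 1 B) (Fk 2 B) (cm 4 2 W) +
        NN (Ok 2 B) (Fk 0 B) (cm 4 2 W))) := by exact_mod_cast d12
  have dX' : (XX B W : ℝ) ≤
      ((NN (Ok 0 B) (Gk 1 B) (cm 4 0 W) : ℝ) + NN (Ok 1 B) (Gk 2 B) (cm 4 0 W) +
        NN (Ok 2 B) (Gk 0 B) (cm 4 0 W)) +
      ((NN (Ok 0 B) (Fk 1 B) (cm 4 2 W) : ℝ) + NN (Ok 1 B) (Fk 2 B) (cm 4 2 W) +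
        NN (Ok 2 B) (Fk 0 B) (cm 4 2 W)) := by exact_mod_cast dX
  have cC : (C2 B : ℝ) ≤ ((Ek 0 B).card * (Ok 0 B).card + (Ek 1 B).card * (Ok 1 B).card +
      (Ek 2 B).card * (Ok 2 B).card) + ((cm 2 1 B).card : ℝ) ^ 2 / 2 := by
    have : (NN (cm 2 1 B) (cm 2 0 B) (tr B) : ℝ) ≤ ((Ek 0 B).card * (Ok 0 B).card +
      (Ek 1 B).card * (Ok 1 B).card + (Ek 2 B).card * (Ok 2 B).card) := by exact_mod_cast c1
    unfold C2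
    push_cast
    linarith
  have hw2 : (cm 2 0 W).card = W.card := by
    congr 1
    unfold cm
    rw [Finset.filter_eq_self]
    exact hev
  have hw21 : (cm 2 1 W).card = 0 := by
    have := card_cm2 W
    omega
  unfold Opts
  rw [hw2, hw21]
  clear d3 d12 dX c1 c2
  obtain ⟨f0, hf0⟩ : ∃ x : ℝ, x = (Fk 0 B).card := ⟨_, rfl⟩
  obtain ⟨f1, hf1⟩ : ∃ x : ℝ, x = (Fk 1 B).card := ⟨_, rfl⟩
  obtain ⟨f2, hf2⟩ : ∃ x : ℝ, x = (Fk 2 B).card := ⟨_, rfl⟩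
  obtain ⟨g0, hg0⟩ : ∃ x : ℝ, x = (Gk 0 B).card := ⟨_, rfl⟩
  obtain ⟨g1, hg1⟩ : ∃ x : ℝ, x = (Gk 1 B).card := ⟨_, rfl⟩
  obtain ⟨g2, hg2⟩ : ∃ x : ℝ, x = (Gk 2 B).card := ⟨_, rfl⟩
  obtain ⟨o0, ho0⟩ : ∃ x : ℝ, x = (Ok 0 B).card := ⟨_, rfl⟩
  obtain ⟨o1, ho1⟩ : ∃ x : ℝ, x = (Ok 1 B).card := ⟨_, rfl⟩
  obtain ⟨o2, ho2⟩ : ∃ x : ℝ, x = (Ok 2 B).card := ⟨_, rfl⟩
  obtain ⟨w0, hw0⟩ : ∃ x : ℝ, x = (cm 4 0 W).card := ⟨_, rfl⟩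
  obtain ⟨w2, hw2'⟩ : ∃ x : ℝ, x = (cm 4 2 W).card := ⟨_, rfl⟩
  have E0 : ((Ek 0 B).card : ℝ) = f0 + g0 := by rw [hf0, hg0]; exact_mod_cast cE0
  have E1 : ((Ek 1 B).card : ℝ) = f1 + g1 := by rw [hf1, hg1]; exact_mod_cast cE1
  have E2 : ((Ek 2 B).card : ℝ) = f2 + g2 := by rw [hf2, hg2]; exact_mod_cast cE2
  have BB0 : ((cm 3 0 B).card : ℝ) = f0 + g0 + o0 := by
    rw [← E0, ho0]; exact_mod_cast cB0
  have BB1 : ((cm 3 1 B).card : ℝ) = f1 + g1 + o1 := by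
    rw [← E1, ho1]; exact_mod_cast cB1
  have BB2 : ((cm 3 2 B).card : ℝ) = f2 + g2 + o2 := by
    rw [← E2, ho2]; exact_mod_cast cB2
  have EE : ((cm 2 0 B).card : ℝ) = f0 + g0 + (f1 + g1) + (f2 + g2) := by
    rw [← E0, ← E1, ← E2]; exact_mod_cast cE
  have OO : ((cm 2 1 B).card : ℝ) = o0 + o1 + o2 := by
    rw [ho0, ho1, ho2]; exact_mod_cast cO
  have BB : (B.card : ℝ) = f0 + g0 + (f1 + g1) + (f2 + g2) + (o0 + o1 + o2) := by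
    rw [← E0, ← E1, ← E2, ho0, ho1, ho2]; exact_mod_cast cB
  have WW : (W.card : ℝ) = w0 + w2 := by
    rw [hw0, hw2']; exact_mod_cast cW
  have pf0 : 0 ≤ f0 := by rw [hf0]; positivity
  have pf1 : 0 ≤ f1 := by rw [hf1]; positivity
  have pf2 : 0 ≤ f2 := by rw [hf2]; positivity
  have pg0 : 0 ≤ g0 := by rw [hg0]; positivity
  have pg1 : 0 ≤ g1 := by rw [hg1]; positivity
  have pg2 : 0 ≤ g2 := by rw [hg2]; positivity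
  have po0 : 0 ≤ o0 := by rw [ho0]; positivity
  have po1 : 0 ≤ o1 := by rw [ho1]; positivity
  have po2 : 0 ≤ o2 := by rw [ho2]; positivity
  have pw0 : 0 ≤ w0 := by rw [hw0]; positivity
  have pw2 : 0 ≤ w2 := by rw [hw2']; positivity
  have hopos' : 0 < o0 + o1 + o2 := by rw [← OO]; exact_mod_cast hopos
  have hepos' : 0 < f0 + g0 + (f1 + g1) + (f2 + g2) := by rw [← EE]; exact_mod_cast hepos
  have hrem' : w0 = 0 ∨ w2 = 0 ∨ (w0 + w2 < f0 + g0 + (f1 + g1) + (f2 + g2) + (o0 + o1 + o2) →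
      f0 + g0 + (f1 + g1) + (f2 + g2) + (o0 + o1 + o2) ≤ 3 * (w0 + w2) + 3 * (o0 + o1 + o2)) := by
    rcases hrem with h | h | h
    · left; rw [hw0, h]; simp
    · right; left; rw [hw2', h]; simp
    · right; right
      rw [← BB, ← WW, ← OO]
      intro h'
      exact h (by exact_mod_cast h')
  rw [BB0, E1, WW] at n0
  rw [BB1, E2, WW] at n1
  rw [BB2, E0, WW] at n2
  rw [E0, ← hf1, ← hw0] at y0
  rw [E1, ← hf2, ← hw0] at y1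
  rw [E2, ← hf0, ← hw0] at y2
  rw [E0, ← hg1, ← hw2'] at z0
  rw [E1, ← hg2, ← hw2'] at z1
  rw [E2, ← hg0, ← hw2'] at z2
  rw [← hg1, ← ho0, ← hw0] at u0
  rw [← hg2, ← ho1, ← hw0] at u1
  rw [← hg0, ← ho2, ← hw0] at u2
  rw [← hf1, ← ho0, ← hw2'] at v0
  rw [← hf2, ← ho1, ← hw2'] at v1
  rw [← hf0, ← ho2, ← hw2'] at v2
  rw [E0, E1, E2, ← ho0, ← ho1, ← ho2, OO] at cC
  rw [BB, EE, OO, WW]
  clear hrem cE cO cB cW cE0 cE1 cE2 cB0 cB1 cB2 hw2 hw21 E0 E1 E2 BB0 BB1 BB2 EE OO BB WW hf0 hf1 hf2 hg0 hg1 hg2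
    ho0 ho1 ho2 hw0 hw2' hopos hepos
  generalize (NN B B W : ℝ) = N at *
  generalize (XX B W : ℝ) = X at *
  generalize (C2 B : ℝ) = C at *
  generalize (NN (cm 3 0 B) (Ek 1 B) W : ℝ) = N0 at *
  generalize (NN (cm 3 1 B) (Ek 2 B) W : ℝ) = N1 at *
  generalize (NN (cm 3 2 B) (Ek 0 B) W : ℝ) = N2 at *
  generalize (NN (Ek 0 B) (Fk 1 B) (cm 4 0 W) : ℝ) = Y0 at *
  generalize (NN (Ek 1 B) (Fk 2 B) (cm 4 0 W) : ℝ) = Y1 at *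
  generalize (NN (Ek 2 B) (Fk 0 B) (cm 4 0 W) : ℝ) = Y2 at *
  generalize (NN (Ek 0 B) (Gk 1 B) (cm 4 2 W) : ℝ) = Z0 at *
  generalize (NN (Ek 1 B) (Gk 2 B) (cm 4 2 W) : ℝ) = Z1 at *
  generalize (NN (Ek 2 B) (Gk 0 B) (cm 4 2 W) : ℝ) = Z2 at *
  generalize (NN (Ok 0 B) (Gk 1 B) (cm 4 0 W) : ℝ) = U0 at *
  generalize (NN (Ok 1 B) (Gk 2 B) (cm 4 0 W) : ℝ) = U1 at *
  generalize (NN (Ok 2 B) (Gk 0 B) (cm 4 0 W) : ℝ) = U2 at *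
  generalize (NN (Ok 0 B) (Fk 1 B) (cm 4 2 W) : ℝ) = V0 at *
  generalize (NN (Ok 1 B) (Fk 2 B) (cm 4 2 W) : ℝ) = V1 at *
  generalize (NN (Ok 2 B) (Fk 0 B) (cm 4 2 W) : ℝ) = V2 at *
  rcases le_or_gt (f0 + g0 + (f1 + g1) + (f2 + g2) + (o0 + o1 + o2)) (w0 + w2) with hwb | hwb
  · left
    rw [eta_ge _ _ hwb]
    have a0 := n0.1
    have a1 := n1.1
    have a2 := n2.1
    nlinarith [sq_nonneg ((f0 + g0 + o0) - (f1 + g1 + o1)), sq_nonneg ((f1 + g1 + o1) - (f2 + g2 + o2)),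
      sq_nonneg ((f0 + g0 + o0) - (f2 + g2 + o2)), mul_nonneg (add_nonneg (add_nonneg pf0 pg0) po0) po1,
      mul_nonneg (add_nonneg (add_nonneg pf1 pg1) po1) po2,
      mul_nonneg (add_nonneg (add_nonneg pf2 pg2) po2) po0]
  rw [eta_lt _ _ hwb.le]
  rcases glue (f0 + g0) (f1 + g1) (f2 + g2) o0 o1 o2 (w0 + w2) (N0 - 1/4) (N1 - 1/4) (N2 - 1/4)
    (by positivity) (by positivity) (by positivity) po0 po1 po2 (by positivity) hopos' hepos' hwb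
    n0 n1 n2 with h | h | ⟨h1, h2, h3, h4, h5⟩
  · left
    linarith
  · right; left
    linarith
  rw [eta_lt _ _ h2, show eta (o0 + o1 + o2) ((0 : ℕ) : ℝ) = 0 by
    rw [Nat.cast_zero]; exact eta_zero _ hopos'.le]
  have hL : Lag f0 f1 f2 g0 g1 g2 o0 o1 o2 w0 w2 Y0 Y1 Y2 Z0 Z1 Z2 (U0 - 1/4) (U1 - 1/4) (U2 - 1/4)
      (V0 - 1/4) (V1 - 1/4) (V2 - 1/4) := by
    apply hDP
    refine ⟨pf0, pf1, pf2, pg0, pg1, pg2, po0, po1, po2, pw0, pw2, hopos', ?_, ?_, ?_, ?_, ?_, ?_,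
      ?_, ?_, ?_, ?_, ?_, ?_, ?_, ?_, ?_, ?_, ?_, ?_, u0, u1, u2, v0, v1, v2, h1, ?_, ?_, ?_, ?_, ?_⟩
    · exact y0.1
    · exact y0.2.1
    · exact y0.2.2
    · exact y1.1
    · exact y1.2.1
    · exact y1.2.2
    · exact y2.1
    · exact y2.2.1
    · exact y2.2.2
    · exact z0.1
    · exact z0.2.1
    · exact z0.2.2
    · exact z1.1
    · exact z1.2.1
    · exact z1.2.2
    · exact z2.1
    · exact z2.2.1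
    · exact z2.2.2
    · linarith
    · linarith
    · have q1 : f0 + f1 + f2 + (g0 + g1 + g2) = f0 + g0 + (f1 + g1) + (f2 + g2) := by ring
      rw [q1]; exact h4
    · have q1 : f0 + f1 + f2 + (g0 + g1 + g2) = f0 + g0 + (f1 + g1) + (f2 + g2) := by ring
      rw [q1]; exact h5
    · have q1 : f0 + f1 + f2 + (g0 + g1 + g2) = f0 + g0 + (f1 + g1) + (f2 + g2) := by ring
      rw [q1]
      rcases hrem' with h | h | h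
      · left; exact h
      · right; left; exact h
      · right; right; exact h hwb
  unfold Lag at hL
  rcases hL with h | h
  · right; left
    linarith
  · right; right
    linarith

end Pool.Agent.M4074H
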