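import Mathlib
import Pool.Agent.M4074.Even

set_option autoImplicit false

namespace Pool.Agent.M4074H

open Pool.Agent.M4074R

theorem cruxSingle (hDP : DProp) : CruxSingle 5 := by
  intro B W hW h4 ho he
  apply even_opts hDP 5 le_rfl B W hW ?_ ho he
  · rcases h4 with h4 | h4
    · right; left
      rw [Finset.card_eq_zero]
      unfold cm
      rw [Finset.filter_eq_empty_iff]
      intro x hx
      have := h4 x hx
      omega
    · left
      rw [Finset.card_eq_zero]
      unfold cm
      rw [Finset.filter_eq_empty_iff]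
      intro x hx
      have := h4 x hx
      omega
  · intro w hw
    rcases h4 with h4 | h4
    · have := h4 w hw; omega
    · have := h4 w hw; omega

lemma NN_W0 (B W : Finset ℤ) : NN B B (cm 4 0 W) ≤
    (cm 4 0 B).card * (cm 4 0 W).card + (cm 2 1 B).card * (cm 4 0 W).card := by
  have h1 : NN B B (cm 4 0 W) ≤ NN B (cm 4 0 B) (cm 4 0 W) + NN (cm 2 1 B) B (cm 4 0 W) := by
    apply NN_le_add
    intro x hx y hy hz
    have h2 := ((mem_cm _ _ _ _).mp hz).2
    simp only [hx, hy, hz, true_and, and_true, mem_cm] at *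
    omega
  have h2 := NN_yw B (cm 4 0 B) (cm 4 0 W)
  have h3 := NN_xw (cm 2 1 B) B (cm 4 0 W)
  omega

lemma NN_W2 (B W : Finset ℤ) : NN B B (cm 4 2 W) ≤
    (cm 4 2 B).card * (cm 4 2 W).card + (cm 2 1 B).card * (cm 4 2 W).card := by
  have h1 : NN B B (cm 4 2 W) ≤ NN B (cm 4 2 B) (cm 4 2 W) + NN (cm 2 1 B) B (cm 4 2 W) := by
    apply NN_le_add
    intro x hx y hy hz
    have h2 := ((mem_cm _ _ _ _).mp hz).2
    simp only [hx, hy, hz, true_and, and_true, mem_cm] at *
    omega
  have h2 := NN_yw B (cm 4 2 B) (cm 4 2 W)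
  have h3 := NN_xw (cm 2 1 B) B (cm 4 2 W)
  omega

lemma card_cm4B (B : Finset ℤ) :
    B.card = (cm 4 0 B).card + (cm 4 2 B).card + (cm 2 1 B).card := by
  rw [card_cm2 B]
  have : (cm 2 0 B).card = (cm 4 0 B).card + (cm 4 2 B).card := by
    unfold cm
    apply card_part
    · intro x; omega
    · intro x; omega
  omega

theorem cruxDouble (hDP : DProp) : CruxDouble 5 := by
  intro B W hW hev ho he hr0 hr2
  apply even_opts hDP 5 le_rfl B W hW hev ho he
  right; right
  intro hlt
  have hlt' : (W.card : ℝ) < B.card := by exact_mod_cast hlt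
  have cW := card_cm4 W hev
  have cB := card_cm4B B
  have a0 : (NN B B (cm 4 0 W) : ℝ) ≤
    (cm 4 0 B).card * (cm 4 0 W).card + (cm 2 1 B).card * (cm 4 0 W).card := by
    exact_mod_cast NN_W0 B W
  have a2 : (NN B B (cm 4 2 W) : ℝ) ≤
    (cm 4 2 B).card * (cm 4 2 W).card + (cm 2 1 B).card * (cm 4 2 W).card := by
    exact_mod_cast NN_W2 B W
  have cW' : (W.card : ℝ) = (cm 4 0 W).card + (cm 4 2 W).card := by exact_mod_cast cW
  have cB' : (B.card : ℝ) = (cm 4 0 B).card + (cm 4 2 B).card + (cm 2 1 B).card := by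
    exact_mod_cast cB
  have p0 : (0:ℝ) ≤ (cm 4 0 W).card := by positivity
  have p2 : (0:ℝ) ≤ (cm 4 2 W).card := by positivity
  rw [eta_lt _ _ hlt'.le, eta_lt _ _ (by linarith)] at hr0 hr2
  generalize (NN B B (cm 4 0 W) : ℝ) = N0 at *
  generalize (NN B B (cm 4 2 W) : ℝ) = N2 at *
  generalize ((cm 4 0 W).card : ℝ) = w0 at *
  generalize ((cm 4 2 W).card : ℝ) = w2 at *
  generalize ((cm 4 0 B).card : ℝ) = f at *
  generalize ((cm 4 2 B).card : ℝ) = g at *
  generalize ((cm 2 1 B).card : ℝ) = o at *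
  generalize (W.card : ℝ) = w at *
  generalize (B.card : ℝ) = b at *
  subst cW' cB'
  have k0 : 2 * (f + g + o) - (w0 + w2) - w2 < 3 * (f + o) := by
    by_contra hc
    push Not at hc
    have := mul_le_mul_of_nonneg_left hc p0
    nlinarith
  have k2 : 2 * (f + g + o) - (w0 + w2) - w0 < 3 * (g + o) := by
    by_contra hc
    push Not at hc
    have := mul_le_mul_of_nonneg_left hc p2
    nlinarith
  linarith

end Pool.Agent.M4074H
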