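import Pool.Agent.M4074.GData

namespace Pool.Agent.M4074G

theorem triIn {α β γ w1 o1 w2 o2 w3 o3 w o m1 m2 m3 : ℝ} (h1 : α + β * w1 + γ * o1 ≤ 0)
    (h2 : α + β * w2 + γ * o2 ≤ 0) (h3 : α + β * w3 + γ * o3 ≤ 0) (k1 : 0 ≤ m1) (k2 : 0 ≤ m2)
    (k3 : 0 ≤ m3) (hs : m1 + m2 + m3 = 1) (hw : w = m1 * w1 + m2 * w2 + m3 * w3)
    (ho : o = m1 * o1 + m2 * o2 + m3 * o3) : α + β * w + γ * o ≤ 0 := by
  have e1 := mul_nonpos_of_nonneg_of_nonpos k1 h1
  have e2 := mul_nonpos_of_nonneg_of_nonpos k2 h2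
  have e3 := mul_nonpos_of_nonneg_of_nonpos k3 h3
  subst hw ho
  have : α = α * (m1 + m2 + m3) := by rw [hs]; ring
  nlinarith

theorem q1_in {w o : ℝ} (c0 : 0 ≤ o) (c1 : o ≤ 1 / 10) (c2 : w ≤ 9 / 20) (c3 : 1 / 3 ≤ w + o) : InP 60 q1L w o := by
  intro α β γ h
  have v0 : α + β * (1 / 3) + γ * (0) ≤ 0 := by
    have := h (20, 0) (by simp [q1L])
    push_cast at this
    linarith
  have v1 : α + β * (9 / 20) + γ * (0) ≤ 0 := by
    have := h (27, 0) (by simp [q1L])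
    push_cast at this
    linarith
  have v2 : α + β * (9 / 20) + γ * (1 / 10) ≤ 0 := by
    have := h (27, 6) (by simp [q1L])
    push_cast at this
    linarith
  have v3 : α + β * (7 / 30) + γ * (1 / 10) ≤ 0 := by
    have := h (14, 6) (by simp [q1L])
    push_cast at this
    linarith
  rcases le_total 0 ((-20 / 7) + (60 / 7) * w + (-10) * o) with hh1 | hh1
  · exact triIn v0 v1 v2 (m1 := ((27 / 7) + (-60 / 7) * w + (0) * o)) (m2 := ((-20 / 7) + (60 / 7) * w + (-10) * o)) (m3 := ((0) + (0) * w + (10) * o)) (by linarith) (by linarith) (by linarith) (by ring) (by ring) (by ring)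
  · exact triIn v0 v2 v3 (m1 := ((1) + (0) * w + (-10) * o)) (m2 := ((-20 / 13) + (60 / 13) * w + (60 / 13) * o)) (m3 := ((20 / 13) + (-60 / 13) * w + (70 / 13) * o)) (by linarith) (by linarith) (by linarith) (by ring) (by ring) (by ring)

theorem q2a_in {w o : ℝ} (c0 : 1 / 10 ≤ o) (c1 : 1 / 3 ≤ w + o) (c2 : 2 * o ≤ w) (c3 : w ≤ 16 / 25 - 14 / 15 * (o - 1 / 10)) : InP 900 q2aL w o := by
  intro α β γ h
  have v0 : α + β * (7 / 30) + γ * (1 / 10) ≤ 0 := by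
    have := h (210, 90) (by simp [q2aL])
    push_cast at this
    linarith
  have v1 : α + β * (16 / 25) + γ * (1 / 10) ≤ 0 := by
    have := h (576, 90) (by simp [q2aL])
    push_cast at this
    linarith
  have v2 : α + β * (1 / 2) + γ * (1 / 4) ≤ 0 := by
    have := h (450, 225) (by simp [q2aL])
    push_cast at this
    linarith
  have v3 : α + β * (2 / 9) + γ * (1 / 9) ≤ 0 := by
    have := h (200, 100) (by simp [q2aL])
    push_cast at this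
    linarith
  rcases le_total 0 ((-25 / 183) + (150 / 61) * w + (-800 / 183) * o) with hh1 | hh1
  · exact triIn v0 v1 v2 (m1 := ((110 / 61) + (-150 / 61) * w + (-140 / 61) * o)) (m2 := ((-25 / 183) + (150 / 61) * w + (-800 / 183) * o)) (m3 := ((-2 / 3) + (0) * w + (20 / 3) * o)) (by linarith) (by linarith) (by linarith) (by ring) (by ring) (by ring)
  · exact triIn v0 v2 v3 (m1 := ((0) + (30) * w + (-60) * o)) (m2 := ((-4 / 5) + (12 / 5) * w + (12 / 5) * o)) (m3 := ((9 / 5) + (-162 / 5) * w + (288 / 5) * o)) (by linarith) (by linarith) (by linarith) (by ring) (by ring) (by ring)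

theorem q2b_in {w o : ℝ} (c0 : 1 / 3 ≤ w + o) (c1 : w ≤ 2 * o) (c2 : o ≤ w) (c3 : o ≤ 303 / 1000) (c4 : w ≤ 1 / 2 - 20 / 53 * (o - 1 / 4)) : InP 9000 q2bL w o := by
  intro α β γ h
  have v0 : α + β * (2 / 9) + γ * (1 / 9) ≤ 0 := by
    have := h (2000, 1000) (by simp [q2bL])
    push_cast at this
    linarith
  have v1 : α + β * (1 / 2) + γ * (1 / 4) ≤ 0 := by
    have := h (4500, 2250) (by simp [q2bL])
    push_cast at this
    linarith
  have v2 : α + β * (12 / 25) + γ * (303 / 1000) ≤ 0 := by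
    have := h (4320, 2727) (by simp [q2bL])
    push_cast at this
    linarith
  have v3 : α + β * (303 / 1000) + γ * (303 / 1000) ≤ 0 := by
    have := h (2727, 2727) (by simp [q2bL])
    push_cast at this
    linarith
  have v4 : α + β * (1 / 6) + γ * (1 / 6) ≤ 0 := by
    have := h (1500, 1500) (by simp [q2bL])
    push_cast at this
    linarith
  rcases le_total 0 ((-4 / 5) + (3454 / 315) * w + (-928 / 63) * o) with hh1 | hh1
  · exact triIn v0 v1 v2 (m1 := ((9 / 5) + (-106 / 35) * w + (-8 / 7) * o)) (m2 := ((-4 / 5) + (3454 / 315) * w + (-928 / 63) * o)) (m3 := ((0) + (-500 / 63) * w + (1000 / 63) * o)) (by linarith) (by linarith) (by linarith) (by ring) (by ring) (by ring)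
  · rcases le_total 0 ((-101000 / 101893) + (1000 / 177) * w + (-727000 / 305679) * o) with hh2 | hh2
    · exact triIn v0 v2 v3 (m1 := ((2727 / 1727) + (0) * w + (-9000 / 1727) * o)) (m2 := ((-101000 / 101893) + (1000 / 177) * w + (-727000 / 305679) * o)) (m3 := ((42000 / 101893) + (-1000 / 177) * w + (2320000 / 305679) * o)) (by linarith) (by linarith) (by linarith) (by ring) (by ring) (by ring)
    · exact triIn v0 v3 v4 (m1 := ((0) + (9) * w + (-9) * o)) (m2 := ((-500 / 409) + (1500 / 409) * w + (1500 / 409) * o)) (m3 := ((909 / 409) + (-5181 / 409) * w + (2181 / 409) * o)) (by linarith) (by linarith) (by linarith) (by ring) (by ring) (by ring)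

theorem q2c_in {w o : ℝ} (c0 : 1 / 3 ≤ w + o) (c1 : w ≤ o) (c2 : o ≤ 303 / 1000) (c3 : o / 2 ≤ w) (c4 : 4 * o - 1 ≤ w) : InP 63000 q2cL w o := by
  intro α β γ h
  have v0 : α + β * (1 / 6) + γ * (1 / 6) ≤ 0 := by
    have := h (10500, 10500) (by simp [q2cL])
    push_cast at this
    linarith
  have v1 : α + β * (303 / 1000) + γ * (303 / 1000) ≤ 0 := by
    have := h (19089, 19089) (by simp [q2cL])
    push_cast at this
    linarith
  have v2 : α + β * (53 / 250) + γ * (303 / 1000) ≤ 0 := by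
    have := h (13356, 19089) (by simp [q2cL])
    push_cast at this
    linarith
  have v3 : α + β * (1 / 7) + γ * (2 / 7) ≤ 0 := by
    have := h (9000, 18000) (by simp [q2cL])
    push_cast at this
    linarith
  have v4 : α + β * (1 / 9) + γ * (2 / 9) ≤ 0 := by
    have := h (7000, 14000) (by simp [q2cL])
    push_cast at this
    linarith
  rcases le_total 0 ((-500 / 409) + (1000 / 91) * w + (-136000 / 37219) * o) with hh1 | hh1
  · exact triIn v0 v1 v2 (m1 := ((909 / 409) + (0) * w + (-3000 / 409) * o)) (m2 := ((-500 / 409) + (1000 / 91) * w + (-136000 / 37219) * o)) (m3 := ((0) + (-1000 / 91) * w + (1000 / 91) * o)) (by linarith) (by linarith) (by linarith) (by ring) (by ring) (by ring)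
  · rcases le_total 0 ((-1000 / 363) + (5000 / 363) * w + (1000 / 363) * o) with hh2 | hh2
    · exact triIn v0 v2 v3 (m1 := ((2) + (2) * w + (-8) * o)) (m2 := ((-1000 / 363) + (5000 / 363) * w + (1000 / 363) * o)) (m3 := ((637 / 363) + (-5726 / 363) * w + (1904 / 363) * o)) (by linarith) (by linarith) (by linarith) (by ring) (by ring) (by ring)
    · exact triIn v0 v3 v4 (m1 := ((0) + (12) * w + (-6) * o)) (m2 := ((-7 / 2) + (21 / 2) * w + (21 / 2) * o)) (m3 := ((9 / 2) + (-45 / 2) * w + (-9 / 2) * o)) (by linarith) (by linarith) (by linarith) (by ring) (by ring) (by ring)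

theorem q3a_in {w o : ℝ} (c0 : 1 / 20 ≤ o) (c1 : o ≤ 1 / 10) (c2 : 9 / 20 ≤ w) (c3 : w ≤ 31 / 50) : InP 100 q3aL w o := by
  intro α β γ h
  have v0 : α + β * (9 / 20) + γ * (1 / 20) ≤ 0 := by
    have := h (45, 5) (by simp [q3aL])
    push_cast at this
    linarith
  have v1 : α + β * (31 / 50) + γ * (1 / 20) ≤ 0 := by
    have := h (62, 5) (by simp [q3aL])
    push_cast at this
    linarith
  have v2 : α + β * (31 / 50) + γ * (1 / 10) ≤ 0 := by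
    have := h (62, 10) (by simp [q3aL])
    push_cast at this
    linarith
  have v3 : α + β * (9 / 20) + γ * (1 / 10) ≤ 0 := by
    have := h (45, 10) (by simp [q3aL])
    push_cast at this
    linarith
  rcases le_total 0 ((-28 / 17) + (100 / 17) * w + (-20) * o) with hh1 | hh1
  · exact triIn v0 v1 v2 (m1 := ((62 / 17) + (-100 / 17) * w + (0) * o)) (m2 := ((-28 / 17) + (100 / 17) * w + (-20) * o)) (m3 := ((-1) + (0) * w + (20) * o)) (by linarith) (by linarith) (by linarith) (by ring) (by ring) (by ring)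
  · exact triIn v0 v2 v3 (m1 := ((2) + (0) * w + (-20) * o)) (m2 := ((-45 / 17) + (100 / 17) * w + (0) * o)) (m3 := ((28 / 17) + (-100 / 17) * w + (20) * o)) (by linarith) (by linarith) (by linarith) (by ring) (by ring) (by ring)

/-- the region not treated by the direct pigeonhole bounds -/
theorem cert_exists {w o p0 p1 p2 t : ℝ} (ho : 0 < o) (ho' : o ≤ 303 / 1000) (hw1 : w ≤ 1)
    (hw2 : o / 2 ≤ w)
    (hw3 : 4 * o - 1 ≤ w) (hwo : 1 / 3 ≤ w + o) (hP : o * (3 - 4 * o) / 2 ≤ (1 - w) ^ 2)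
    (hreg : 1 / 10 ≤ o ∨ w ≤ 9 / 20 ∨ (1 / 20 ≤ o ∧ w ≤ 31 / 50))
    (h1 : 0 ≤ p1) (h2 : 0 ≤ p2) (h01 : p1 ≤ p0) (h02 : p2 ≤ p0)
    (hs : p0 + p1 + p2 = 1) (ht0 : 1 / 2 ≤ t) (ht1 : t ≤ 1) :
    Cert 6 w o (240 * p0) (240 * p1) (240 * p2) (240 * t) ∨
    Cert 5 w o (240 * p0) (240 * p1) (240 * p2) (240 * t) := by
  rcases le_total (1 / 10) o with hc | hc
  · left
    rcases le_total (2 * o) w with hd | hd
    · have hin : InP 900 q2aL w o := by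
        refine q2a_in hc hwo hd ?_
        by_contra hcon
        push Not at hcon
        rcases le_total o (1 / 4) with he | he
        · nlinarith [mul_nonneg (sub_nonneg.mpr hc) (sub_nonneg.mpr he)]
        · nlinarith [mul_nonneg (sub_nonneg.mpr he) (sub_nonneg.mpr ho')]
      exact_mod_cast root_sound q2a_ok hin h1 h2 h01 h02 hs ht0 ht1
    · rcases le_total o w with hf | hf
      · have hin : InP 9000 q2bL w o := by
          refine q2b_in hwo hd hf ho' ?_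
          by_contra hcon
          push Not at hcon
          rcases le_total o (1 / 4) with he | he
          · nlinarith
          · nlinarith [mul_nonneg (sub_nonneg.mpr he) (sub_nonneg.mpr ho')]
        exact_mod_cast root_sound q2b_ok hin h1 h2 h01 h02 hs ht0 ht1
      · have hin : InP 63000 q2cL w o := q2c_in hwo hf ho' hw2 hw3
        exact_mod_cast root_sound q2c_ok hin h1 h2 h01 h02 hs ht0 ht1
  · rcases le_total w (9 / 20) with hd | hd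
    · left
      have hin : InP 60 q1L w o := q1_in ho.le hc hd hwo
      exact_mod_cast root_sound q1_ok hin h1 h2 h01 h02 hs ht0 ht1
    · have h5 : 1 / 20 ≤ o ∧ w ≤ 31 / 50 ∨ (w = 9 / 20 ∨ o = 1 / 10) := by
        rcases hreg with h | h | h
        · right; right; linarith
        · right; left; linarith
        · left; exact h
      rcases h5 with h5 | h5 | h5
      · right
        have hin : InP 100 q3aL w o := q3a_in h5.1 hc hd h5.2
        exact_mod_cast root_sound q3a_ok hin h1 h2 h01 h02 hs ht0 ht1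
      · left
        have hin : InP 60 q1L w o := q1_in ho.le hc (by linarith) hwo
        exact_mod_cast root_sound q1_ok hin h1 h2 h01 h02 hs ht0 ht1
      · left
        have hin : InP 900 q2aL w o := by
          refine q2a_in (by linarith) hwo (by linarith) ?_
          by_contra hcon
          push Not at hcon
          subst h5
          nlinarith
        exact_mod_cast root_sound q2a_ok hin h1 h2 h01 h02 hs ht0 ht1

/-- conclusion of the real inequality -/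
def Concl (w o Y S X : ℝ) : Prop :=
  (∃ m : ℝ, 1 / 2 ≤ m ∧ Y + m * (S + o ^ 2 / 2 - 2 / 3 * ((1 - o) * o)) + 2 * m * X
      ≤ (2 * w - w ^ 2) / 3 + (2 * m - 1) * (2 / 3) * (o * w)) ∨
    S + 2 * X + o ^ 2 / 2 ≤ 2 / 3 * ((1 - o) * o) + 4 / 3 * (o * w)

/-- cell bounds -/
structure H (w o t f0 f1 f2 g0 g1 g2 o0 o1 o2 Y00 Y01 Y02 Y20 Y21 Y22 X00 X01 X02 X20 X21 X22 : ℝ) :
    Prop where
  hw : 0 < w
  ho : 0 < o
  t0 : 0 ≤ t
  t1 : t ≤ 1
  hf0 : 0 ≤ f0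
  hf1 : 0 ≤ f1
  hf2 : 0 ≤ f2
  hg0 : 0 ≤ g0
  hg1 : 0 ≤ g1
  hg2 : 0 ≤ g2
  ho0 : 0 ≤ o0
  ho1 : 0 ≤ o1
  ho2 : 0 ≤ o2
  hs : f0 + f1 + f2 + g0 + g1 + g2 = 1 - o
  hso : o0 + o1 + o2 = o
  y00 : Y00 ≤ t * w * (f0 + g0)
  y00' : Y00 ≤ t * w * f1
  y00'' : Y00 ≤ (f0 + g0) * f1
  y01 : Y01 ≤ t * w * (f1 + g1)
  y01' : Y01 ≤ t * w * f2
  y01'' : Y01 ≤ (f1 + g1) * f2
  y02 : Y02 ≤ t * w * (f2 + g2)
  y02' : Y02 ≤ t * w * f0
  y02'' : Y02 ≤ (f2 + g2) * f0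
  y20 : Y20 ≤ (1 - t) * w * (f0 + g0)
  y20' : Y20 ≤ (1 - t) * w * g1
  y20'' : Y20 ≤ (f0 + g0) * g1
  y21 : Y21 ≤ (1 - t) * w * (f1 + g1)
  y21' : Y21 ≤ (1 - t) * w * g2
  y21'' : Y21 ≤ (f1 + g1) * g2
  y22 : Y22 ≤ (1 - t) * w * (f2 + g2)
  y22' : Y22 ≤ (1 - t) * w * g0
  y22'' : Y22 ≤ (f2 + g2) * g0
  x00 : ∀ z : ℝ, 0 ≤ z → z ≤ o0 → z ≤ t * w → X00 ≤ z * (g1 - o0 + z) + (o0 - z) * (t * w)
  x01 : ∀ z : ℝ, 0 ≤ z → z ≤ o1 → z ≤ t * w → X01 ≤ z * (g2 - o1 + z) + (o1 - z) * (t * w)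
  x02 : ∀ z : ℝ, 0 ≤ z → z ≤ o2 → z ≤ t * w → X02 ≤ z * (g0 - o2 + z) + (o2 - z) * (t * w)
  x20 : ∀ z : ℝ, 0 ≤ z → z ≤ o0 → z ≤ (1 - t) * w →
    X20 ≤ z * (f1 - o0 + z) + (o0 - z) * ((1 - t) * w)
  x21 : ∀ z : ℝ, 0 ≤ z → z ≤ o1 → z ≤ (1 - t) * w →
    X21 ≤ z * (f2 - o1 + z) + (o1 - z) * ((1 - t) * w)
  x22 : ∀ z : ℝ, 0 ≤ z → z ≤ o2 → z ≤ (1 - t) * w →
    X22 ≤ z * (f0 - o2 + z) + (o2 - z) * ((1 - t) * w)

variable {w o t f0 f1 f2 g0 g1 g2 o0 o1 o2 Y00 Y01 Y02 Y20 Y21 Y22 X00 X01 X02 X20 X21 X22 : ℝ}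

theorem H.rot (h : H w o t f0 f1 f2 g0 g1 g2 o0 o1 o2 Y00 Y01 Y02 Y20 Y21 Y22 X00 X01 X02 X20 X21 X22) :
    H w o t f1 f2 f0 g1 g2 g0 o1 o2 o0 Y01 Y02 Y00 Y21 Y22 Y20 X01 X02 X00 X21 X22 X20 :=
  ⟨h.hw, h.ho, h.t0, h.t1, h.hf1, h.hf2, h.hf0, h.hg1, h.hg2, h.hg0, h.ho1, h.ho2, h.ho0,
    by linarith [h.hs], by linarith [h.hso],
    h.y01, h.y01', h.y01'', h.y02, h.y02', h.y02'', h.y00, h.y00', h.y00'',
    h.y21, h.y21', h.y21'', h.y22, h.y22', h.y22'', h.y20, h.y20', h.y20'',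
    h.x01, h.x02, h.x00, h.x21, h.x22, h.x20⟩

theorem H.swap (h : H w o t f0 f1 f2 g0 g1 g2 o0 o1 o2 Y00 Y01 Y02 Y20 Y21 Y22 X00 X01 X02 X20 X21 X22) :
    H w o (1 - t) g0 g1 g2 f0 f1 f2 o0 o1 o2 Y20 Y21 Y22 Y00 Y01 Y02 X20 X21 X22 X00 X01 X02 := by
  have e : 1 - (1 - t) = t := by ring
  refine ⟨h.hw, h.ho, by linarith [h.t1], by linarith [h.t0], h.hg0, h.hg1, h.hg2, h.hf0, h.hf1,
    h.hf2, h.ho0, h.ho1, h.ho2, by linarith [h.hs], h.hso, ?_, h.y20', ?_, ?_, h.y21', ?_, ?_,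
    h.y22', ?_, ?_, ?_, ?_, ?_, ?_, ?_, ?_, ?_, ?_, h.x20, h.x21, h.x22, ?_, ?_, ?_⟩
  · rw [add_comm g0 f0]; exact h.y20
  · rw [add_comm g0 f0]; exact h.y20''
  · rw [add_comm g1 f1]; exact h.y21
  · rw [add_comm g1 f1]; exact h.y21''
  · rw [add_comm g2 f2]; exact h.y22
  · rw [add_comm g2 f2]; exact h.y22''
  · rw [add_comm g0 f0, e]; exact h.y00
  · rw [e]; exact h.y00'
  · rw [add_comm g0 f0]; exact h.y00''
  · rw [add_comm g1 f1, e]; exact h.y01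
  · rw [e]; exact h.y01'
  · rw [add_comm g1 f1]; exact h.y01''
  · rw [add_comm g2 f2, e]; exact h.y02
  · rw [e]; exact h.y02'
  · rw [add_comm g2 f2]; exact h.y02''
  · rw [e]; exact h.x00
  · rw [e]; exact h.x01
  · rw [e]; exact h.x02

theorem H.of_cert {C : ℝ} (hC : 5 ≤ C) (h : H w o t f0 f1 f2 g0 g1 g2 o0 o1 o2 Y00 Y01 Y02 Y20 Y21 Y22 X00 X01 X02 X20 X21 X22)
    (hw2 : 2 * o ≤ C * w)
    (hc : Cert C w o (240 * (o0 / o)) (240 * (o1 / o)) (240 * (o2 / o)) (240 * t)) :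
    Concl w o (Y00 + Y01 + Y02 + Y20 + Y21 + Y22)
      ((f0 + g0) * o0 + (f1 + g1) * o1 + (f2 + g2) * o2)
      (X00 + X01 + X02 + X20 + X21 + X22) := by
  have ho := h.ho
  have hw := h.hw
  have k0 : o * (o0 / o) = o0 := by field_simp
  have k1 : o * (o1 / o) = o1 := by field_simp
  have k2 : o * (o2 / o) = o2 := by field_simp
  have hp : o0 / o + o1 / o + o2 / o = 1 := by
    rw [← add_div, ← add_div, h.hso]; exact div_self ho.ne'
  have key := gen (C := C) (w := w) (o := o) (t := t) (p0 := o0 / o) (p1 := o1 / o) (p2 := o2 / o)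
    (Y00 := Y00) (Y01 := Y01) (Y02 := Y02) (Y20 := Y20) (Y21 := Y21) (Y22 := Y22)
    (by linarith) hw ho h.hf0 h.hf1 h.hf2 h.hg0 h.hg1 h.hg2 h.hs hp
    (by linarith [h.y00]) (by linarith [h.y00']) (by linarith [h.y01]) (by linarith [h.y01'])
    (by linarith [h.y02]) (by linarith [h.y02']) (by linarith [h.y20]) (by linarith [h.y20'])
    (by linarith [h.y21]) (by linarith [h.y21']) (by linarith [h.y22]) (by linarith [h.y22'])
    (by rw [k0]; exact h.x00) (by rw [k1]; exact h.x01) (by rw [k2]; exact h.x02)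
    (by rw [k0]; exact h.x20) (by rw [k1]; exact h.x21) (by rw [k2]; exact h.x22) hc
  rw [k0, k1, k2] at key
  left
  refine ⟨C / 4 * w / o, ?_, ?_⟩
  · rw [le_div_iff₀ ho]; nlinarith
  · have h1 : (Y00 + Y01 + Y02 + Y20 + Y21 + Y22) + C / 4 * w / o *
        ((f0 + g0) * o0 + (f1 + g1) * o1 + (f2 + g2) * o2
        + 2 * (X00 + X01 + X02 + X20 + X21 + X22)) ≤
        w * (2 / 3 * (1 + C / 4) * (1 - o) + (C / 3 - 1 / 3) * w - C / 8 * o) := by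
      have e : (Y00 + Y01 + Y02 + Y20 + Y21 + Y22) + C / 4 * w / o *
        ((f0 + g0) * o0 + (f1 + g1) * o1 + (f2 + g2) * o2
        + 2 * (X00 + X01 + X02 + X20 + X21 + X22)) =
        (o * (Y00 + Y01 + Y02 + Y20 + Y21 + Y22) + C / 4 * w *
        ((f0 + g0) * o0 + (f1 + g1) * o1 + (f2 + g2) * o2
        + 2 * (X00 + X01 + X02 + X20 + X21 + X22))) / o := by
        field_simp
      rw [e, div_le_iff₀ ho]
      linarith
    have h2 : C / 4 * w / o * (o ^ 2 / 2 - 2 / 3 * ((1 - o) * o))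
        = C / 4 * w * (o / 2 - 2 / 3 * (1 - o)) := by
      field_simp
    have h3 : (2 * (C / 4 * w / o) - 1) * (2 / 3) * (o * w)
        = C / 3 * w ^ 2 - 2 / 3 * (o * w) := by
      field_simp
      ring
    rw [h3]
    linarith

theorem x_prod {a g W X : ℝ} (ha : 0 ≤ a) (hg : 0 ≤ g) (hW : 0 ≤ W)
    (hX : ∀ z : ℝ, 0 ≤ z → z ≤ a → z ≤ W → X ≤ z * (g - a + z) + (a - z) * W) :
    X ≤ a * min W g := by
  rcases le_total W g with hc | hc
  · rw [min_eq_left hc]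
    have := hX 0 le_rfl ha hW
    linarith
  · rw [min_eq_right hc]
    rcases le_total a W with hd | hd
    · have := hX a ha le_rfl hd
      linarith
    · have := hX W hW hd le_rfl
      nlinarith

theorem d4_poly {w o e0 e1 e2 ξ Y00 Y01 Y02 Y20 Y21 Y22 S X00 X01 X02 X20 X21 X22 : ℝ}
    (hw : 0 < w) (ho : 0 ≤ o) (ξe : ξ ≤ e1) (hse : e0 + e1 + e2 = 1 - o)
    (hK : 2 / 3 * (1 - o) + 4 / 3 * w - o / 2 ≤ e0 + 2 * ξ) (ho5 : o ≤ 1 / 10)
    (hwl : 31 / 50 ≤ w) (hw1 : w ≤ 1)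
    (hSX : S + 2 * (X00 + X01 + X02 + X20 + X21 + X22) ≤ o * (e0 + 2 * ξ))
    (Y0 : Y00 + Y20 ≤ e0 * e1) (Y1 : Y01 + Y21 ≤ e1 * e2) (Y2 : Y02 + Y22 ≤ e2 * e0) :
    Y00 + Y01 + Y02 + Y20 + Y21 + Y22 + 1 / 2 * (S + o ^ 2 / 2 - 2 / 3 * ((1 - o) * o))
      + 2 * (1 / 2) * (X00 + X01 + X02 + X20 + X21 + X22)
      ≤ (2 * w - w ^ 2) / 3 + (2 * (1 / 2) - 1) * (2 / 3) * (o * w) := by
  obtain ⟨K, hKd⟩ : ∃ K, K = 2 / 3 * (1 - o) + 4 / 3 * w - o / 2 := ⟨_, rfl⟩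
  obtain ⟨A, hA⟩ : ∃ A, A = e0 + 2 * e1 := ⟨_, rfl⟩
  have hK1 : 1 ≤ K := by rw [hKd]; linarith
  have hAK : K ≤ A := by rw [hKd, hA]; linarith
  have e2' : e2 = 1 - o - e0 - e1 := by linarith
  have hpair : e0 * e1 + e1 * e2 + e2 * e0 ≤ (1 - o) ^ 2 / 3 - (A - (1 - o)) ^ 2 / 4 := by
    rw [e2', hA]
    nlinarith [sq_nonneg (e0 - (1 - o) / 3)]
  have h1 : o * (e0 + 2 * ξ) ≤ o * A := by
    apply mul_le_mul_of_nonneg_left _ ho
    rw [hA]; linarith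
  have h2 : (K - (1 - o)) ^ 2 / 4 - 1 / 2 * (o * K) ≤ (A - (1 - o)) ^ 2 / 4 - 1 / 2 * (o * A) := by
    nlinarith [mul_nonneg (sub_nonneg.mpr hAK) (show 0 ≤ A + K - 2 by linarith)]
  have h3 : (1 - o) ^ 2 / 3 - (K - (1 - o)) ^ 2 / 4 + 1 / 2 * (o * K)
      ≤ (2 * w - w ^ 2) / 3 - 1 / 2 * (o ^ 2 / 2 - 2 / 3 * ((1 - o) * o)) := by
    rw [hKd]
    nlinarith [mul_nonneg (sub_nonneg.mpr hwl) (sub_nonneg.mpr hw1),
      mul_nonneg (sub_nonneg.mpr hwl) ho, mul_nonneg (sub_nonneg.mpr hwl) (sub_nonneg.mpr hwl),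
      mul_nonneg ho (sub_nonneg.mpr ho5)]
  linarith

theorem d3_poly {w o t e0 e1 e2 ξ Y00 Y01 Y02 Y20 Y21 Y22 S X00 X01 X02 X20 X21 X22 : ℝ}
    (hw : 0 < w) (ho : 0 ≤ o) (e0n : 0 ≤ e0) (ht : 1 / 2 ≤ t)
    (ξw : ξ ≤ w) (ξe : ξ ≤ e1) (hse : e0 + e1 + e2 = 1 - o)
    (hK : 2 / 3 * (1 - o) + 4 / 3 * w - o / 2 ≤ e0 + 2 * ξ) (ho5 : o ≤ 1 / 20)
    (hwl : 9 / 20 ≤ w) (hwu : w ≤ 31 / 50)
    (hSX : S + 2 * (X00 + X01 + X02 + X20 + X21 + X22) ≤ o * (e0 + 2 * ξ))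
    (Y0 : Y00 + Y20 ≤ t * w * e1 - (2 * t - 1) * w * (ξ - (1 - t) * w))
    (Y1 : Y01 + Y21 ≤ t * w * e2) (Y2 : Y02 + Y22 ≤ e2 * e0) :
    Y00 + Y01 + Y02 + Y20 + Y21 + Y22 + 1 / 2 * (S + o ^ 2 / 2 - 2 / 3 * ((1 - o) * o))
      + 2 * (1 / 2) * (X00 + X01 + X02 + X20 + X21 + X22)
      ≤ (2 * w - w ^ 2) / 3 + (2 * (1 / 2) - 1) * (2 / 3) * (o * w) := by
  obtain ⟨K, hKd⟩ : ∃ K, K = 2 / 3 * (1 - o) + 4 / 3 * w - o / 2 := ⟨_, rfl⟩
  rw [← hKd] at hK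
  have hu : K - 2 * w ≤ e0 := by linarith
  have hu0 : o ≤ K - 2 * w := by rw [hKd]; linarith
  -- replace e2
  have he2 : e2 ≤ (1 - o) - e0 - ξ := by linarith
  have h1 : e2 * e0 ≤ ((1 - o) - e0 - ξ) * e0 := mul_le_mul_of_nonneg_right he2 e0n
  have h12 : t * w * e1 + t * w * e2 = t * w * ((1 - o) - e0) := by
    have : e1 + e2 = (1 - o) - e0 := by linarith
    rw [← this]; ring
  -- monotone in ξ
  have h2 : 0 ≤ (ξ - (K - e0) / 2) * ((2 * t - 1) * w + e0 - o) := by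
    apply mul_nonneg (by linarith)
    have : 0 ≤ (2 * t - 1) * w := mul_nonneg (by linarith) hw.le
    linarith
  -- t part
  have h3 : 0 ≤ ((2 * t - 1) * w - ((1 - o) - K + w) / 2) ^ 2 := sq_nonneg _
  -- u part
  have h4 : 0 ≤ (e0 - (K - 2 * w)) * (w / 2 - 3 / 4 * o + (e0 - (K - 2 * w)) / 2) := by
    apply mul_nonneg (by linarith)
    have : 0 ≤ e0 - (K - 2 * w) := by linarith
    nlinarith
  have h5 : w * (1 - o) / 2 + ((1 - o) - K + w) ^ 2 / 8 - w * (K - 2 * w) / 2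
      + (K - 2 * w) * ((K - 2 * w) / 2 + 3 * o / 4) + 1 / 2 * (o * K)
      ≤ (2 * w - w ^ 2) / 3 - 1 / 2 * (o ^ 2 / 2 - 2 / 3 * ((1 - o) * o)) := by
    rw [hKd]
    nlinarith [mul_nonneg (sub_nonneg.mpr hwl) (sub_nonneg.mpr hwu),
      mul_nonneg (sub_nonneg.mpr hwl) ho, mul_nonneg (sub_nonneg.mpr hwu) ho,
      mul_nonneg ho (sub_nonneg.mpr ho5),
      mul_nonneg (sub_nonneg.mpr hwu) (sub_nonneg.mpr ho5)]
  clear hK he2
  subst hKd
  linarith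

theorem H.d34 (h : H w o t f0 f1 f2 g0 g1 g2 o0 o1 o2 Y00 Y01 Y02 Y20 Y21 Y22 X00 X01 X02 X20 X21 X22)
    (ht : 1 / 2 ≤ t) (hw1 : w ≤ 1)
    (hα1 : (f1 + g1) + 2 * (min (t * w) g2 + min ((1 - t) * w) f2)
      ≤ (f0 + g0) + 2 * (min (t * w) g1 + min ((1 - t) * w) f1))
    (hα2 : (f2 + g2) + 2 * (min (t * w) g0 + min ((1 - t) * w) f0)
      ≤ (f0 + g0) + 2 * (min (t * w) g1 + min ((1 - t) * w) f1))
    (hreg : (o ≤ 1 / 20 ∧ 9 / 20 ≤ w ∧ w ≤ 31 / 50) ∨ (o ≤ 1 / 10 ∧ 31 / 50 ≤ w)) :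
    Concl w o (Y00 + Y01 + Y02 + Y20 + Y21 + Y22)
      ((f0 + g0) * o0 + (f1 + g1) * o1 + (f2 + g2) * o2)
      (X00 + X01 + X02 + X20 + X21 + X22) := by
  have hw := h.hw
  have ho := h.ho
  have tw : 0 ≤ t * w := mul_nonneg h.t0 hw.le
  have tw' : 0 ≤ (1 - t) * w := mul_nonneg (by linarith [h.t1]) hw.le
  have x00 := x_prod h.ho0 h.hg1 tw h.x00
  have x01 := x_prod h.ho1 h.hg2 tw h.x01
  have x02 := x_prod h.ho2 h.hg0 tw h.x02
  have x20 := x_prod h.ho0 h.hf1 tw' h.x20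
  have x21 := x_prod h.ho1 h.hf2 tw' h.x21
  have x22 := x_prod h.ho2 h.hf0 tw' h.x22
  obtain ⟨ξ, hξ⟩ : ∃ ξ, ξ = min (t * w) g1 + min ((1 - t) * w) f1 := ⟨_, rfl⟩
  have ξw : ξ ≤ w := by
    rw [hξ]; linarith [min_le_left (t * w) g1, min_le_left ((1 - t) * w) f1]
  have ξe : ξ ≤ f1 + g1 := by
    rw [hξ]; linarith [min_le_right (t * w) g1, min_le_right ((1 - t) * w) f1]
  have ξg : ξ - (1 - t) * w ≤ g1 := by
    rw [hξ]; linarith [min_le_right (t * w) g1, min_le_left ((1 - t) * w) f1]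
  have hSX : ((f0 + g0) * o0 + (f1 + g1) * o1 + (f2 + g2) * o2)
      + 2 * (X00 + X01 + X02 + X20 + X21 + X22) ≤ o * ((f0 + g0) + 2 * ξ) := by
    rw [← hξ] at hα1 hα2
    have a1 := mul_le_mul_of_nonneg_left hα1 h.ho1
    have a2 := mul_le_mul_of_nonneg_left hα2 h.ho2
    have : o * ((f0 + g0) + 2 * ξ) = o0 * ((f0 + g0) + 2 * ξ) + o1 * ((f0 + g0) + 2 * ξ)
      + o2 * ((f0 + g0) + 2 * ξ) := by rw [← h.hso]; ring
    rw [this]
    have a0 : o0 * ((f0 + g0) + 2 * ξ) = o0 * ((f0 + g0)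
      + 2 * (min (t * w) g1 + min ((1 - t) * w) f1)) := by rw [hξ]
    rw [a0]
    linarith
  rcases le_total ((f0 + g0) + 2 * ξ) (2 / 3 * (1 - o) + 4 / 3 * w - o / 2) with hK | hK
  · right
    have := mul_le_mul_of_nonneg_left hK ho.le
    linarith
  · left
    refine ⟨1 / 2, le_rfl, ?_⟩
    have yy20 := h.y00''
    have yy0 := h.y00'
    have yy2 := h.y20'
    have yy1 := h.y01'
    have yy21 := h.y21'
    have yy02 := h.y02''
    have yy22 := h.y22''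
    have hs := h.hs
    obtain ⟨e0, he0⟩ : ∃ e0, e0 = f0 + g0 := ⟨_, rfl⟩
    obtain ⟨e1, he1⟩ : ∃ e1, e1 = f1 + g1 := ⟨_, rfl⟩
    obtain ⟨e2, he2⟩ : ∃ e2, e2 = f2 + g2 := ⟨_, rfl⟩
    have e0n : 0 ≤ e0 := by rw [he0]; linarith [h.hf0, h.hg0]
    have e1n : 0 ≤ e1 := by rw [he1]; linarith [h.hf1, h.hg1]
    have e2n : 0 ≤ e2 := by rw [he2]; linarith [h.hf2, h.hg2]
    rw [← he0] at hK
    have hSX' : ((f0 + g0) * o0 + (f1 + g1) * o1 + (f2 + g2) * o2)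
      + 2 * (X00 + X01 + X02 + X20 + X21 + X22) ≤ o * (e0 + 2 * ξ) := by
      rw [he0]; exact hSX
    rw [← he1] at ξe
    have hse : e0 + e1 + e2 = 1 - o := by rw [he0, he1, he2]; linarith
    rcases hreg with ⟨ho5, hwl, hwu⟩ | ⟨ho5, hwl⟩
    · -- D3
      have Y0 : Y00 + Y20 ≤ t * w * e1 - (2 * t - 1) * w * (ξ - (1 - t) * w) := by
        have := mul_le_mul_of_nonneg_left ξg (show 0 ≤ (2 * t - 1) * w by
          apply mul_nonneg (by linarith) hw.le)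
        have e : f1 = e1 - g1 := by linarith
        rw [e] at yy0
        linarith
      have Y1 : Y01 + Y21 ≤ t * w * e2 := by
        have := mul_nonneg (mul_nonneg (show 0 ≤ 2 * t - 1 by linarith) hw.le) h.hg2
        have e : f2 = e2 - g2 := by linarith
        rw [e] at yy1
        linarith
      have Y2 : Y02 + Y22 ≤ e2 * e0 := by
        rw [he2, he0]; linarith
      exact d3_poly hw ho.le e0n ht ξw ξe hse hK ho5 hwl hwu hSX' Y0 Y1 Y2
    · -- D4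
      have Y0 : Y00 + Y20 ≤ e0 * e1 := by
        have := h.y20''
        rw [he1, he0]; linarith
      have Y1 : Y01 + Y21 ≤ e1 * e2 := by
        have := h.y21''
        have := h.y01''
        rw [he1, he2]; linarith
      have Y2 : Y02 + Y22 ≤ e2 * e0 := by
        rw [he2, he0]; linarith
      exact d4_poly hw ho.le ξe hse hK ho5 hwl hw1 hSX' Y0 Y1 Y2

theorem Concl.congr {w o Y S X Y' S' X' : ℝ} (h : Concl w o Y S X) (hY : Y = Y') (hS : S = S')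
    (hX : X = X') : Concl w o Y' S' X' := by
  subst hY hS hX; exact h

theorem H.d34' (h : H w o t f0 f1 f2 g0 g1 g2 o0 o1 o2 Y00 Y01 Y02 Y20 Y21 Y22 X00 X01 X02 X20 X21 X22)
    (ht : 1 / 2 ≤ t) (hw1 : w ≤ 1)
    (hreg : (o ≤ 1 / 20 ∧ 9 / 20 ≤ w ∧ w ≤ 31 / 50) ∨ (o ≤ 1 / 10 ∧ 31 / 50 ≤ w)) :
    Concl w o (Y00 + Y01 + Y02 + Y20 + Y21 + Y22)
      ((f0 + g0) * o0 + (f1 + g1) * o1 + (f2 + g2) * o2)
      (X00 + X01 + X02 + X20 + X21 + X22) := by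
  rcases le_total ((f1 + g1) + 2 * (min (t * w) g2 + min ((1 - t) * w) f2))
    ((f0 + g0) + 2 * (min (t * w) g1 + min ((1 - t) * w) f1)) with h1 | h1
  · rcases le_total ((f2 + g2) + 2 * (min (t * w) g0 + min ((1 - t) * w) f0))
      ((f0 + g0) + 2 * (min (t * w) g1 + min ((1 - t) * w) f1)) with h2 | h2
    · exact h.d34 ht hw1 h1 h2 hreg
    · exact (h.rot.rot.d34 ht hw1 h2 (h1.trans h2) hreg).congr (by ring) (by ring) (by ring)
  · rcases le_total ((f2 + g2) + 2 * (min (t * w) g0 + min ((1 - t) * w) f0))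
      ((f1 + g1) + 2 * (min (t * w) g2 + min ((1 - t) * w) f2)) with h2 | h2
    · exact (h.rot.d34 ht hw1 h2 h1 hreg).congr (by ring) (by ring) (by ring)
    · exact (h.rot.rot.d34 ht hw1 (h1.trans h2) h2 hreg).congr (by ring) (by ring) (by ring)

theorem H.cert' (h : H w o t f0 f1 f2 g0 g1 g2 o0 o1 o2 Y00 Y01 Y02 Y20 Y21 Y22 X00 X01 X02 X20 X21 X22)
    (ht : 1 / 2 ≤ t) (ho' : o ≤ 303 / 1000) (hw1 : w ≤ 1) (hw2 : o / 2 ≤ w)
    (hw3 : 4 * o - 1 ≤ w) (hwo : 1 / 3 ≤ w + o) (hP : o * (3 - 4 * o) / 2 ≤ (1 - w) ^ 2)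
    (hreg : 1 / 10 ≤ o ∨ w ≤ 9 / 20 ∨ (1 / 20 ≤ o ∧ w ≤ 31 / 50))
    (h1 : o1 ≤ o0) (h2 : o2 ≤ o0) :
    Concl w o (Y00 + Y01 + Y02 + Y20 + Y21 + Y22)
      ((f0 + g0) * o0 + (f1 + g1) * o1 + (f2 + g2) * o2)
      (X00 + X01 + X02 + X20 + X21 + X22) := by
  have ho := h.ho
  have hp : o0 / o + o1 / o + o2 / o = 1 := by
    rw [← add_div, ← add_div, h.hso]; exact div_self ho.ne'
  rcases cert_exists ho ho' hw1 hw2 hw3 hwo hP hreg (div_nonneg h.ho1 ho.le)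
    (div_nonneg h.ho2 ho.le) (div_le_div_of_nonneg_right h1 ho.le)
    (div_le_div_of_nonneg_right h2 ho.le) hp ht h.t1 with hc | hc
  · exact h.of_cert (by norm_num) (by linarith) hc
  · exact h.of_cert (by norm_num) (by linarith) hc

theorem H.half (h : H w o t f0 f1 f2 g0 g1 g2 o0 o1 o2 Y00 Y01 Y02 Y20 Y21 Y22 X00 X01 X02 X20 X21 X22)
    (ht : 1 / 2 ≤ t) (ho' : o ≤ 303 / 1000) (hw1 : w ≤ 1) (hw2 : o / 2 ≤ w)
    (hw3 : 4 * o - 1 ≤ w) (hwo : 1 / 3 ≤ w + o) (hP : o * (3 - 4 * o) / 2 ≤ (1 - w) ^ 2) :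
    Concl w o (Y00 + Y01 + Y02 + Y20 + Y21 + Y22)
      ((f0 + g0) * o0 + (f1 + g1) * o1 + (f2 + g2) * o2)
      (X00 + X01 + X02 + X20 + X21 + X22) := by
  by_cases hr : (o ≤ 1 / 20 ∧ 9 / 20 ≤ w ∧ w ≤ 31 / 50) ∨ (o ≤ 1 / 10 ∧ 31 / 50 ≤ w)
  · exact h.d34' ht hw1 hr
  · have hreg : 1 / 10 ≤ o ∨ w ≤ 9 / 20 ∨ (1 / 20 ≤ o ∧ w ≤ 31 / 50) := by
      by_contra hcon
      apply hr
      push Not at hcon
      obtain ⟨c1, c2, c3⟩ := hcon
      rcases le_total w (31 / 50) with c4 | c4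
      · left
        refine ⟨?_, c2.le, c4⟩
        by_contra c5
        push Not at c5
        exact absurd (c3 c5.le) (not_lt.mpr c4)
      · right
        exact ⟨c1.le, c4⟩
    rcases le_total o1 o0 with h1 | h1
    · rcases le_total o2 o0 with h2 | h2
      · exact h.cert' ht ho' hw1 hw2 hw3 hwo hP hreg h1 h2
      · exact (h.rot.rot.cert' ht ho' hw1 hw2 hw3 hwo hP hreg h2 (h1.trans h2)).congr
          (by ring) (by ring) (by ring)
    · rcases le_total o2 o1 with h2 | h2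
      · exact (h.rot.cert' ht ho' hw1 hw2 hw3 hwo hP hreg h2 h1).congr
          (by ring) (by ring) (by ring)
      · exact (h.rot.rot.cert' ht ho' hw1 hw2 hw3 hwo hP hreg (h1.trans h2) h2).congr
          (by ring) (by ring) (by ring)

/-- main real inequality: `W` even, two classes mod 4 -/
theorem D_main (h : H w o t f0 f1 f2 g0 g1 g2 o0 o1 o2 Y00 Y01 Y02 Y20 Y21 Y22 X00 X01 X02 X20 X21 X22)
    (ho' : o ≤ 303 / 1000) (hw1 : w ≤ 1) (hw2 : o / 2 ≤ w)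
    (hw3 : 4 * o - 1 ≤ w) (hwo : 1 / 3 ≤ w + o) (hP : o * (3 - 4 * o) / 2 ≤ (1 - w) ^ 2) :
    Concl w o (Y00 + Y01 + Y02 + Y20 + Y21 + Y22)
      ((f0 + g0) * o0 + (f1 + g1) * o1 + (f2 + g2) * o2)
      (X00 + X01 + X02 + X20 + X21 + X22) := by
  rcases le_total (1 / 2) t with ht | ht
  · exact h.half ht ho' hw1 hw2 hw3 hwo hP
  · exact (h.swap.half (by linarith) ho' hw1 hw2 hw3 hwo hP).congr (by ring) (by ring) (by ring)

end Pool.Agent.M4074G
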