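import Mathlib
import Pool.Agent.M4074.Even
import Pool.Agent.M4074.GFin2

set_option autoImplicit false

namespace Pool.Agent.M4074R

open Pool.Agent.M4074G

lemma scX (n g o w b : ℝ) (hb : 0 < b) (h : Cell n g o w) :
    ∀ z : ℝ, 0 ≤ z → z ≤ o / b → z ≤ w / b →
      n / b ^ 2 ≤ z * (g / b - o / b + z) + (o / b - z) * (w / b) := by
  intro z hz h1 h2
  rw [le_div_iff₀ hb] at h1 h2
  have h3 := h.2.2.2 (z * b) (by positivity) h2 (Or.inl h1)
  rw [div_le_iff₀ (by positivity)]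
  have e1 : (z * (g / b - o / b + z) + (o / b - z) * (w / b)) * b ^ 2 =
    (w - z * b) * (o - z * b) + z * b * g := by
    field_simp
    ring
  rw [e1]
  exact h3

lemma scP (n x y b : ℝ) (hb : 0 < b) (h : n ≤ x * y) : n / b ^ 2 ≤ (x / b) * (y / b) := by
  rw [div_mul_div_comm, ← sq]
  exact div_le_div_of_nonneg_right h (by positivity)

lemma concl_iff (w o Y S X : ℝ) (h : Concl w o Y S X) :
    2 * (Y + X) + (S + o ^ 2 / 2 - 2/3 * (1 - o) * o) ≤ 2 * ((2 * w - w ^ 2) / 3) ∨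
    2 * X + (S + o ^ 2 / 2 - 2/3 * (1 - o) * o) ≤ 2 * (2/3 * o * w) := by
  rcases h with ⟨m, hm, h⟩ | h
  · by_contra hc
    push Not at hc
    obtain ⟨h1, h2⟩ := hc
    have := mul_nonneg (show 0 ≤ m - 1/2 by linarith) (sub_nonneg.mpr h2.le)
    nlinarith
  · right
    linarith

theorem dprop : DProp := by
  intro f0 f1 f2 g0 g1 g2 o0 o1 o2 w0 w2 Y0 Y1 Y2 Z0 Z1 Z2 U0 U1 U2 V0 V1 V2 h
  -- first: single class in the first region by `L1`
  by_cases hs : (w0 = 0 ∨ w2 = 0) ∧ (o0 + o1 + o2) ≤ 2 * (w0 + w2) ∧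
        3 * (o0 + o1 + o2) ≤ f0 + f1 + f2 + (g0 + g1 + g2) + (w0 + w2)
  · obtain ⟨hs1, hs2, hs3⟩ := hs
    have hw : 0 ≤ w0 + w2 := add_nonneg h.hw0 h.hw2
    have := h.ho0
    have := h.ho1
    have := h.ho2
    rcases hs1 with hz | hz
    · -- only the class 2
      have hl := L1 g0 g1 g2 f0 f1 f2 o0 o1 o2 w2 Z0 Z1 Z2 V0 V1 V2 h.hg0 h.hg1 h.hg2 h.hf0 h.hf1 h.hf2
        h.ho0 h.ho1 h.ho2 h.hw2 (by rw [hz] at hs3; linarith) (by linarith [h.hZ0]) h.hZ0'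
        (by linarith [h.hZ1]) h.hZ1' (by linarith [h.hZ2]) h.hZ2'
        (by
          have := h.hV0.2.2.2 (o0 / 2) (by linarith) (by linarith) (Or.inl (by linarith))
          nlinarith)
        (by
          have := h.hV1.2.2.2 (o1 / 2) (by linarith) (by linarith) (Or.inl (by linarith))
          nlinarith)
        (by
          have := h.hV2.2.2.2 (o2 / 2) (by linarith) (by linarith) (Or.inl (by linarith))
          nlinarith)
      have y0 := h.hY0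
      have y1 := h.hY1
      have y2 := h.hY2
      have u0 := h.hU0.2.1
      have u1 := h.hU1.2.1
      have u2 := h.hU2.2.1
      subst hz
      have hw3 := h.hw3
      unfold Lag
      rcases lag (o0 + o1 + o2) w2 (g0 + g1 + g2 + (f0 + f1 + f2)) (Z0 + Z1 + Z2) (V0 + V1 + V2)
        ((g0 + f0) * o0 + (g1 + f1) * o1 + (g2 + f2) * o2) h.ho (by linarith) (by nlinarith) with k | k
      · left; linarith
      · right; linarith
    · have hl := L1 f0 f1 f2 g0 g1 g2 o0 o1 o2 w0 Y0 Y1 Y2 U0 U1 U2 h.hf0 h.hf1 h.hf2 h.hg0 h.hg1 h.hg2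
        h.ho0 h.ho1 h.ho2 h.hw0 (by rw [hz] at hs3; linarith) (by linarith [h.hY0]) h.hY0'
        (by linarith [h.hY1]) h.hY1' (by linarith [h.hY2]) h.hY2'
        (by
          have := h.hU0.2.2.2 (o0 / 2) (by linarith) (by linarith) (Or.inl (by linarith))
          nlinarith)
        (by
          have := h.hU1.2.2.2 (o1 / 2) (by linarith) (by linarith) (Or.inl (by linarith))
          nlinarith)
        (by
          have := h.hU2.2.2.2 (o2 / 2) (by linarith) (by linarith) (Or.inl (by linarith))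
          nlinarith)
      have y0 := h.hZ0
      have y1 := h.hZ1
      have y2 := h.hZ2
      have u0 := h.hV0.2.1
      have u1 := h.hV1.2.1
      have u2 := h.hV2.2.1
      subst hz
      have hw3 := h.hw3
      unfold Lag
      rcases lag (o0 + o1 + o2) w0 (f0 + f1 + f2 + (g0 + g1 + g2)) (Y0 + Y1 + Y2) (U0 + U1 + U2)
        ((f0 + g0) * o0 + (f1 + g1) * o1 + (f2 + g2) * o2) h.ho (by linarith) (by nlinarith) with k | k
      · left; linarith
      · right; linarith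
  -- the certificates
  have ho := h.ho
  have hw3 := h.hw3
  have hwpos : 0 < w0 + w2 := by linarith
  have hb : 0 < f0 + f1 + f2 + (g0 + g1 + g2) + (o0 + o1 + o2) := by
    have := h.hwe
    linarith
  obtain ⟨b, hbd⟩ : ∃ b, b = f0 + f1 + f2 + (g0 + g1 + g2) + (o0 + o1 + o2) := ⟨_, rfl⟩
  rw [← hbd] at hb
  have hbne := ne_of_gt hb
  have hwne := ne_of_gt hwpos
  have t1 : w0 / (w0 + w2) * ((w0 + w2) / b) = w0 / b := by
    field_simp
  have t2 : (1 - w0 / (w0 + w2)) * ((w0 + w2) / b) = w2 / b := by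
    field_simp
    ring
  have hH : H ((w0 + w2) / b) ((o0 + o1 + o2) / b) (w0 / (w0 + w2)) (f0 / b) (f1 / b) (f2 / b)
      (g0 / b) (g1 / b) (g2 / b) (o0 / b) (o1 / b) (o2 / b) (Y0 / b ^ 2) (Y1 / b ^ 2) (Y2 / b ^ 2)
      (Z0 / b ^ 2) (Z1 / b ^ 2) (Z2 / b ^ 2) (U0 / b ^ 2) (U1 / b ^ 2) (U2 / b ^ 2)
      (V0 / b ^ 2) (V1 / b ^ 2) (V2 / b ^ 2) := by
    have q0 : f0 / b + g0 / b = (f0 + g0) / b := by ring
    have q1 : f1 / b + g1 / b = (f1 + g1) / b := by ring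
    have q2 : f2 / b + g2 / b = (f2 + g2) / b := by ring
    refine ⟨by positivity, by positivity, ?_, ?_, ?_, ?_, ?_, ?_, ?_, ?_, ?_, ?_, ?_, ?_, ?_,
      ?_, ?_, ?_, ?_, ?_, ?_, ?_, ?_, ?_, ?_, ?_, ?_, ?_, ?_, ?_, ?_, ?_, ?_, ?_, ?_, ?_, ?_, ?_, ?_⟩
    · exact div_nonneg h.hw0 hwpos.le
    · rw [div_le_one hwpos]; linarith [h.hw2]
    · exact div_nonneg h.hf0 hb.le
    · exact div_nonneg h.hf1 hb.le
    · exact div_nonneg h.hf2 hb.le
    · exact div_nonneg h.hg0 hb.le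
    · exact div_nonneg h.hg1 hb.le
    · exact div_nonneg h.hg2 hb.le
    · exact div_nonneg h.ho0 hb.le
    · exact div_nonneg h.ho1 hb.le
    · exact div_nonneg h.ho2 hb.le
    · have : b - (o0 + o1 + o2) = f0 + f1 + f2 + (g0 + g1 + g2) := by linarith
      rw [show 1 - (o0 + o1 + o2) / b = (b - (o0 + o1 + o2)) / b by field_simp, this]
      ring
    · ring
    · rw [t1, q0]; exact scP _ _ _ _ hb h.hY0
    · rw [t1]; exact scP _ _ _ _ hb h.hY0'
    · rw [q0]; exact scP _ _ _ _ hb h.hY0''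
    · rw [t1, q1]; exact scP _ _ _ _ hb h.hY1
    · rw [t1]; exact scP _ _ _ _ hb h.hY1'
    · rw [q1]; exact scP _ _ _ _ hb h.hY1''
    · rw [t1, q2]; exact scP _ _ _ _ hb h.hY2
    · rw [t1]; exact scP _ _ _ _ hb h.hY2'
    · rw [q2]; exact scP _ _ _ _ hb h.hY2''
    · rw [t2, q0]; exact scP _ _ _ _ hb h.hZ0
    · rw [t2]; exact scP _ _ _ _ hb h.hZ0'
    · rw [q0]; exact scP _ _ _ _ hb h.hZ0''
    · rw [t2, q1]; exact scP _ _ _ _ hb h.hZ1
    · rw [t2]; exact scP _ _ _ _ hb h.hZ1'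
    · rw [q1]; exact scP _ _ _ _ hb h.hZ1''
    · rw [t2, q2]; exact scP _ _ _ _ hb h.hZ2
    · rw [t2]; exact scP _ _ _ _ hb h.hZ2'
    · rw [q2]; exact scP _ _ _ _ hb h.hZ2''
    · rw [t1]; exact scX _ _ _ _ _ hb h.hU0
    · rw [t1]; exact scX _ _ _ _ _ hb h.hU1
    · rw [t1]; exact scX _ _ _ _ _ hb h.hU2
    · rw [t2]; exact scX _ _ _ _ _ hb h.hV0
    · rw [t2]; exact scX _ _ _ _ _ hb h.hV1
    · rw [t2]; exact scX _ _ _ _ _ hb h.hV2
  have hwe := h.hwe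
  have hwb : w0 + w2 ≤ b := by linarith
  have hPn : (o0 + o1 + o2) / b * (3 - 4 * ((o0 + o1 + o2) / b)) / 2 ≤ (1 - (w0 + w2) / b) ^ 2 := by
    have hP := h.hP
    rw [← hbd] at hP
    have e1 : (o0 + o1 + o2) / b * (3 - 4 * ((o0 + o1 + o2) / b)) / 2 =
      ((o0 + o1 + o2) * (3 * (f0 + f1 + f2 + (g0 + g1 + g2)) - (o0 + o1 + o2))) / (2 * b ^ 2) := by
      have : f0 + f1 + f2 + (g0 + g1 + g2) = b - (o0 + o1 + o2) := by linarith
      rw [this]
      field_simp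
      ring
    have e2 : (1 - (w0 + w2) / b) ^ 2 = (2 * (b - (w0 + w2)) ^ 2) / (2 * b ^ 2) := by
      field_simp
    rw [e1, e2]
    exact div_le_div_of_nonneg_right hP.le (by positivity)
  have hw1 : (w0 + w2) / b ≤ 1 := by rw [div_le_one hb]; exact hwb
  have hC : Concl ((w0 + w2) / b) ((o0 + o1 + o2) / b) (Y0 / b ^ 2 + Y1 / b ^ 2 + Y2 / b ^ 2 +
      Z0 / b ^ 2 + Z1 / b ^ 2 + Z2 / b ^ 2)
      ((f0 / b + g0 / b) * (o0 / b) + (f1 / b + g1 / b) * (o1 / b) + (f2 / b + g2 / b) * (o2 / b))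
      (U0 / b ^ 2 + U1 / b ^ 2 + U2 / b ^ 2 + V0 / b ^ 2 + V1 / b ^ 2 + V2 / b ^ 2) := by
    have hT := h.hT
    rw [← hbd] at hT
    rcases h.hreg with ⟨r1, r2, r3⟩ | ⟨r1, r2, r3⟩
    · rw [← hbd] at r1
      apply D_main hH
      · rw [div_le_iff₀ hb]; linarith
      · exact hw1
      · rw [div_div, div_le_div_iff₀ (by positivity) hb]; nlinarith
      · rw [le_div_iff₀ hb]
        have : (4 * ((o0 + o1 + o2) / b) - 1) * b = 4 * (o0 + o1 + o2) - b := by field_simp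
        rw [this]; linarith
      · have hr := h.hrem
        have : b ≤ 3 * (w0 + w2) + 3 * (o0 + o1 + o2) := by
          rcases hr with hr | hr | hr
          · exact absurd ⟨Or.inl hr, r2, r3⟩ hs
          · exact absurd ⟨Or.inr hr, r2, r3⟩ hs
          · rw [← hbd] at hr; exact hr
        rw [← add_div, le_div_iff₀ hb]
        linarith
      · exact hPn
    · rw [← hbd] at r1 r3
      apply D_main2 hH
      · rw [le_div_iff₀ hb]; linarith
      · rw [div_le_iff₀ hb]; linarith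
      · exact hw1
      · rw [le_div_iff₀ hb]
        have : 12 / 19 * (2 / 3 - (o0 + o1 + o2) / b) * b = 12 / 19 * (2 / 3 * b - (o0 + o1 + o2)) := by
          field_simp
        rw [this]; linarith
      · rw [le_div_iff₀ hb]
        have : (3 * ((o0 + o1 + o2) / b) - 1) * b = 3 * (o0 + o1 + o2) - b := by field_simp
        rw [this]; linarith
      · exact hPn
  have hb2 : 0 < b ^ 2 := by positivity
  have he : f0 + f1 + f2 + (g0 + g1 + g2) = b - (o0 + o1 + o2) := by linarith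
  unfold Lag
  rw [← hbd, he]
  rcases concl_iff _ _ _ _ _ hC with k | k
  · left
    have := mul_le_mul_of_nonneg_right k hb2.le
    have e1 : (2 * (Y0 / b ^ 2 + Y1 / b ^ 2 + Y2 / b ^ 2 + Z0 / b ^ 2 + Z1 / b ^ 2 + Z2 / b ^ 2 +
      (U0 / b ^ 2 + U1 / b ^ 2 + U2 / b ^ 2 + V0 / b ^ 2 + V1 / b ^ 2 + V2 / b ^ 2)) +
      ((f0 / b + g0 / b) * (o0 / b) + (f1 / b + g1 / b) * (o1 / b) + (f2 / b + g2 / b) * (o2 / b) +
      ((o0 + o1 + o2) / b) ^ 2 / 2 - 2 / 3 * (1 - (o0 + o1 + o2) / b) * ((o0 + o1 + o2) / b))) * b ^ 2 =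
      2 * (Y0 + Y1 + Y2 + Z0 + Z1 + Z2 + (U0 + U1 + U2 + V0 + V1 + V2)) +
      ((f0 + g0) * o0 + (f1 + g1) * o1 + (f2 + g2) * o2 + (o0 + o1 + o2) ^ 2 / 2 -
      2 / 3 * (b - (o0 + o1 + o2)) * (o0 + o1 + o2)) := by
      field_simp
    have e2 : 2 * ((2 * ((w0 + w2) / b) - ((w0 + w2) / b) ^ 2) / 3) * b ^ 2 =
      2 * ((2 * b * (w0 + w2) - (w0 + w2) ^ 2) / 3) := by
      field_simp
    rw [e1, e2] at this
    linarith
  · right
    have := mul_le_mul_of_nonneg_right k hb2.le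
    have e1 : (2 *
      (U0 / b ^ 2 + U1 / b ^ 2 + U2 / b ^ 2 + V0 / b ^ 2 + V1 / b ^ 2 + V2 / b ^ 2) +
      ((f0 / b + g0 / b) * (o0 / b) + (f1 / b + g1 / b) * (o1 / b) + (f2 / b + g2 / b) * (o2 / b) +
      ((o0 + o1 + o2) / b) ^ 2 / 2 - 2 / 3 * (1 - (o0 + o1 + o2) / b) * ((o0 + o1 + o2) / b))) * b ^ 2 =
      2 * (U0 + U1 + U2 + V0 + V1 + V2) +
      ((f0 + g0) * o0 + (f1 + g1) * o1 + (f2 + g2) * o2 + (o0 + o1 + o2) ^ 2 / 2 -
      2 / 3 * (b - (o0 + o1 + o2)) * (o0 + o1 + o2)) := by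
      field_simp
    have e2 : 2 * (2 / 3 * ((o0 + o1 + o2) / b) * ((w0 + w2) / b)) * b ^ 2 =
      2 * (2 / 3 * (o0 + o1 + o2) * (w0 + w2)) := by
      field_simp
    rw [e1, e2] at this
    linarith

end Pool.Agent.M4074R
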