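import Mathlib
import Pool.Prelude.Def_F_d9c4f0db

set_option autoImplicit false

open Ne16c1d3e Ne16c1d3e.Ne9f539be Filter

namespace Pool.Agent.M4074F

lemma lower (n : ℕ) : ((n : ℝ) ^ 2 / 3 - n) ≤
    ((((Finset.Ico (0:ℤ) n) ×ˢ (Finset.Ico (0:ℤ) n)).filter
      (fun (x, y) ↦ x ≠ y ∧ x + 3 * (y - x) ∈ (Finset.Ico (0:ℤ) n))).card : ℝ) := by
  set A := Finset.Ico (0:ℤ) n with hA
  have hAc : A.card = n := by simp [hA]
  have cc : ∀ i : ℤ, ((A.filter (fun x => x % 3 = i)) ×ˢ (A.filter (fun x => x % 3 = i))).card =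
      (A.filter (fun x => x % 3 = i)).card * (A.filter (fun x => x % 3 = i)).card :=
    fun i => Finset.card_product _ _
  have hsum : A.card = (A.filter (fun x => x % 3 = 0)).card + (A.filter (fun x => x % 3 = 1)).card
      + (A.filter (fun x => x % 3 = 2)).card := by
    rw [Finset.card_eq_sum_ones]
    simp only [Finset.card_filter, ← Finset.sum_add_distrib]
    refine Finset.sum_congr rfl fun x _ => ?_
    split_ifs <;> omega
  -- the set of pairs
  set S := (A ×ˢ A).filter (fun p => p.1 % 3 = p.2 % 3) with hS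
  have hSc : (A.filter (fun x => x % 3 = 0)).card * (A.filter (fun x => x % 3 = 0)).card +
      (A.filter (fun x => x % 3 = 1)).card * (A.filter (fun x => x % 3 = 1)).card +
      (A.filter (fun x => x % 3 = 2)).card * (A.filter (fun x => x % 3 = 2)).card ≤ S.card := by
    rw [← cc, ← cc, ← cc]
    rw [← Finset.card_union_of_disjoint, ← Finset.card_union_of_disjoint]
    · apply Finset.card_le_card
      rintro ⟨x, y⟩ h
      simp only [Finset.mem_union, Finset.mem_product, Finset.mem_filter, hS] at h ⊢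
      rcases h with (h | h) | h
      · exact ⟨⟨h.1.1, h.2.1⟩, by omega⟩
      · exact ⟨⟨h.1.1, h.2.1⟩, by omega⟩
      · exact ⟨⟨h.1.1, h.2.1⟩, by omega⟩
    · rw [Finset.disjoint_left]
      rintro ⟨x, y⟩ h h'
      simp only [Finset.mem_union, Finset.mem_product, Finset.mem_filter] at h h'
      rcases h with h | h <;> omega
    · rw [Finset.disjoint_left]
      rintro ⟨x, y⟩ h h'
      simp only [Finset.mem_product, Finset.mem_filter] at h h'
      omega
  -- injection from off-diagonal pairs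
  have hinj : (S.filter (fun p => p.1 ≠ p.2)).card ≤
      ((A ×ˢ A).filter (fun (x, y) ↦ x ≠ y ∧ x + 3 * (y - x) ∈ A)).card := by
    apply Finset.card_le_card_of_injOn (fun p : ℤ × ℤ => (p.1, (2 * p.1 + p.2) / 3))
    · rintro ⟨x, y⟩ h
      simp only [Finset.coe_filter, Finset.mem_filter, Finset.mem_product, Set.mem_ofPred_eq, hS,
        hA, Finset.mem_Ico] at h ⊢
      omega
    · rintro ⟨x, y⟩ h ⟨x', y'⟩ h' heq
      simp only [Finset.coe_filter, Finset.mem_filter, Finset.mem_product, Set.mem_ofPred_eq,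
        hS] at h h'
      simp only [Prod.mk.injEq] at heq ⊢
      omega
  have hdiag : S.card ≤ (S.filter (fun p => p.1 ≠ p.2)).card + n := by
    have h1 := Finset.card_filter_add_card_filter_not (s := S) (fun p => p.1 ≠ p.2)
    have h2 : (S.filter (fun p => ¬ (p.1 ≠ p.2))).card ≤ n := by
      rw [← hAc]
      apply Finset.card_le_card_of_injOn (fun p : ℤ × ℤ => p.1)
      · rintro ⟨x, y⟩ h
        simp only [Finset.coe_filter, Finset.mem_filter, Finset.mem_product, Set.mem_ofPred_eq,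
          hS, Finset.mem_coe] at h ⊢
        exact h.1.1.1
      · rintro ⟨x, y⟩ h ⟨x', y'⟩ h' heq
        simp only [Finset.coe_filter, Finset.mem_filter, Finset.mem_product, Set.mem_ofPred_eq,
          hS] at h h' heq
        simp only [Prod.mk.injEq]
        omega
    omega
  generalize (A.filter (fun x => x % 3 = 0)).card = c0 at *
  generalize (A.filter (fun x => x % 3 = 1)).card = c1 at *
  generalize (A.filter (fun x => x % 3 = 2)).card = c2 at *
  have e1 : (n : ℝ) = c0 + c1 + c2 := by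
    have : n = c0 + c1 + c2 := by omega
    exact_mod_cast this
  have e2 : (c0 : ℝ) * c0 + c1 * c1 + c2 * c2 ≤ S.card := by exact_mod_cast hSc
  have e3 : (S.card : ℝ) ≤ ((S.filter (fun p => p.1 ≠ p.2)).card : ℝ) + n := by exact_mod_cast hdiag
  have e4 : ((S.filter (fun p => p.1 ≠ p.2)).card : ℝ) ≤
    (((A ×ˢ A).filter (fun (x, y) ↦ x ≠ y ∧ x + 3 * (y - x) ∈ A)).card : ℝ) := by
    exact_mod_cast hinj
  have e5 : (n : ℝ) ^ 2 / 3 ≤ (c0 : ℝ) * c0 + c1 * c1 + c2 * c2 := by
    rw [e1]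
    nlinarith [sq_nonneg ((c0:ℝ) - c1), sq_nonneg ((c1:ℝ) - c2), sq_nonneg ((c0:ℝ) - c2)]
  linarith

theorem gamma_eq (C : ℝ)
    (h : ∀ A : Finset ℤ, (((A ×ˢ A).filter
      (fun (x, y) ↦ x ≠ y ∧ x + 3 * (y - x) ∈ A)).card : ℝ) ≤
        (A.card : ℝ) ^ 2 / 3 + C * (A.card : ℝ)) :
    gamma = 1 / 3 := by
  have hbdd : ∀ n : ℕ, BddAbove {k : ℕ | ∃ A : Finset ℤ, A.card = n ∧
      k = ((A ×ˢ A).filter (fun (x, y) ↦ x ≠ y ∧ x + 3 * (y - x) ∈ A)).card} := by
    intro n
    refine ⟨n * n, ?_⟩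
    rintro k ⟨A, hA, rfl⟩
    refine le_trans (Finset.card_filter_le _ _) ?_
    rw [Finset.card_product, hA]
  have hU : ∀ n : ℕ, (max013AffineTranslates n : ℝ) ≤ (n : ℝ) ^ 2 / 3 + C * n := by
    intro n
    have hne : {k : ℕ | ∃ A : Finset ℤ, A.card = n ∧
        k = ((A ×ˢ A).filter (fun (x, y) ↦ x ≠ y ∧ x + 3 * (y - x) ∈ A)).card}.Nonempty := by
      obtain ⟨A, _, hA⟩ := Set.infinite_univ.exists_subset_card_eq (α := ℤ) n
      exact ⟨_, A, hA, rfl⟩
    obtain ⟨A, hA, hk⟩ := Nat.sSup_mem hne (hbdd n)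
    have := h A
    rw [hA, ← hk] at this
    exact this
  have hL : ∀ n : ℕ, (n : ℝ) ^ 2 / 3 - n ≤ (max013AffineTranslates n : ℝ) := by
    intro n
    refine le_trans (lower n) ?_
    have : ((((Finset.Ico (0:ℤ) n) ×ˢ (Finset.Ico (0:ℤ) n)).filter
      (fun (x, y) ↦ x ≠ y ∧ x + 3 * (y - x) ∈ (Finset.Ico (0:ℤ) n))).card) ≤
        max013AffineTranslates n := by
      apply le_csSup (hbdd n)
      exact ⟨Finset.Ico (0:ℤ) n, by simp, rfl⟩
    exact_mod_cast this
  have ht : Tendsto (fun n : ℕ => (max013AffineTranslates n : ℝ) / ((n : ℝ)^2)) atTop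
      (nhds (1 / 3)) := by
    have t0 : Tendsto (fun n : ℕ => (1:ℝ) / n) atTop (nhds 0) := tendsto_one_div_atTop_nhds_zero_nat
    have tl : Tendsto (fun n : ℕ => (1/3 : ℝ) - 1 / n) atTop (nhds (1/3)) := by
      simpa using t0.const_sub (1/3 : ℝ)
    have tu : Tendsto (fun n : ℕ => (1/3 : ℝ) + C * (1 / n)) atTop (nhds (1/3)) := by
      simpa using (t0.const_mul C).const_add (1/3 : ℝ)
    refine tendsto_of_tendsto_of_tendsto_of_le_of_le' tl tu ?_ ?_
    · filter_upwards [eventually_gt_atTop 0] with n hn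
      have hn' : (0:ℝ) < n := by exact_mod_cast hn
      rw [le_div_iff₀ (by positivity)]
      have := hL n
      have e : ((1:ℝ)/3 - 1 / n) * (n:ℝ)^2 = (n : ℝ) ^ 2 / 3 - n := by field_simp
      rw [e]; exact this
    · filter_upwards [eventually_gt_atTop 0] with n hn
      have hn' : (0:ℝ) < n := by exact_mod_cast hn
      rw [div_le_iff₀ (by positivity)]
      have := hU n
      have e : ((1:ℝ)/3 + C * (1 / n)) * (n:ℝ)^2 = (n : ℝ) ^ 2 / 3 + C * n := by field_simp
      rw [e]; exact this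
  unfold gamma
  exact ht.limsup_eq

end Pool.Agent.M4074F
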