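import Mathlib
import Pool.Agent.M4074.Even

set_option autoImplicit false

namespace Pool.Agent.M4074R

/-- all bounds for one cell -/
def Cell3 (n x y z : ℝ) : Prop :=
  n ≤ x * y ∧ n ≤ x * z ∧ n ≤ y * z ∧
  (∀ s : ℝ, 0 ≤ s → s ≤ x → s ≤ y → n ≤ (x - s) * (y - s) + s * z) ∧
  (∀ s : ℝ, 0 ≤ s → s ≤ x → s ≤ z → n ≤ (x - s) * (z - s) + s * y) ∧
  (∀ s : ℝ, 0 ≤ s → s ≤ y → s ≤ z → n ≤ (y - s) * (z - s) + s * x)

/-- the mixed parity inequality -/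
def R1Prop : Prop := ∀ e0 e1 e2 o0 o1 o2 w0 w1 N0 N1 N2 M0 M1 M2 : ℝ,
  0 ≤ e0 → 0 ≤ e1 → 0 ≤ e2 → 0 ≤ o0 → 0 ≤ o1 → 0 ≤ o2 → 0 ≤ w0 → 0 ≤ w1 →
  0 < e0 + e1 + e2 → 0 < o0 + o1 + o2 →
  w0 + w1 < e0 + e1 + e2 + (o0 + o1 + o2) →
  2 * (e0 + e1 + e2 + (o0 + o1 + o2)) - (w0 + w1) - w1 < 3 * (e0 + e1 + e2) →
  2 * (e0 + e1 + e2 + (o0 + o1 + o2)) - (w0 + w1) - w0 < 3 * (o0 + o1 + o2) →
  Cell3 N0 (e0 + o0) e1 w0 → Cell3 N1 (e1 + o1) e2 w0 → Cell3 N2 (e2 + o2) e0 w0 →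
  Cell3 M0 (e0 + o0) o1 w1 → Cell3 M1 (e1 + o1) o2 w1 → Cell3 M2 (e2 + o2) o0 w1 →
  N0 + N1 + N2 + (M0 + M1 + M2) ≤
    (2 * (e0 + e1 + e2 + (o0 + o1 + o2)) * (w0 + w1) - (w0 + w1) ^ 2) / 3

end Pool.Agent.M4074R

namespace Pool.Agent.M4074H

open Pool.Agent.M4074R

lemma cell3 (X Y W : Finset ℤ) : Cell3 ((NN X Y W : ℝ) - 1/4) X.card Y.card W.card := by
  have hxy : (NN X Y W : ℝ) ≤ X.card * Y.card := by exact_mod_cast NN_xy X Y W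
  have hxw : (NN X Y W : ℝ) ≤ X.card * W.card := by exact_mod_cast NN_xw X Y W
  have hyw : (NN X Y W : ℝ) ≤ Y.card * W.card := by exact_mod_cast NN_yw X Y W
  refine ⟨by linarith, by linarith, by linarith, ?_, ?_, ?_⟩
  · intro s h0 h1 h2
    have := RW X Y W s h0 h1 h2
    linarith
  · intro s h0 h1 h2
    have := RY X Y W s h0 h1 h2
    linarith
  · intro s h0 h1 h2
    have := RX X Y W s h0 h1 h2
    linarith

lemma NN_even (B W : Finset ℤ) : NN B B (cm 2 0 W) ≤ (cm 2 0 B).card * (cm 2 0 W).card := by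
  have h1 : NN B B (cm 2 0 W) ≤ NN B (cm 2 0 B) (cm 2 0 W) := by
    apply NN_mono
    intro x hx y hy hz
    have h2 := ((mem_cm _ _ _ _).mp hz).2
    refine ⟨hx, ?_, hz⟩
    rw [mem_cm]
    exact ⟨hy, by omega⟩
  exact le_trans h1 (NN_yw _ _ _)

lemma NN_odd (B W : Finset ℤ) : NN B B (cm 2 1 W) ≤ (cm 2 1 B).card * (cm 2 1 W).card := by
  have h1 : NN B B (cm 2 1 W) ≤ NN B (cm 2 1 B) (cm 2 1 W) := by
    apply NN_mono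
    intro x hx y hy hz
    have h2 := ((mem_cm _ _ _ _).mp hz).2
    refine ⟨hx, ?_, hz⟩
    rw [mem_cm]
    exact ⟨hy, by omega⟩
  exact le_trans h1 (NN_yw _ _ _)

theorem cruxMixed (hR : R1Prop) : CruxMixed 5 := by
  intro B W hW hopos hepos hr0 hr1
  left
  have d3 := dec3m B W hW
  have cE := card_E B
  have cO := card_O B
  have cB := card_B B
  have cW := card_cm2 W
  have cB0 := card_Bk 0 B
  have cB1 := card_Bk 1 B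
  have cB2 := card_Bk 2 B
  have n0 := cell3 (cm 3 0 B) (Ek 1 B) (cm 2 0 W)
  have n1 := cell3 (cm 3 1 B) (Ek 2 B) (cm 2 0 W)
  have n2 := cell3 (cm 3 2 B) (Ek 0 B) (cm 2 0 W)
  have m0 := cell3 (cm 3 0 B) (Ok 1 B) (cm 2 1 W)
  have m1 := cell3 (cm 3 1 B) (Ok 2 B) (cm 2 1 W)
  have m2 := cell3 (cm 3 2 B) (Ok 0 B) (cm 2 1 W)
  have q0 : (NN B B (cm 2 0 W) : ℝ) ≤ (cm 2 0 B).card * (cm 2 0 W).card := by
    exact_mod_cast NN_even B W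
  have q1 : (NN B B (cm 2 1 W) : ℝ) ≤ (cm 2 1 B).card * (cm 2 1 W).card := by
    exact_mod_cast NN_odd B W
  have d3' : (NN B B W : ℝ) ≤ ((NN (cm 3 0 B) (Ek 1 B) (cm 2 0 W) : ℝ) +
      NN (cm 3 1 B) (Ek 2 B) (cm 2 0 W) + NN (cm 3 2 B) (Ek 0 B) (cm 2 0 W)) +
      ((NN (cm 3 0 B) (Ok 1 B) (cm 2 1 W) : ℝ) +
      NN (cm 3 1 B) (Ok 2 B) (cm 2 1 W) + NN (cm 3 2 B) (Ok 0 B) (cm 2 1 W)) := by
    exact_mod_cast d3
  obtain ⟨e0, he0⟩ : ∃ x : ℝ, x = (Ek 0 B).card := ⟨_, rfl⟩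
  obtain ⟨e1, he1⟩ : ∃ x : ℝ, x = (Ek 1 B).card := ⟨_, rfl⟩
  obtain ⟨e2, he2⟩ : ∃ x : ℝ, x = (Ek 2 B).card := ⟨_, rfl⟩
  obtain ⟨o0, ho0⟩ : ∃ x : ℝ, x = (Ok 0 B).card := ⟨_, rfl⟩
  obtain ⟨o1, ho1⟩ : ∃ x : ℝ, x = (Ok 1 B).card := ⟨_, rfl⟩
  obtain ⟨o2, ho2⟩ : ∃ x : ℝ, x = (Ok 2 B).card := ⟨_, rfl⟩
  obtain ⟨w0, hw0⟩ : ∃ x : ℝ, x = (cm 2 0 W).card := ⟨_, rfl⟩
  obtain ⟨w1, hw1⟩ : ∃ x : ℝ, x = (cm 2 1 W).card := ⟨_, rfl⟩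
  have BB0 : ((cm 3 0 B).card : ℝ) = e0 + o0 := by
    rw [he0, ho0]; exact_mod_cast cB0
  have BB1 : ((cm 3 1 B).card : ℝ) = e1 + o1 := by
    rw [he1, ho1]; exact_mod_cast cB1
  have BB2 : ((cm 3 2 B).card : ℝ) = e2 + o2 := by
    rw [he2, ho2]; exact_mod_cast cB2
  have EE : ((cm 2 0 B).card : ℝ) = e0 + e1 + e2 := by
    rw [he0, he1, he2]; exact_mod_cast cE
  have OO : ((cm 2 1 B).card : ℝ) = o0 + o1 + o2 := by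
    rw [ho0, ho1, ho2]; exact_mod_cast cO
  have BB : (B.card : ℝ) = e0 + e1 + e2 + (o0 + o1 + o2) := by
    rw [he0, he1, he2, ho0, ho1, ho2]; exact_mod_cast cB
  have WW : (W.card : ℝ) = w0 + w1 := by
    rw [hw0, hw1]; exact_mod_cast cW
  have pe0 : 0 ≤ e0 := by rw [he0]; positivity
  have pe1 : 0 ≤ e1 := by rw [he1]; positivity
  have pe2 : 0 ≤ e2 := by rw [he2]; positivity
  have po0 : 0 ≤ o0 := by rw [ho0]; positivity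
  have po1 : 0 ≤ o1 := by rw [ho1]; positivity
  have po2 : 0 ≤ o2 := by rw [ho2]; positivity
  have pw0 : 0 ≤ w0 := by rw [hw0]; positivity
  have pw1 : 0 ≤ w1 := by rw [hw1]; positivity
  have hopos' : 0 < o0 + o1 + o2 := by rw [← OO]; exact_mod_cast hopos
  have hepos' : 0 < e0 + e1 + e2 := by rw [← EE]; exact_mod_cast hepos
  rw [BB0, ← he1, ← hw0] at n0
  rw [BB1, ← he2, ← hw0] at n1
  rw [BB2, ← he0, ← hw0] at n2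
  rw [BB0, ← ho1, ← hw1] at m0
  rw [BB1, ← ho2, ← hw1] at m1
  rw [BB2, ← ho0, ← hw1] at m2
  rw [EE, ← hw0] at q0
  rw [OO, ← hw1] at q1
  rw [BB, WW, ← hw1] at hr1
  rw [BB, WW, ← hw0] at hr0
  rw [BB, WW]
  rcases le_or_gt (e0 + e1 + e2 + (o0 + o1 + o2)) (w0 + w1) with hwb | hwb
  · rw [eta_ge _ _ hwb]
    have a0 := n0.1
    have a1 := n1.1
    have a2 := n2.1
    have b0 := m0.1
    have b1 := m1.1
    have b2 := m2.1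
    nlinarith [sq_nonneg ((e0 + o0) - (e1 + o1)), sq_nonneg ((e1 + o1) - (e2 + o2)),
      sq_nonneg ((e0 + o0) - (e2 + o2))]
  rw [eta_lt _ _ hwb.le] at hr1 hr0 ⊢
  rw [eta_lt _ _ (by linarith)] at hr1 hr0
  have k1 : 2 * (e0 + e1 + e2 + (o0 + o1 + o2)) - (w0 + w1) - w1 < 3 * (e0 + e1 + e2) := by
    by_contra hc
    push Not at hc
    have := mul_le_mul_of_nonneg_left hc pw0
    nlinarith
  have k0 : 2 * (e0 + e1 + e2 + (o0 + o1 + o2)) - (w0 + w1) - w0 < 3 * (o0 + o1 + o2) := by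
    by_contra hc
    push Not at hc
    have := mul_le_mul_of_nonneg_left hc pw1
    nlinarith
  have := hR e0 e1 e2 o0 o1 o2 w0 w1 _ _ _ _ _ _ pe0 pe1 pe2 po0 po1 po2 pw0 pw1 hepos' hopos' hwb
    k1 k0 n0 n1 n2 m0 m1 m2
  linarith

end Pool.Agent.M4074H
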