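import Mathlib

set_option autoImplicit false

namespace Pool.Agent.M4074S

/-- the quadratic form on sum-zero vectors -/
noncomputable def Q (x y A0 A1 A2 G0 G1 G2 : ℝ) : ℝ :=
  (x ^ 2 + 3 * x) / 2 * (A0 ^ 2 + A1 ^ 2 + A2 ^ 2) + (y ^ 2 + 3 * y) / 2 * (G0 ^ 2 + G1 ^ 2 + G2 ^ 2)
  + (A0 * (x * y * G0 - x * G2 - y * G1) + A1 * (x * y * G1 - x * G0 - y * G2)
    + A2 * (x * y * G2 - x * G1 - y * G0))

/-- discriminant -/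
noncomputable def Dl (x y : ℝ) : ℝ := 2 * x * y * (x + y) + 12 * x * y - (x + y) ^ 2

lemma Q_nonneg (x y A0 A1 A2 G0 G1 G2 : ℝ) (hx : 0 < x) (hD : 0 ≤ Dl x y)
    (hA : A0 + A1 + A2 = 0) (hG : G0 + G1 + G2 = 0) : 0 ≤ Q x y A0 A1 A2 G0 G1 G2 := by
  have hp : 0 < 2 * (x ^ 2 + 3 * x) := by positivity
  have hA2 : A2 = -A0 - A1 := by linarith
  have hG2 : G2 = -G0 - G1 := by linarith
  have key : 2 * (x ^ 2 + 3 * x) * Q x y A0 A1 A2 G0 G1 G2 =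
      ((x ^ 2 + 3 * x) * A0 + (x * y * G0 - x * G2 - y * G1)) ^ 2 +
      ((x ^ 2 + 3 * x) * A1 + (x * y * G1 - x * G0 - y * G2)) ^ 2 +
      ((x ^ 2 + 3 * x) * A2 + (x * y * G2 - x * G1 - y * G0)) ^ 2 +
      Dl x y * (G0 ^ 2 + G1 ^ 2 + G2 ^ 2) := by
    subst hA2 hG2
    unfold Q Dl
    ring
  have h1 : 0 ≤ 2 * (x ^ 2 + 3 * x) * Q x y A0 A1 A2 G0 G1 G2 := by
    rw [key]
    positivity
  exact nonneg_of_mul_nonneg_right h1 hp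

/-- `S` with all brackets -/
noncomputable def Sall (x y a0 a1 a2 g0 g1 g2 : ℝ) : ℝ :=
  x * a1 * (((1 + x) * a0 + (1 + y) * g0) - a1) + x * a2 * (((1 + x) * a1 + (1 + y) * g1) - a2)
  + x * a0 * (((1 + x) * a2 + (1 + y) * g2) - a0)
  + (y * g1 * (((1 + x) * a0 + (1 + y) * g0) - g1) + y * g2 * (((1 + x) * a1 + (1 + y) * g1) - g2)
  + y * g0 * (((1 + x) * a2 + (1 + y) * g2) - g0))

lemma Sall_eq (x y a0 a1 a2 g0 g1 g2 : ℝ) (ha : a0 + a1 + a2 = 1) (hg : g0 + g1 + g2 = 1) :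
    (x + y) * (x + y + 1) / 3 - Sall x y a0 a1 a2 g0 g1 g2 =
      Q x y (a0 - 1/3) (a1 - 1/3) (a2 - 1/3) (g0 - 1/3) (g1 - 1/3) (g2 - 1/3) := by
  have ha2 : a2 = 1 - a0 - a1 := by linarith
  have hg2 : g2 = 1 - g0 - g1 := by linarith
  subst ha2 hg2
  unfold Q Sall
  ring

/-- the linear form trick -/
lemma Q_lin (x y A0 A1 A2 G0 G1 G2 : ℝ) (hx : 0 < x) (hD : 0 < Dl x y)
    (hA : A0 + A1 + A2 = 0) (hG : G0 + G1 + G2 = 0)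
    (hk : x * y * (2 * x * (x + y) + 8 * x + 3 * y + 9) ≤ (1 + (x + y)) * Dl x y) :
    x * ((A1 - (1 + x) * A0 - (1 + y) * G0) - (1 + (x + y)) / 3) ≤ Q x y A0 A1 A2 G0 G1 G2 := by
  have hA2 : A2 = -A0 - A1 := by linarith
  have hG2 : G2 = -G0 - G1 := by linarith
  obtain ⟨a0, ha0⟩ : ∃ a0, a0 = (-(y ^ 2 + 3 * y) * (3 + 2 * x) + (1 + y) * (2 * x * y + x + y)) / 3 :=
    ⟨_, rfl⟩
  obtain ⟨a1, ha1⟩ : ∃ a1, a1 = ((y ^ 2 + 3 * y) * (3 + x) + (1 + y) * (-x * y - 2 * x + y)) / 3 :=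
    ⟨_, rfl⟩
  obtain ⟨g0, hg0⟩ : ∃ g0, g0 = (-2 * (x ^ 2 + 3 * x) * (1 + y) + x * y * (3 + 2 * x) + x * (3 + x)
    + x * y) / 3 := ⟨_, rfl⟩
  obtain ⟨g1, hg1⟩ : ∃ g1, g1 = ((x ^ 2 + 3 * x) * (1 + y) - (x * y * (3 + x) - x * x
    + y * (3 + 2 * x))) / 3 := ⟨_, rfl⟩
  have h := Q_nonneg x y (Dl x y * A0 - x * a0) (Dl x y * A1 - x * a1)
    (-(Dl x y * A0 - x * a0) - (Dl x y * A1 - x * a1))
    (Dl x y * G0 - x * g0) (Dl x y * G1 - x * g1)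
    (-(Dl x y * G0 - x * g0) - (Dl x y * G1 - x * g1)) hx hD.le (by ring) (by ring)
  have key : Q x y (Dl x y * A0 - x * a0) (Dl x y * A1 - x * a1)
    (-(Dl x y * A0 - x * a0) - (Dl x y * A1 - x * a1))
    (Dl x y * G0 - x * g0) (Dl x y * G1 - x * g1)
    (-(Dl x y * G0 - x * g0) - (Dl x y * G1 - x * g1)) =
    Dl x y * (Dl x y * Q x y A0 A1 A2 G0 G1 G2 - Dl x y * x * (A1 - (1 + x) * A0 - (1 + y) * G0)
      + x ^ 2 * (y * (2 * x * (x + y) + 8 * x + 3 * y + 9)) / 3) := by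
    subst hA2 hG2 ha0 ha1 hg0 hg1
    unfold Q Dl
    ring
  rw [key] at h
  have h2 := nonneg_of_mul_nonneg_right h hD
  have h3 : Dl x y * (x * ((A1 - (1 + x) * A0 - (1 + y) * G0) - (1 + (x + y)) / 3)) ≤
      Dl x y * Q x y A0 A1 A2 G0 G1 G2 := by
    have h4 := mul_le_mul_of_nonneg_left hk hx.le
    nlinarith
  exact le_of_mul_le_mul_left h3 hD

end Pool.Agent.M4074S
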