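import Mathlib
import Pool.Agent.M4074.RS1

set_option autoImplicit false

namespace Pool.Agent.M4074S

lemma Dl_pos1 (x y : ℝ) (hx : 1/2 ≤ x) (hy : 1/2 ≤ y) : 0 < Dl x y := by
  unfold Dl
  nlinarith [mul_nonneg (sub_nonneg.mpr hx) (sub_nonneg.mpr hy), mul_nonneg (mul_nonneg (sub_nonneg.mpr hx)
    (sub_nonneg.mpr hy)) (sub_nonneg.mpr hx), mul_nonneg (mul_nonneg (sub_nonneg.mpr hx)
    (sub_nonneg.mpr hy)) (sub_nonneg.mpr hy)]

lemma Dl_pos2 (x y : ℝ) (hx : 1/3 ≤ x) (hy : 1/3 ≤ y) (h : x + y ≤ 5) : 0 < Dl x y := by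
  unfold Dl
  nlinarith [mul_nonneg (sub_nonneg.mpr hx) (sub_nonneg.mpr hy), mul_nonneg (mul_nonneg (sub_nonneg.mpr hx)
    (sub_nonneg.mpr hy)) (sub_nonneg.mpr hx), mul_nonneg (mul_nonneg (sub_nonneg.mpr hx)
    (sub_nonneg.mpr hy)) (sub_nonneg.mpr hy), mul_nonneg (sub_nonneg.mpr hx) (sub_nonneg.mpr h),
    mul_nonneg (sub_nonneg.mpr hy) (sub_nonneg.mpr h)]

lemma sc3 (x y : ℝ) (hx : 1/3 ≤ x) (hxy : x ≤ y) (h : x + y ≤ 5) :
    x * y * (2 * x * (x + y) + 8 * x + 3 * y + 9) ≤ (1 + (x + y)) * Dl x y := by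
  unfold Dl
  obtain ⟨p, hp⟩ : ∃ p, x = 1/3 + p := ⟨x - 1/3, by ring⟩
  obtain ⟨q, hq⟩ : ∃ q, y = x + q := ⟨y - x, by ring⟩
  have hp0 : 0 ≤ p := by linarith
  have hq0 : 0 ≤ q := by linarith
  subst hq
  subst hp
  have h5 : 0 ≤ 13/3 - 2 * p - q := by linarith
  nlinarith [mul_nonneg hp0 hq0, mul_nonneg (mul_nonneg hp0 hq0) hq0, mul_nonneg (mul_nonneg hp0 hq0) hp0,
    mul_nonneg hp0 hp0, mul_nonneg hq0 hq0, mul_nonneg (mul_nonneg hq0 hq0) h5,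
    mul_nonneg (mul_nonneg hp0 hp0) hp0, mul_nonneg (mul_nonneg hp0 hq0) h5,
    mul_nonneg (mul_nonneg hp0 hp0) (mul_nonneg hp0 hp0), mul_nonneg (mul_nonneg hp0 hp0) (mul_nonneg hp0 hq0),
    mul_nonneg (mul_nonneg hp0 hp0) (mul_nonneg hq0 hq0), mul_nonneg (mul_nonneg hp0 hq0) (mul_nonneg hq0 hq0),
    mul_nonneg hq0 h5, mul_nonneg hp0 h5]

/-- the sum -/
noncomputable def SS (x y a0 a1 a2 g0 g1 g2 : ℝ) : ℝ :=
  x * a1 * max (((1 + x) * a0 + (1 + y) * g0) - a1) 0 + x * a2 * max (((1 + x) * a1 + (1 + y) * g1) - a2) 0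
  + x * a0 * max (((1 + x) * a2 + (1 + y) * g2) - a0) 0
  + (y * g1 * max (((1 + x) * a0 + (1 + y) * g0) - g1) 0 + y * g2 * max (((1 + x) * a1 + (1 + y) * g1) - g2) 0
  + y * g0 * max (((1 + x) * a2 + (1 + y) * g2) - g0) 0)

lemma SS_swap (x y a0 a1 a2 g0 g1 g2 : ℝ) : SS x y a0 a1 a2 g0 g1 g2 = SS y x g0 g1 g2 a0 a1 a2 := by
  unfold SS
  rw [add_comm ((1 + x) * a0), add_comm ((1 + x) * a1), add_comm ((1 + x) * a2)]
  ring

lemma SS_rot (x y a0 a1 a2 g0 g1 g2 : ℝ) : SS x y a0 a1 a2 g0 g1 g2 = SS x y a1 a2 a0 g1 g2 g0 := by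
  unfold SS
  ring

lemma max_eq' (z : ℝ) : max z 0 = z + max (-z) 0 := by
  rcases le_total 0 z with h | h
  · rw [max_eq_left h, max_eq_right (by linarith)]; ring
  · rw [max_eq_right h, max_eq_left (by linarith)]; ring

/-- cases 1 and 3 -/
theorem case13 (x y a0 a1 a2 g0 g1 g2 : ℝ) (hx : 1/3 ≤ x) (hy : 1/3 ≤ y)
    (ha0 : 0 ≤ a0) (ha1 : 0 ≤ a1) (ha2 : 0 ≤ a2)
    (ha : a0 + a1 + a2 = 1) (hg : g0 + g1 + g2 = 1)
    (hD : 0 < Dl x y)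
    (h0 : g1 ≤ (1 + x) * a0 + (1 + y) * g0) (h1 : g2 ≤ (1 + x) * a1 + (1 + y) * g1)
    (h2 : g0 ≤ (1 + x) * a2 + (1 + y) * g2)
    (hk : (x + y ≤ 5 ∧ x ≤ y) ∨ (a1 ≤ (1 + x) * a0 + (1 + y) * g0 ∧ a2 ≤ (1 + x) * a1 + (1 + y) * g1 ∧
      a0 ≤ (1 + x) * a2 + (1 + y) * g2)) :
    SS x y a0 a1 a2 g0 g1 g2 ≤ (x + y) * (x + y + 1) / 3 := by
  have hx0 : 0 < x := by linarith
  have hS := Sall_eq x y a0 a1 a2 g0 g1 g2 ha hg
  have hQ := Q_nonneg x y (a0 - 1/3) (a1 - 1/3) (a2 - 1/3) (g0 - 1/3) (g1 - 1/3) (g2 - 1/3) hx0 hD.le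
    (by linarith) (by linarith)
  have e : SS x y a0 a1 a2 g0 g1 g2 = Sall x y a0 a1 a2 g0 g1 g2 +
      (a1 * (x * max (-(((1 + x) * a0 + (1 + y) * g0) - a1)) 0) +
      a2 * (x * max (-(((1 + x) * a1 + (1 + y) * g1) - a2)) 0) +
      a0 * (x * max (-(((1 + x) * a2 + (1 + y) * g2) - a0)) 0)) := by
    unfold SS
    rw [max_eq' (((1 + x) * a0 + (1 + y) * g0) - a1), max_eq' (((1 + x) * a1 + (1 + y) * g1) - a2),
      max_eq' (((1 + x) * a2 + (1 + y) * g2) - a0),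
      max_eq_left (show 0 ≤ ((1 + x) * a0 + (1 + y) * g0) - g1 by linarith),
      max_eq_left (show 0 ≤ ((1 + x) * a1 + (1 + y) * g1) - g2 by linarith),
      max_eq_left (show 0 ≤ ((1 + x) * a2 + (1 + y) * g2) - g0 by linarith)]
    unfold Sall
    ring
  set q := (x + y) * (x + y + 1) / 3 - Sall x y a0 a1 a2 g0 g1 g2 with hq
  rw [← hS] at hQ
  have b : x * max (-(((1 + x) * a0 + (1 + y) * g0) - a1)) 0 ≤ q ∧
      x * max (-(((1 + x) * a1 + (1 + y) * g1) - a2)) 0 ≤ q ∧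
      x * max (-(((1 + x) * a2 + (1 + y) * g2) - a0)) 0 ≤ q := by
    rcases hk with ⟨h5, hxy⟩ | ⟨k0, k1, k2⟩
    · have hk3 := sc3 x y hx hxy h5
      refine ⟨?_, ?_, ?_⟩
      · rcases le_total (-(((1 + x) * a0 + (1 + y) * g0) - a1)) 0 with h | h
        · rw [max_eq_right h, mul_zero]; exact hQ
        · rw [max_eq_left h]
          have := Q_lin x y (a0 - 1/3) (a1 - 1/3) (a2 - 1/3) (g0 - 1/3) (g1 - 1/3) (g2 - 1/3) hx0 hD
            (by linarith) (by linarith) hk3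
          rw [← hS] at this
          refine le_trans (le_of_eq ?_) this
          ring
      · rcases le_total (-(((1 + x) * a1 + (1 + y) * g1) - a2)) 0 with h | h
        · rw [max_eq_right h, mul_zero]; exact hQ
        · rw [max_eq_left h]
          have := Q_lin x y (a1 - 1/3) (a2 - 1/3) (a0 - 1/3) (g1 - 1/3) (g2 - 1/3) (g0 - 1/3) hx0 hD
            (by linarith) (by linarith) hk3
          have e2 : Q x y (a1 - 1/3) (a2 - 1/3) (a0 - 1/3) (g1 - 1/3) (g2 - 1/3) (g0 - 1/3) =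
            Q x y (a0 - 1/3) (a1 - 1/3) (a2 - 1/3) (g0 - 1/3) (g1 - 1/3) (g2 - 1/3) := by
            unfold Q; ring
          rw [e2, ← hS] at this
          refine le_trans (le_of_eq ?_) this
          ring
      · rcases le_total (-(((1 + x) * a2 + (1 + y) * g2) - a0)) 0 with h | h
        · rw [max_eq_right h, mul_zero]; exact hQ
        · rw [max_eq_left h]
          have := Q_lin x y (a2 - 1/3) (a0 - 1/3) (a1 - 1/3) (g2 - 1/3) (g0 - 1/3) (g1 - 1/3) hx0 hD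
            (by linarith) (by linarith) hk3
          have e2 : Q x y (a2 - 1/3) (a0 - 1/3) (a1 - 1/3) (g2 - 1/3) (g0 - 1/3) (g1 - 1/3) =
            Q x y (a0 - 1/3) (a1 - 1/3) (a2 - 1/3) (g0 - 1/3) (g1 - 1/3) (g2 - 1/3) := by
            unfold Q; ring
          rw [e2, ← hS] at this
          refine le_trans (le_of_eq ?_) this
          ring
    · refine ⟨?_, ?_, ?_⟩
      · rw [max_eq_right (by linarith), mul_zero]; exact hQ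
      · rw [max_eq_right (by linarith), mul_zero]; exact hQ
      · rw [max_eq_right (by linarith), mul_zero]; exact hQ
  have c0 := mul_le_mul_of_nonneg_left b.1 ha1
  have c1 := mul_le_mul_of_nonneg_left b.2.1 ha2
  have c2 := mul_le_mul_of_nonneg_left b.2.2 ha0
  have c3 : a1 * q + a2 * q + a0 * q = q := by
    have : a1 * q + a2 * q + a0 * q = (a0 + a1 + a2) * q := by ring
    rw [this, ha, one_mul]
  rw [e]
  linarith

/-- case 4 -/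
def S4 : Prop := ∀ x y a0 a1 a2 g0 g1 g2 : ℝ, 1/3 ≤ y → y ≤ x → x + y ≤ 5 →
  0 ≤ a0 → 0 ≤ a1 → 0 ≤ a2 → 0 ≤ g0 → 0 ≤ g1 → 0 ≤ g2 → a0 + a1 + a2 = 1 → g0 + g1 + g2 = 1 →
  (1 + x) * a0 + (1 + y) * g0 ≤ a1 → SS x y a0 a1 a2 g0 g1 g2 ≤ (x + y) * (x + y + 1) / 3

/-- the `S` inequality for `x + y ≤ 5` -/
theorem SS_small (h4 : S4) (x y a0 a1 a2 g0 g1 g2 : ℝ) (hx : 1/3 ≤ x) (hy : 1/3 ≤ y) (h5 : x + y ≤ 5)
    (ha0 : 0 ≤ a0) (ha1 : 0 ≤ a1) (ha2 : 0 ≤ a2) (hg0 : 0 ≤ g0) (hg1 : 0 ≤ g1) (hg2 : 0 ≤ g2)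
    (ha : a0 + a1 + a2 = 1) (hg : g0 + g1 + g2 = 1) :
    SS x y a0 a1 a2 g0 g1 g2 ≤ (x + y) * (x + y + 1) / 3 := by
  have hD := Dl_pos2 x y hx hy h5
  -- wlog x ≥ y
  have main : ∀ x y a0 a1 a2 g0 g1 g2 : ℝ, 1/3 ≤ x → 1/3 ≤ y → x + y ≤ 5 → 0 < Dl x y →
      0 ≤ a0 → 0 ≤ a1 → 0 ≤ a2 → 0 ≤ g0 → 0 ≤ g1 → 0 ≤ g2 →
      a0 + a1 + a2 = 1 → g0 + g1 + g2 = 1 → y ≤ x →
      SS x y a0 a1 a2 g0 g1 g2 ≤ (x + y) * (x + y + 1) / 3 := by
    intro x y a0 a1 a2 g0 g1 g2 hx hy h5 hD ha0 ha1 ha2 hg0 hg1 hg2 ha hg hyx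
    by_cases k0 : (1 + x) * a0 + (1 + y) * g0 ≤ a1
    · exact h4 x y a0 a1 a2 g0 g1 g2 hy hyx h5 ha0 ha1 ha2 hg0 hg1 hg2 ha hg k0
    by_cases k1 : (1 + x) * a1 + (1 + y) * g1 ≤ a2
    · rw [SS_rot]
      exact h4 x y a1 a2 a0 g1 g2 g0 hy hyx h5 ha1 ha2 ha0 hg1 hg2 hg0 (by linarith) (by linarith) k1
    by_cases k2 : (1 + x) * a2 + (1 + y) * g2 ≤ a0
    · rw [SS_rot, SS_rot]
      exact h4 x y a2 a0 a1 g2 g0 g1 hy hyx h5 ha2 ha0 ha1 hg2 hg0 hg1 (by linarith) (by linarith) k2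
    push Not at k0 k1 k2
    rw [SS_swap]
    have hD' : 0 < Dl y x := by
      have : Dl y x = Dl x y := by unfold Dl; ring
      rw [this]; exact hD
    have := case13 y x g0 g1 g2 a0 a1 a2 hy hx hg0 hg1 hg2 hg ha hD' (by linarith) (by linarith)
      (by linarith) (Or.inl ⟨by linarith, hyx⟩)
    linarith
  rcases le_total y x with h | h
  · exact main x y a0 a1 a2 g0 g1 g2 hx hy h5 hD ha0 ha1 ha2 hg0 hg1 hg2 ha hg h
  · have hD' : 0 < Dl y x := by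
      have : Dl y x = Dl x y := by unfold Dl; ring
      rw [this]; exact hD
    rw [SS_swap]
    have := main y x g0 g1 g2 a0 a1 a2 hy hx (by linarith) hD' hg0 hg1 hg2 ha0 ha1 ha2 hg ha h
    linarith

end Pool.Agent.M4074S
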