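import Mathlib
import Pool.Agent.M4074.RS2
import Pool.Agent.M4074.Mixed

set_option autoImplicit false

namespace Pool.Agent.M4074S

open Pool.Agent.M4074R (Cell3 R1Prop)

/-- product bound with one small class -/
lemma P_bound (β0 β1 β2 : ℝ) : β0 * β1 + β1 * β2 + β2 * β0 ≤
    (β0 + β1 + β2) ^ 2 / 3 - 3/4 * ((β0 + β1 + β2) / 3 - β0) ^ 2 := by
  nlinarith [sq_nonneg (β1 - β2)]

/-- the case `x ≤ 1/2`, `4 ≤ x + y` -/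
lemma caseA (x y a0 a1 a2 g0 g1 g2 s0 s1 n0 n1 n2 m0 m1 m2 : ℝ) (hx : 1/3 ≤ x) (_hy : 1/3 ≤ y)
    (hx2 : x ≤ 1/2) (hxy : 4 ≤ x + y)
    (ha0 : 0 ≤ a0) (ha1 : 0 ≤ a1) (ha2 : 0 ≤ a2)
    (ha : a0 + a1 + a2 = 1) (hg : g0 + g1 + g2 = 1)
    (hs0 : s0 ≤ 3 * x - 1)
    (hn0 : n0 ≤ s0 * ((1 + x) * a1)) (hn1 : n1 ≤ s0 * ((1 + x) * a2)) (hn2 : n2 ≤ s0 * ((1 + x) * a0))
    (hm0 : m0 ≤ ((1 + x) * a0 + (1 + y) * g0) * ((1 + y) * g1))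
    (hm1 : m1 ≤ ((1 + x) * a1 + (1 + y) * g1) * ((1 + y) * g2))
    (hm2 : m2 ≤ ((1 + x) * a2 + (1 + y) * g2) * ((1 + y) * g0)) :
    n0 + n1 + n2 + (m0 + m1 + m2) ≤ ((x + y) ^ 2 + 4 * (x + y)) / 3 := by
  obtain ⟨β0, hβ0⟩ : ∃ β, β = (1 + x) * a0 + (1 + y) * g0 := ⟨_, rfl⟩
  obtain ⟨β1, hβ1⟩ : ∃ β, β = (1 + x) * a1 + (1 + y) * g1 := ⟨_, rfl⟩
  obtain ⟨β2, hβ2⟩ : ∃ β, β = (1 + x) * a2 + (1 + y) * g2 := ⟨_, rfl⟩
  obtain ⟨T, hT⟩ : ∃ T, T = x + y + 2 := ⟨_, rfl⟩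
  have hsum : β0 + β1 + β2 = T := by
    rw [hβ0, hβ1, hβ2, hT]
    have : (1 + x) * a0 + (1 + y) * g0 + ((1 + x) * a1 + (1 + y) * g1) + ((1 + x) * a2 + (1 + y) * g2) =
      (1 + x) * (a0 + a1 + a2) + (1 + y) * (g0 + g1 + g2) := by ring
    rw [this, ha, hg]; ring
  have e0 : (1 + y) * g0 = β0 - (1 + x) * a0 := by rw [hβ0]; ring
  have e1 : (1 + y) * g1 = β1 - (1 + x) * a1 := by rw [hβ1]; ring
  have e2 : (1 + y) * g2 = β2 - (1 + x) * a2 := by rw [hβ2]; ring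
  rw [← hβ0, e1] at hm0
  rw [← hβ1, e2] at hm1
  rw [← hβ2, e0] at hm2
  have p0 := P_bound β0 β1 β2
  have p1 := P_bound β1 β2 β0
  have p2 := P_bound β2 β0 β1
  rw [hsum] at p0
  rw [show β1 + β2 + β0 = T by linarith] at p1
  rw [show β2 + β0 + β1 = T by linarith] at p2
  -- pointwise bound
  have key : ∀ β P : ℝ, P ≤ T ^ 2 / 3 - 3/4 * (T / 3 - β) ^ 2 →
      s0 * (1 + x) + P - (1 + x) * β ≤ (T ^ 2 - 4) / 3 := by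
    intro β P hP
    have h1 : s0 * (1 + x) ≤ (3 * x - 1) * (1 + x) :=
      mul_le_mul_of_nonneg_right hs0 (by linarith)
    nlinarith [sq_nonneg (T / 3 - β - 2/3 * (1 + x)), mul_nonneg (show (0:ℝ) ≤ T - 6 by linarith)
      (show (0:ℝ) ≤ 1 + x by linarith), mul_nonneg (sub_nonneg.mpr hx) (sub_nonneg.mpr hx2)]
  have k0 := mul_le_mul_of_nonneg_left (key β0 (β0 * β1 + β1 * β2 + β2 * β0) p0) ha1
  have k1 := mul_le_mul_of_nonneg_left (key β1 (β0 * β1 + β1 * β2 + β2 * β0) (by linarith)) ha2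
  have k2 := mul_le_mul_of_nonneg_left (key β2 (β0 * β1 + β1 * β2 + β2 * β0) (by linarith)) ha0
  have t1 : (x + y) ^ 2 + 4 * (x + y) = T ^ 2 - 4 := by rw [hT]; ring
  rw [t1]
  have c1 : a1 * ((T ^ 2 - 4) / 3) + a2 * ((T ^ 2 - 4) / 3) + a0 * ((T ^ 2 - 4) / 3) = (T ^ 2 - 4) / 3 := by
    have : a1 * ((T ^ 2 - 4) / 3) + a2 * ((T ^ 2 - 4) / 3) + a0 * ((T ^ 2 - 4) / 3) =
      (a0 + a1 + a2) * ((T ^ 2 - 4) / 3) := by ring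
    rw [this, ha, one_mul]
  have c2 : a1 * (β0 * β1 + β1 * β2 + β2 * β0) + a2 * (β0 * β1 + β1 * β2 + β2 * β0) +
      a0 * (β0 * β1 + β1 * β2 + β2 * β0) = β0 * β1 + β1 * β2 + β2 * β0 := by
    have : a1 * (β0 * β1 + β1 * β2 + β2 * β0) + a2 * (β0 * β1 + β1 * β2 + β2 * β0) +
      a0 * (β0 * β1 + β1 * β2 + β2 * β0) = (a0 + a1 + a2) * (β0 * β1 + β1 * β2 + β2 * β0) := by ring
    rw [this, ha, one_mul]
  have c3 : n0 + n1 + n2 + (m0 + m1 + m2) ≤ s0 * ((1 + x) * a1) + s0 * ((1 + x) * a2) +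
      s0 * ((1 + x) * a0) + (β0 * (β1 - (1 + x) * a1) + β1 * (β2 - (1 + x) * a2) +
      β2 * (β0 - (1 + x) * a0)) := by linarith
  refine le_trans c3 ?_
  clear c3 hm0 hm1 hm2 hn0 hn1 hn2 key p0 p1 p2 e0 e1 e2 hβ0 hβ1 hβ2
  linarith

/-- main scaled theorem -/
theorem R1_scaled (h4 : S4) (x y a0 a1 a2 g0 g1 g2 s0 s1 n0 n1 n2 m0 m1 m2 : ℝ) (hx : 1/3 ≤ x)
    (hy : 1/3 ≤ y)
    (ha0 : 0 ≤ a0) (ha1 : 0 ≤ a1) (ha2 : 0 ≤ a2) (hg0 : 0 ≤ g0) (hg1 : 0 ≤ g1) (hg2 : 0 ≤ g2)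
    (ha : a0 + a1 + a2 = 1) (hg : g0 + g1 + g2 = 1)
    (hs : s0 + s1 = x + y) (hs0 : s0 ≤ 3 * x - 1) (hs1 : s1 ≤ 3 * y - 1)
    (hn0 : n0 ≤ s0 * ((1 + x) * a1)) (hn1 : n1 ≤ s0 * ((1 + x) * a2)) (hn2 : n2 ≤ s0 * ((1 + x) * a0))
    (hm0 : m0 ≤ ((1 + x) * a0 + (1 + y) * g0) * ((1 + y) * g1))
    (hm1 : m1 ≤ ((1 + x) * a1 + (1 + y) * g1) * ((1 + y) * g2))
    (hm2 : m2 ≤ ((1 + x) * a2 + (1 + y) * g2) * ((1 + y) * g0))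
    (hm0' : m0 ≤ s1 * ((1 + y) * g1)) (hm1' : m1 ≤ s1 * ((1 + y) * g2)) (hm2' : m2 ≤ s1 * ((1 + y) * g0))
    (hn0' : n0 ≤ ((1 + x) * a0 + (1 + y) * g0) * ((1 + x) * a1))
    (hn1' : n1 ≤ ((1 + x) * a1 + (1 + y) * g1) * ((1 + x) * a2))
    (hn2' : n2 ≤ ((1 + x) * a2 + (1 + y) * g2) * ((1 + x) * a0))
    (hn0'' : n0 ≤ x * a1 * max (((1 + x) * a0 + (1 + y) * g0) - a1) 0 + s0 * a1)
    (hn1'' : n1 ≤ x * a2 * max (((1 + x) * a1 + (1 + y) * g1) - a2) 0 + s0 * a2)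
    (hn2'' : n2 ≤ x * a0 * max (((1 + x) * a2 + (1 + y) * g2) - a0) 0 + s0 * a0)
    (hm0'' : m0 ≤ y * g1 * max (((1 + x) * a0 + (1 + y) * g0) - g1) 0 + s1 * g1)
    (hm1'' : m1 ≤ y * g2 * max (((1 + x) * a1 + (1 + y) * g1) - g2) 0 + s1 * g2)
    (hm2'' : m2 ≤ y * g0 * max (((1 + x) * a2 + (1 + y) * g2) - g0) 0 + s1 * g0) :
    n0 + n1 + n2 + (m0 + m1 + m2) ≤ ((x + y) ^ 2 + 4 * (x + y)) / 3 := by
  by_cases hA1 : x ≤ 1/2 ∧ 4 ≤ x + y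
  · exact caseA x y a0 a1 a2 g0 g1 g2 s0 s1 n0 n1 n2 m0 m1 m2 hx hy hA1.1 hA1.2 ha0 ha1 ha2 ha hg hs0
      hn0 hn1 hn2 hm0 hm1 hm2
  by_cases hA2 : y ≤ 1/2 ∧ 4 ≤ x + y
  · have := caseA y x g0 g1 g2 a0 a1 a2 s1 s0 m0 m1 m2 n0 n1 n2 hy hx hA2.1 (by linarith) hg0 hg1 hg2
      hg ha hs1 hm0' hm1' hm2' (by rw [add_comm ((1 + y) * g0)]; exact hn0')
      (by rw [add_comm ((1 + y) * g1)]; exact hn1') (by rw [add_comm ((1 + y) * g2)]; exact hn2')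
    linarith
  have hS : n0 + n1 + n2 + (m0 + m1 + m2) ≤ SS x y a0 a1 a2 g0 g1 g2 + (x + y) := by
    have e1 : s0 * a1 + s0 * a2 + s0 * a0 + (s1 * g1 + s1 * g2 + s1 * g0) = x + y := by
      have : s0 * a1 + s0 * a2 + s0 * a0 + (s1 * g1 + s1 * g2 + s1 * g0) =
        s0 * (a0 + a1 + a2) + s1 * (g0 + g1 + g2) := by ring
      rw [this, ha, hg]; linarith
    unfold SS
    linarith
  rcases le_total (x + y) 5 with h5 | h5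
  · have := SS_small h4 x y a0 a1 a2 g0 g1 g2 hx hy h5 ha0 ha1 ha2 hg0 hg1 hg2 ha hg
    linarith
  · have hx' : 1/2 ≤ x := by
      by_contra hc
      push Not at hc
      exact hA1 ⟨hc.le, by linarith⟩
    have hy' : 1/2 ≤ y := by
      by_contra hc
      push Not at hc
      exact hA2 ⟨hc.le, by linarith⟩
    have hD := Dl_pos1 x y hx' hy'
    by_cases hall : (a1 ≤ (1 + x) * a0 + (1 + y) * g0 ∧ a2 ≤ (1 + x) * a1 + (1 + y) * g1 ∧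
      a0 ≤ (1 + x) * a2 + (1 + y) * g2) ∧ (g1 ≤ (1 + x) * a0 + (1 + y) * g0 ∧
      g2 ≤ (1 + x) * a1 + (1 + y) * g1 ∧ g0 ≤ (1 + x) * a2 + (1 + y) * g2)
    · have := case13 x y a0 a1 a2 g0 g1 g2 hx hy ha0 ha1 ha2 ha hg hD hall.2.1 hall.2.2.1 hall.2.2.2
        (Or.inr hall.1)
      linarith
    · -- some class is small
      obtain ⟨β0, hβ0⟩ : ∃ β, β = (1 + x) * a0 + (1 + y) * g0 := ⟨_, rfl⟩
      obtain ⟨β1, hβ1⟩ : ∃ β, β = (1 + x) * a1 + (1 + y) * g1 := ⟨_, rfl⟩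
      obtain ⟨β2, hβ2⟩ : ∃ β, β = (1 + x) * a2 + (1 + y) * g2 := ⟨_, rfl⟩
      have hP : n0 + n1 + n2 + (m0 + m1 + m2) ≤ β0 * β1 + β1 * β2 + β2 * β0 := by
        have e1 : β0 * β1 + β1 * β2 + β2 * β0 = β0 * ((1 + x) * a1 + (1 + y) * g1) +
          β1 * ((1 + x) * a2 + (1 + y) * g2) + β2 * ((1 + x) * a0 + (1 + y) * g0) := by
          rw [← hβ0, ← hβ1, ← hβ2]
        rw [← hβ0] at hm0 hn0'
        rw [← hβ1] at hm1 hn1'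
        rw [← hβ2] at hm2 hn2'
        rw [e1]
        linarith
      rw [← hβ0, ← hβ1, ← hβ2] at hall
      have hsum : β0 + β1 + β2 = x + y + 2 := by
        rw [hβ0, hβ1, hβ2]
        have : (1 + x) * a0 + (1 + y) * g0 + ((1 + x) * a1 + (1 + y) * g1) +
          ((1 + x) * a2 + (1 + y) * g2) =
          (1 + x) * (a0 + a1 + a2) + (1 + y) * (g0 + g1 + g2) := by ring
        rw [this, ha, hg]; ring
      have small : ∀ β P : ℝ, P ≤ (x + y + 2) ^ 2 / 3 - 3/4 * ((x + y + 2) / 3 - β) ^ 2 → β ≤ 1 →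
          P ≤ ((x + y) ^ 2 + 4 * (x + y)) / 3 := by
        intro β P hP hβ
        have h1 : (4:ℝ)/3 ≤ (x + y + 2) / 3 - β := by linarith
        have h2 : (4:ℝ)/3 * (4/3) ≤ ((x + y + 2) / 3 - β) ^ 2 := by
          have := mul_self_le_mul_self (by norm_num : (0:ℝ) ≤ 4/3) h1
          rw [sq]; exact this
        have h3 : (x + y + 2) ^ 2 / 3 - 3/4 * (4/3 * (4/3)) = ((x + y) ^ 2 + 4 * (x + y)) / 3 := by ring
        linarith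
      have p0 := P_bound β0 β1 β2
      have p1 := P_bound β1 β2 β0
      have p2 := P_bound β2 β0 β1
      rw [hsum] at p0
      rw [show β1 + β2 + β0 = x + y + 2 by linarith] at p1
      rw [show β2 + β0 + β1 = x + y + 2 by linarith] at p2
      have hcase : β0 ≤ 1 ∨ β1 ≤ 1 ∨ β2 ≤ 1 := by
        by_contra hc
        push Not at hc
        apply hall
        refine ⟨⟨?_, ?_, ?_⟩, ⟨?_, ?_, ?_⟩⟩ <;> linarith
      refine le_trans hP ?_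
      rcases hcase with h | h | h
      · exact small β0 _ p0 h
      · exact small β1 _ (by linarith) h
      · exact small β2 _ (by linarith) h

end Pool.Agent.M4074S
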