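import Mathlib
import Pool.Agent.M4074.RS3

set_option autoImplicit false

namespace Pool.Agent.M4074S

open Pool.Agent.M4074R (Cell3 R1Prop)

lemma cell_scale (N v β a x s : ℝ) (hv : 0 < v) (ha : 0 ≤ a) (hx : 0 ≤ x) (hs : 0 ≤ s) (hβ : 0 ≤ β)
    (h : Cell3 (v ^ 2 * N) (v * β) (v * ((1 + x) * a)) (v * s)) :
    N ≤ x * a * max (β - a) 0 + s * a ∧ N ≤ s * ((1 + x) * a) ∧ N ≤ β * ((1 + x) * a) := by
  have hv2 : 0 < v ^ 2 := by positivity
  refine ⟨?_, ?_, ?_⟩
  · rcases le_total a β with h1 | h1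
    · rw [max_eq_left (by linarith)]
      have h2 := h.2.2.2.1 (v * a) (by positivity) (mul_le_mul_of_nonneg_left h1 hv.le)
        (by
          apply mul_le_mul_of_nonneg_left _ hv.le
          nlinarith)
      have h3 : v ^ 2 * N ≤ v ^ 2 * (x * a * (β - a) + s * a) := by
        refine le_trans h2 (le_of_eq ?_)
        ring
      exact le_of_mul_le_mul_left h3 hv2
    · rw [max_eq_right (by linarith)]
      have h2 := h.2.1
      have h3 : v ^ 2 * N ≤ v ^ 2 * (β * s) := by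
        refine le_trans h2 (le_of_eq ?_)
        ring
      have h4 := le_of_mul_le_mul_left h3 hv2
      nlinarith [mul_le_mul_of_nonneg_right h1 hs]
  · have h3 : v ^ 2 * N ≤ v ^ 2 * (s * ((1 + x) * a)) := by
      refine le_trans h.2.2.1 (le_of_eq ?_)
      ring
    exact le_of_mul_le_mul_left h3 hv2
  · have h3 : v ^ 2 * N ≤ v ^ 2 * (β * ((1 + x) * a)) := by
      refine le_trans h.1 (le_of_eq ?_)
      ring
    exact le_of_mul_le_mul_left h3 hv2

theorem R1_of_S4 (h4 : S4) : R1Prop := by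
  intro e0 e1 e2 o0 o1 o2 w0 w1 N0 N1 N2 M0 M1 M2 he0 he1 he2 ho0 ho1 ho2 hw0 hw1 hE hO hwb hr1 hr0
    cN0 cN1 cN2 cM0 cM1 cM2
  obtain ⟨E, hEd⟩ : ∃ E, E = e0 + e1 + e2 := ⟨_, rfl⟩
  obtain ⟨O, hOd⟩ : ∃ O, O = o0 + o1 + o2 := ⟨_, rfl⟩
  rw [← hEd] at hE hwb hr1 hr0 ⊢
  rw [← hOd] at hO hwb hr1 hr0 ⊢
  obtain ⟨v, hv⟩ : ∃ v, v = (E + O - (w0 + w1)) / 2 := ⟨_, rfl⟩
  have hv0 : 0 < v := by rw [hv]; linarith
  have hvne := ne_of_gt hv0
  have hEne := ne_of_gt hE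
  have hOne := ne_of_gt hO
  obtain ⟨x, hx⟩ : ∃ x, x = (E - v) / v := ⟨_, rfl⟩
  obtain ⟨y, hy⟩ : ∃ y, y = (O - v) / v := ⟨_, rfl⟩
  have hEx : v * (1 + x) = E := by rw [hx]; field_simp; ring
  have hOy : v * (1 + y) = O := by rw [hy]; field_simp; ring
  have hx3 : 1/3 ≤ x := by
    rw [hx, le_div_iff₀ hv0]
    linarith
  have hy3 : 1/3 ≤ y := by
    rw [hy, le_div_iff₀ hv0]
    linarith
  have A : ∀ e : ℝ, v * ((1 + x) * (e / E)) = e := by
    intro e
    have : v * ((1 + x) * (e / E)) = (v * (1 + x)) * (e / E) := by ring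
    rw [this, hEx]
    field_simp
  have G : ∀ e : ℝ, v * ((1 + y) * (e / O)) = e := by
    intro e
    have : v * ((1 + y) * (e / O)) = (v * (1 + y)) * (e / O) := by ring
    rw [this, hOy]
    field_simp
  have W : ∀ w : ℝ, v * (w / v) = w := by
    intro w
    field_simp
  have NN : ∀ n : ℝ, v ^ 2 * (n / v ^ 2) = n := by
    intro n
    field_simp
  have Bt : ∀ e o : ℝ, v * ((1 + x) * (e / E) + (1 + y) * (o / O)) = e + o := by
    intro e o
    rw [mul_add, A, G]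
  have hxx : 0 ≤ x := by linarith
  have hyy : 0 ≤ y := by linarith
  have n0 := cell_scale (N0 / v ^ 2) v ((1 + x) * (e0 / E) + (1 + y) * (o0 / O)) (e1 / E) x (w0 / v)
    hv0 (by positivity) hxx (by positivity) (by positivity) (by rw [NN, Bt, A, W]; exact cN0)
  have n1 := cell_scale (N1 / v ^ 2) v ((1 + x) * (e1 / E) + (1 + y) * (o1 / O)) (e2 / E) x (w0 / v)
    hv0 (by positivity) hxx (by positivity) (by positivity) (by rw [NN, Bt, A, W]; exact cN1)
  have n2 := cell_scale (N2 / v ^ 2) v ((1 + x) * (e2 / E) + (1 + y) * (o2 / O)) (e0 / E) x (w0 / v)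
    hv0 (by positivity) hxx (by positivity) (by positivity) (by rw [NN, Bt, A, W]; exact cN2)
  have m0 := cell_scale (M0 / v ^ 2) v ((1 + x) * (e0 / E) + (1 + y) * (o0 / O)) (o1 / O) y (w1 / v)
    hv0 (by positivity) hyy (by positivity) (by positivity) (by rw [NN, Bt, G, W]; exact cM0)
  have m1 := cell_scale (M1 / v ^ 2) v ((1 + x) * (e1 / E) + (1 + y) * (o1 / O)) (o2 / O) y (w1 / v)
    hv0 (by positivity) hyy (by positivity) (by positivity) (by rw [NN, Bt, G, W]; exact cM1)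
  have m2 := cell_scale (M2 / v ^ 2) v ((1 + x) * (e2 / E) + (1 + y) * (o2 / O)) (o0 / O) y (w1 / v)
    hv0 (by positivity) hyy (by positivity) (by positivity) (by rw [NN, Bt, G, W]; exact cM2)
  have key := R1_scaled h4 x y (e0 / E) (e1 / E) (e2 / E) (o0 / O) (o1 / O) (o2 / O) (w0 / v) (w1 / v)
    (N0 / v ^ 2) (N1 / v ^ 2) (N2 / v ^ 2) (M0 / v ^ 2) (M1 / v ^ 2) (M2 / v ^ 2) hx3 hy3
    (by positivity) (by positivity) (by positivity) (by positivity) (by positivity) (by positivity)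
    (by rw [← add_div, ← add_div, ← hEd]; exact div_self hEne)
    (by rw [← add_div, ← add_div, ← hOd]; exact div_self hOne)
    (by
      rw [hx, hy, ← add_div, ← add_div]
      congr 1
      linarith)
    (by
      rw [div_le_iff₀ hv0]
      have : (3 * x - 1) * v = 3 * (v * (1 + x)) - 4 * v := by ring
      rw [this, hEx]
      linarith)
    (by
      rw [div_le_iff₀ hv0]
      have : (3 * y - 1) * v = 3 * (v * (1 + y)) - 4 * v := by ring
      rw [this, hOy]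
      linarith)
    n0.2.1 n1.2.1 n2.2.1 m0.2.2 m1.2.2 m2.2.2 m0.2.1 m1.2.1 m2.2.1 n0.2.2 n1.2.2 n2.2.2
    n0.1 n1.1 n2.1 m0.1 m1.1 m2.1
  have hv2 : 0 < v ^ 2 := by positivity
  have h5 := mul_le_mul_of_nonneg_left key hv2.le
  have e5 : v ^ 2 * (N0 / v ^ 2 + N1 / v ^ 2 + N2 / v ^ 2 + (M0 / v ^ 2 + M1 / v ^ 2 + M2 / v ^ 2)) =
    N0 + N1 + N2 + (M0 + M1 + M2) := by
    field_simp
  have e6 : v ^ 2 * (((x + y) ^ 2 + 4 * (x + y)) / 3) =
    ((v * (1 + x) + v * (1 + y)) ^ 2 - 4 * v ^ 2) / 3 := by ring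
  rw [e5, e6, hEx, hOy] at h5
  refine le_trans h5 (le_of_eq ?_)
  rw [hv]
  ring

end Pool.Agent.M4074S
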