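import Mathlib
import Pool.Agent.M4074.Fin
import Pool.Agent.M4074.Cruxes
import Pool.Agent.M4074.DP
import Pool.Agent.M4074.Mixed
import Pool.Agent.M4074.RS4
import Pool.Agent.M4074.Case4

set_option autoImplicit false

open Ne16c1d3e Ne16c1d3e.Ne9f539be Filter

namespace Pool.Agent.M4074S

theorem s4 : S4 := by
  intro x y a0 a1 a2 g0 g1 g2 hy hyx _ ha0 ha1 ha2 hg0 hg1 hg2 ha hg hf
  have h := Pool.Agent.M4074C4.case4 x y a0 a1 a2 g0 g1 g2 hy hyx ha0 ha1 ha2 hg0 hg1 hg2 ha hg hf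
  unfold SS
  linarith

end Pool.Agent.M4074S

namespace Pool.Agent.M4074H

open Pool.Agent.M4074R

theorem gamma_of_R1 (hR : R1Prop) : gamma = 1 / 3 := by
  apply Pool.Agent.M4074F.gamma_eq 8
  intro A
  exact T_bound 8 5 (by norm_num) (by norm_num) (cruxSingle dprop) (cruxDouble dprop) (cruxMixed hR) A

theorem gamma_final : gamma = 1 / 3 :=
  gamma_of_R1 (Pool.Agent.M4074S.R1_of_S4 Pool.Agent.M4074S.s4)

end Pool.Agent.M4074H
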